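import Mathlib

/-!
# Stark's conjecture: the definitions

`S` is the set of the infinite places.
-/

set_option autoImplicit false
set_option linter.unusedSectionVars false

namespace Pool.Agent.K4H74.SK

open NumberField

/-- A finite Galois extension `L / K` of number fields. -/
structure Ext where
  /-- the base field -/
  K : Type
  /-- the extension -/
  L : Type
  [fK : Field K]
  [fL : Field L]
  [nK : NumberField K]
  [nL : NumberField L]
  [al : Algebra K L]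
  [gal : IsGalois K L]

attribute [instance] Ext.fK Ext.fL Ext.nK Ext.nL Ext.al Ext.gal

/-- The Galois group of `L / K`. -/
def G (E : Ext) : Type := E.L ≃ₐ[E.K] E.L

instance (E : Ext) : Group (G E) := inferInstanceAs (Group (E.L ≃ₐ[E.K] E.L))

/-- An element of the Galois group as an endomorphism of the field `L`. -/
def emb {E : Ext} (g : G E) : E.L →+* E.L := RingHomClass.toRingHom (show E.L ≃ₐ[E.K] E.L from g)

/-- `χ` is the character of a finite-dimensional complex representation. -/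
def IsChr {G : Type} [Group G] (χ : G → ℂ) : Prop :=
  ∃ (n : ℕ) (ρ : G →* Matrix (Fin n) (Fin n) ℂ), ∀ g, χ g = (ρ g).trace

/-- `ℂ ⊗ Y`: the functions on the infinite places of `L`. -/
abbrev Y (E : Ext) : Type := InfinitePlace E.L → ℂ

/-- The subspace `ℂ ⊗ X` of `ℂ ⊗ Y`: the functions with sum zero. -/
def IsX {E : Ext} (a : Y E) : Prop := ∑ w, a w = 0

/-- The subspace `ℚ ⊗ X` of `ℂ ⊗ Y`: the functions with rational values and sum zero. -/
def IsQX {E : Ext} (a : Y E) : Prop := IsX a ∧ ∀ w, ∃ q : ℚ, a w = q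

/-- The action of the Galois group on `ℂ ⊗ Y`. -/
def act {E : Ext} (g : G E) (a : Y E) : Y E := fun w => a (w.comap (emb g))

/-- The vector `λ(u) = (- log |u|_w)_w` of a unit `u`, with the normalised absolute values. -/
noncomputable def lam {E : Ext} (u : (𝓞 E.L)ˣ) : Y E :=
  fun w => ((-(w.mult * Real.log (w ((u : 𝓞 E.L) : E.L))) : ℝ) : ℂ)

/-- The restriction of `Λ` to `ℂ ⊗ X` is the `ℂ`-linear extension of `λ ∘ φ`, for a
`ℚ[G]`-isomorphism `φ` from `ℚ ⊗ X` to `ℚ ⊗ (units of L)`: it is equivariant, it maps `ℚ ⊗ X` into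
the `ℚ`-span of the vectors `λ(u)`, and all `λ(u)` are values on `ℚ ⊗ X`. -/
def IsStarkMap {E : Ext} (Λ : Y E →ₗ[ℂ] Y E) : Prop :=
  (∀ (g : G E) (a : Y E), IsX a → Λ (act g a) = act g (Λ a)) ∧
  (∀ a : Y E, IsQX a → ∃ (m : ℕ) (u : (𝓞 E.L)ˣ), 0 < m ∧ (m : ℂ) • Λ a = lam u) ∧
  (∀ u : (𝓞 E.L)ˣ, ∃ a : Y E, IsQX a ∧ Λ a = lam u)

/-- `f` is a `G`-equivariant map from `V` to `ℂ ⊗ X`, where `V` is the representation given by the
matrices `ρ g`, and `f i` is the image of the `i`-th vector of the basis. -/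
def IsHom {E : Ext} {n : ℕ} (ρ : G E →* Matrix (Fin n) (Fin n) ℂ) (f : Fin n → Y E) : Prop :=
  (∀ i, IsX (f i)) ∧ ∀ (g : G E) (i : Fin n), ∑ j, ρ g j i • f j = act g (f i)

lemma act_add {E : Ext} (g : G E) (a b : Y E) : act g (a + b) = act g a + act g b := rfl

lemma act_smul {E : Ext} (g : G E) (c : ℂ) (a : Y E) : act g (c • a) = c • act g a := rfl

lemma X_add {E : Ext} {a b : Y E} (ha : IsX a) (hb : IsX b) : IsX (a + b) := by
  unfold IsX at *
  simp only [Pi.add_apply, Finset.sum_add_distrib]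
  rw [ha, hb, add_zero]

lemma X_smul {E : Ext} (c : ℂ) {a : Y E} (ha : IsX a) : IsX (c • a) := by
  unfold IsX at *
  simp only [Pi.smul_apply, smul_eq_mul, ← Finset.mul_sum]
  rw [ha, mul_zero]

lemma hom_zero {E : Ext} {n : ℕ} (ρ : G E →* Matrix (Fin n) (Fin n) ℂ) : IsHom ρ 0 := by
  refine ⟨fun i => by simp [IsX], fun g i => ?_⟩
  simp only [Pi.zero_apply, smul_zero, Finset.sum_const_zero]
  rfl

lemma hom_add {E : Ext} {n : ℕ} (ρ : G E →* Matrix (Fin n) (Fin n) ℂ) {a b : Fin n → Y E}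
    (ha : IsHom ρ a) (hb : IsHom ρ b) : IsHom ρ (a + b) := by
  refine ⟨fun i => X_add (ha.1 i) (hb.1 i), fun g i => ?_⟩
  simp only [Pi.add_apply, smul_add, Finset.sum_add_distrib]
  rw [ha.2 g i, hb.2 g i, act_add]

lemma hom_smul {E : Ext} {n : ℕ} (ρ : G E →* Matrix (Fin n) (Fin n) ℂ) (c : ℂ) {a : Fin n → Y E}
    (ha : IsHom ρ a) : IsHom ρ (c • a) := by
  refine ⟨fun i => X_smul c (ha.1 i), fun g i => ?_⟩
  simp only [Pi.smul_apply, smul_comm _ c]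
  rw [← Finset.smul_sum, ha.2 g i, act_smul]

/-- `Hom_G(V, ℂ ⊗ X)`. -/
def HomX {E : Ext} {n : ℕ} (ρ : G E →* Matrix (Fin n) (Fin n) ℂ) :
    Submodule ℂ (Fin n → Y E) where
  carrier := {f | IsHom ρ f}
  zero_mem' := hom_zero ρ
  add_mem' := hom_add ρ
  smul_mem' c _ ha := hom_smul ρ c ha

/-- `r` is the determinant of the restriction to the subspace `W` of the linear map `f`. -/
def IsDetOn {V : Type} [AddCommGroup V] [Module ℂ V] (W : Submodule ℂ V) (f : V → V) (r : ℂ) :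
    Prop :=
  ∃ T : W →ₗ[ℂ] W, (∀ x : W, (T x : V) = f x) ∧ r = LinearMap.det T

/-- `r` is Stark's regulator `R(χ, φ)`, for `Λ` as in `IsStarkMap`: the determinant of
`f ↦ Λ ∘ f` on `Hom_G(V, ℂ ⊗ X)`, where `V` is a representation with the character
`g ↦ χ (g⁻¹)`. -/
def IsReg {E : Ext} (Λ : Y E →ₗ[ℂ] Y E) (χ : G E → ℂ) (r : ℂ) : Prop :=
  ∃ (n : ℕ) (ρ : G E →* Matrix (Fin n) (Fin n) ℂ),
    (∀ g, (ρ g).trace = χ g⁻¹) ∧ IsDetOn (HomX ρ) (fun f i => Λ (f i)) r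

/-- The pairs `(P, g)`, where `P` is a prime of `L` over the prime `p` of `K`, and `g` induces
`x ↦ x ^ (N(p)^n)` modulo `P`. -/
def frobSet (E : Ext) (p : Ideal (𝓞 E.K)) (n : ℕ) : Set (Ideal (𝓞 E.L) × G E) :=
  {x | x.1.IsPrime ∧ p = x.1.comap (algebraMap (𝓞 E.K) (𝓞 E.L)) ∧
    ∀ y z : 𝓞 E.L, (z : E.L) = emb x.2 y → z - y ^ (Ideal.absNorm p ^ n) ∈ x.1}

/-- `χ(p^n)`: the mean of `χ` over the elements which induce `x ↦ x ^ (N(p)^n)` modulo a prime of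
`L` over `p`. -/
noncomputable def frobMean {E : Ext} (χ : G E → ℂ) (p : Ideal (𝓞 E.K)) (n : ℕ) : ℂ :=
  (∑ᶠ x ∈ frobSet E p n, χ x.2) / (frobSet E p n).ncard

/-- The nonzero prime ideals of `K`. -/
abbrev Pr (E : Ext) : Type := {p : Ideal (𝓞 E.K) // p.IsPrime ∧ p ≠ ⊥}

/-- The term `χ(p^n) / (n N(p)^(n s))` of `log L(s, χ)`. -/
noncomputable def logTerm {E : Ext} (χ : G E → ℂ) (s : ℂ) (x : Pr E × ℕ+) : ℂ :=
  frobMean χ x.1.1 x.2 / ((x.2 : ℕ) * (Ideal.absNorm x.1.1 : ℂ) ^ (((x.2 : ℕ) : ℂ) * s))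

/-- A finite Galois extension of number fields, with a function on its Galois group. -/
abbrev Pair : Type 1 := (E : Ext) × (G E → ℂ)

/-- `c` is a system of leading coefficients at `s = 0` of the Artin L-functions
`L(s, χ) = exp (∑ χ(p^n) / (n N(p)^(n s)))`: if a product `∏ L(s, χ_i)^(k_i)`, with characters
`χ_i` of Galois groups and integers `k_i`, is equal for `Re s > 1` to a function `f` which is
meromorphic on `ℂ`, then `∏ c(χ_i)^(k_i)` is the leading coefficient of `f` at `s = 0`. -/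
def IsLeading (c : Pair → ℂ) : Prop :=
  ∀ (m : ℕ) (x : Fin m → Pair) (k : Fin m → ℤ) (f : ℂ → ℂ), (∀ i, IsChr (x i).2) →
    (∀ z, MeromorphicAt f z) →
    (∀ s : ℂ, 1 < s.re → ∃ l : Fin m → ℂ, (∀ i, HasSum (logTerm (x i).2 s) (l i)) ∧
      f s = Complex.exp (∑ i, k i * l i)) →
    ∏ i, c (x i) ^ k i = meromorphicTrailingCoeffAt f 0

/-- `a = A(χ, φ) = R(χ, φ) / c(χ)`. -/
def IsA (c : Pair → ℂ) {E : Ext} (Λ : Y E →ₗ[ℂ] Y E) (χ : G E → ℂ) (a : ℂ) : Prop :=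
  ∃ r : ℂ, IsReg Λ χ r ∧ a = r / c ⟨E, χ⟩

/-- Stark's conjecture for the character `χ` and the automorphism `σ` of `ℂ`:
`A(χ, φ)^σ = A(χ^σ, φ)` for all `φ`. -/
def Stark (c : Pair → ℂ) (σ : ℂ ≃+* ℂ) {E : Ext} (χ : G E → ℂ) : Prop :=
  ∀ Λ : Y E →ₗ[ℂ] Y E, IsStarkMap Λ → ∀ a a' : ℂ, IsA c Λ χ a → IsA c Λ (fun g => σ (χ g)) a' →
    σ a = a'

/-- Stark's conjecture up to sign: `A(χ, φ)^σ = ± A(χ^σ, φ)` for all `φ`. -/
def StarkSign (c : Pair → ℂ) (σ : ℂ ≃+* ℂ) {E : Ext} (χ : G E → ℂ) : Prop :=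
  ∀ Λ : Y E →ₗ[ℂ] Y E, IsStarkMap Λ → ∀ a a' : ℂ, IsA c Λ χ a → IsA c Λ (fun g => σ (χ g)) a' →
    σ a = a' ∨ σ a = -a'

/-- The linear character `g ↦ ψ g` as a function. -/
def lin {E : Ext} (ψ : G E →* ℂˣ) : G E → ℂ := fun g => ((ψ g : ℂˣ) : ℂ)

/-- `c` is a complex conjugation in the Galois group. -/
def IsCC {E : Ext} (c : G E) : Prop := ∃ φ : E.L →+* ℂ, ∀ x, φ (emb c x) = star (φ x)

end Pool.Agent.K4H74.SK
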