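import Mathlib
import Pool.Agent.K4H74.ST.Fin

/-!
# Frobenius elements and the coefficients of Artin L-series
-/

set_option autoImplicit false
set_option linter.unusedSectionVars false

namespace Pool.Agent.K4H74.SC

open NumberField Ideal Pool.Agent.K4H74.ST
open scoped Pointwise

section defs

variable (K L : Type) [Field K] [NumberField K] [Field L] [NumberField L] [Algebra K L]

/-- the pairs `(P, g)`, where `P` is a prime of `L` over the prime `p` of `K`, and `g` induces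
`x ↦ x ^ (N(p)^n)` modulo `P` -/
def frobSet (p : Ideal (𝓞 K)) (n : ℕ) : Set (Ideal (𝓞 L) × (L ≃ₐ[K] L)) :=
  {x | x.1.IsPrime ∧ x.1.LiesOver p ∧ ∀ y : 𝓞 L, x.2 • y - y ^ (absNorm p ^ n) ∈ x.1}

/-- `χ(p^n)`: the mean of `χ` over the elements which induce `x ↦ x ^ (N(p)^n)` modulo a prime of
`L` over `p` -/
noncomputable def frobMean (χ : (L ≃ₐ[K] L) → ℂ) (p : Ideal (𝓞 K)) (n : ℕ) : ℂ :=
  (∑ᶠ x ∈ frobSet K L p n, χ x.2) / (frobSet K L p n).ncard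

end defs

section sums

variable {K L : Type} [Field K] [NumberField K] [Field L] [NumberField L] [Algebra K L]

/-- `g` induces `x ↦ x ^ m` modulo `P` -/
def Fr (P : Ideal (𝓞 L)) (m : ℕ) (g : L ≃ₐ[K] L) : Prop := ∀ y : 𝓞 L, g • y - y ^ m ∈ P

open Classical in
/-- the sum of `χ` over the elements which induce `x ↦ x ^ m` -/
noncomputable def frSum [Fintype (L ≃ₐ[K] L)] (χ : (L ≃ₐ[K] L) → ℂ) (P : Ideal (𝓞 L)) (m : ℕ) : ℂ :=
  ∑ g : L ≃ₐ[K] L, if Fr P m g then χ g else 0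

variable (L) in
lemma pr_finite {p : Ideal (𝓞 K)} (hp : p ≠ ⊥) [p.IsPrime] : (p.primesOver (𝓞 L)).Finite := by
  have : p.IsMaximal := Ideal.IsPrime.isMaximal ‹_› hp
  exact IsDedekindDomain.primesOver_finite p (𝓞 L)

open Classical in
lemma frobSet_eq [Fintype (L ≃ₐ[K] L)] {p : Ideal (𝓞 K)} (hp : p ≠ ⊥) [p.IsPrime] (n : ℕ) :
    frobSet K L p n = ((((pr_finite L hp).toFinset ×ˢ (Finset.univ : Finset (L ≃ₐ[K] L))).filter
      (fun x => Fr x.1 (absNorm p ^ n) x.2) : Finset _) : Set (Ideal (𝓞 L) × (L ≃ₐ[K] L))) := by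
    ext x
    rw [Finset.mem_coe, Finset.mem_filter, Finset.mem_product, Set.Finite.mem_toFinset]
    constructor
    · rintro ⟨h2, h3, h4⟩
      exact ⟨⟨⟨h2, h3⟩, Finset.mem_univ _⟩, h4⟩
    · rintro ⟨⟨⟨h2, h3⟩, -⟩, h4⟩
      exact ⟨h2, h3, h4⟩

open Classical in
lemma sum_frobSet [Fintype (L ≃ₐ[K] L)] {p : Ideal (𝓞 K)} (hp : p ≠ ⊥) [p.IsPrime] (n : ℕ)
    {M : Type} [AddCommMonoid M] (F : Ideal (𝓞 L) × (L ≃ₐ[K] L) → M) :
    ∑ᶠ x ∈ frobSet K L p n, F x = ∑ P ∈ (pr_finite L hp).toFinset, ∑ g : L ≃ₐ[K] L,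
      if Fr P (absNorm p ^ n) g then F (P, g) else 0 := by
  rw [frobSet_eq hp n, finsum_mem_coe_finset, Finset.sum_filter, Finset.sum_product]

variable [IsGalois K L]

lemma absNorm_under {p : Ideal (𝓞 K)} (P : Ideal (𝓞 L)) [P.LiesOver p] :
    Nat.card (𝓞 K ⧸ P.under (𝓞 K)) = absNorm p := by
  rw [← P.over_def p, Ideal.absNorm_apply, Submodule.cardQuot_apply]

/-- a Frobenius element -/
lemma exists_frob {p : Ideal (𝓞 K)} (hp : p ≠ ⊥) (P : Ideal (𝓞 L)) [P.IsPrime] [P.LiesOver p] :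
    ∃ σ : L ≃ₐ[K] L, ∀ n, Fr P (absNorm p ^ n) (σ ^ n) := by
  have hP : P ≠ ⊥ := Ideal.ne_bot_of_liesOver_of_ne_bot hp P
  have : Finite (𝓞 L ⧸ P) := Ideal.finiteQuotientOfFreeOfNeBot P hP
  obtain ⟨σ, hσ⟩ := IsArithFrobAt.exists_of_isInvariant (𝓞 K) (L ≃ₐ[K] L) P
  have h1 : ∀ y : 𝓞 L, σ • y - y ^ absNorm p ∈ P := by
    intro y
    have := hσ y
    rw [absNorm_under (p := p)] at this
    exact this
  refine ⟨σ, fun n => ?_⟩
  induction n with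
  | zero =>
    intro y
    rw [pow_zero, pow_zero, one_smul, pow_one, sub_self]
    exact P.zero_mem
  | succ n ih =>
    intro y
    rw [← Ideal.Quotient.eq, pow_succ, mul_smul]
    have h2 := ih (σ • y)
    rw [← Ideal.Quotient.eq] at h2
    rw [h2, map_pow]
    have h3 := h1 y
    rw [← Ideal.Quotient.eq] at h3
    rw [h3, map_pow, map_pow, ← pow_mul, pow_succ, mul_comm (absNorm p ^ n)]

lemma fr_iff {P : Ideal (𝓞 L)} {m : ℕ} {σ : L ≃ₐ[K] L} (hσ : Fr P m σ) (g : L ≃ₐ[K] L) :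
    Fr P m g ↔ g * σ⁻¹ ∈ P.inertia (L ≃ₐ[K] L) := by
  rw [AddSubgroup.mem_inertia]
  constructor
  · intro h z
    have h1 := h (σ⁻¹ • z)
    have h2 := hσ (σ⁻¹ • z)
    rw [smul_inv_smul] at h2
    have h3 := P.sub_mem h1 h2
    rw [mul_smul]
    have h4 : g • σ⁻¹ • z - (σ⁻¹ • z) ^ m - (z - (σ⁻¹ • z) ^ m) = g • σ⁻¹ • z - z := by ring
    rwa [h4] at h3
  · intro h y
    have h1 := h (σ • y)
    have h2 := hσ y
    have h3 := P.add_mem h1 h2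
    rw [mul_smul, inv_smul_smul] at h3
    have h4 : g • y - σ • y + (σ • y - y ^ m) = g • y - y ^ m := by ring
    rwa [h4] at h3

open Classical in
/-- the sum over a coset of the inertia group -/
lemma frSum_eq [Fintype (L ≃ₐ[K] L)] {P : Ideal (𝓞 L)} {m : ℕ} {σ : L ≃ₐ[K] L} (hσ : Fr P m σ)
    (χ : (L ≃ₐ[K] L) → ℂ) :
    frSum χ P m = ∑ i : P.inertia (L ≃ₐ[K] L), χ (i * σ) := by
  rw [frSum, ← Finset.sum_filter]
  symm
  refine Finset.sum_bij (fun i _ => (i : L ≃ₐ[K] L) * σ) ?_ ?_ ?_ ?_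
  · intro i _
    rw [Finset.mem_filter]
    refine ⟨Finset.mem_univ _, (fr_iff hσ _).mpr ?_⟩
    rw [mul_inv_cancel_right]
    exact i.2
  · intro i _ j _ h
    exact Subtype.ext (mul_right_cancel h)
  · intro g hg
    rw [Finset.mem_filter] at hg
    exact ⟨⟨g * σ⁻¹, (fr_iff hσ _).mp hg.2⟩, Finset.mem_univ _, inv_mul_cancel_right _ _⟩
  · intro i _
    rfl

/-- conjugation -/
lemma fr_conj (P : Ideal (𝓞 L)) (m : ℕ) (g τ : L ≃ₐ[K] L) :
    Fr (τ • P) m (τ * g * τ⁻¹) ↔ Fr P m g := by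
  constructor
  · intro h y
    have h1 := h (τ • y)
    rw [mul_smul, mul_smul, inv_smul_smul, ← smul_pow', ← smul_sub] at h1
    exact Ideal.smul_mem_pointwise_smul_iff.mp h1
  · intro h y
    have h1 := h (τ⁻¹ • y)
    have h2 := Ideal.smul_mem_pointwise_smul τ _ _ h1
    rw [smul_sub, smul_pow', smul_inv_smul] at h2
    rwa [mul_smul, mul_smul]

lemma frSum_smul [Fintype (L ≃ₐ[K] L)] {χ : (L ≃ₐ[K] L) → ℂ}
    (hχ : ∀ g x : L ≃ₐ[K] L, χ (x * g * x⁻¹) = χ g) (P : Ideal (𝓞 L)) (m : ℕ) (τ : L ≃ₐ[K] L) :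
    frSum χ (τ • P) m = frSum χ P m := by
  classical
  rw [frSum, ← Equiv.sum_comp (MulAut.conj τ).toEquiv, frSum]
  refine Finset.sum_congr rfl fun g _ => ?_
  change (if Fr (τ • P) m (τ * g * τ⁻¹) then χ (τ * g * τ⁻¹) else 0) = _
  rw [hχ]
  by_cases h : Fr P m g
  · rw [if_pos h, if_pos ((fr_conj P m g τ).mpr h)]
  · rw [if_neg h, if_neg (fun h1 => h ((fr_conj P m g τ).mp h1))]

lemma frSum_const [Fintype (L ≃ₐ[K] L)] {χ : (L ≃ₐ[K] L) → ℂ}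
    (hχ : ∀ g x : L ≃ₐ[K] L, χ (x * g * x⁻¹) = χ g) {p : Ideal (𝓞 K)} {P Q : Ideal (𝓞 L)}
    (hP : P ∈ p.primesOver (𝓞 L)) (hQ : Q ∈ p.primesOver (𝓞 L)) (m : ℕ) :
    frSum χ Q m = frSum χ P m := by
  obtain ⟨h1, h2⟩ := hP
  obtain ⟨h3, h4⟩ := hQ
  obtain ⟨τ, rfl⟩ := Algebra.IsInvariant.exists_smul_of_under_eq (𝓞 K) (𝓞 L) (L ≃ₐ[K] L) P Q
    ((P.over_def p).symm.trans (Q.over_def p))
  exact frSum_smul hχ P m τ

lemma card_inertia {p : Ideal (𝓞 K)} [p.IsPrime] (P : Ideal (𝓞 L)) [P.IsPrime] [P.LiesOver p] :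
    Nat.card (P.inertia (L ≃ₐ[K] L)) = p.ramificationIdxIn (𝓞 L) :=
  Ideal.card_inertia_eq_ramificationIdxIn p P

/-- the sum over the set of pairs -/
lemma sum_frob [Fintype (L ≃ₐ[K] L)] {χ : (L ≃ₐ[K] L) → ℂ} {p : Ideal (𝓞 K)} (hp : p ≠ ⊥)
    [p.IsPrime] (n : ℕ) :
    ∑ᶠ x ∈ frobSet K L p n, χ x.2
      = ∑ P ∈ (pr_finite L hp).toFinset, frSum χ P (absNorm p ^ n) := by
  rw [sum_frobSet hp n (fun x => χ x.2)]
  rfl

lemma ncard_frob [Fintype (L ≃ₐ[K] L)] {p : Ideal (𝓞 K)} (hp : p ≠ ⊥) [p.IsPrime] (n : ℕ) :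
    (frobSet K L p n).ncard = (p.primesOver (𝓞 L)).ncard * p.ramificationIdxIn (𝓞 L) := by
  classical
  have h0 : ((frobSet K L p n).ncard : ℂ)
      = ((p.primesOver (𝓞 L)).ncard : ℂ) * p.ramificationIdxIn (𝓞 L) := by
    have h1 : ((frobSet K L p n).ncard : ℂ) = ∑ᶠ x ∈ frobSet K L p n, (fun _ => (1 : ℂ)) x.2 := by
      rw [frobSet_eq hp n, finsum_mem_coe_finset, Finset.sum_const, nsmul_eq_mul, mul_one,
        Set.ncard_coe_finset]
    rw [h1, sum_frob (χ := fun _ => 1) hp n]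
    have h3 : ∀ P ∈ (pr_finite L hp).toFinset,
        frSum (K := K) (fun _ => (1 : ℂ)) P (absNorm p ^ n) = (p.ramificationIdxIn (𝓞 L) : ℂ) := by
      intro P hP
      obtain ⟨hP1, hP2⟩ := (pr_finite L hp).mem_toFinset.mp hP
      obtain ⟨σ, hσ⟩ := exists_frob hp P
      rw [frSum_eq (hσ n), Finset.sum_const, Finset.card_univ, nsmul_eq_mul, mul_one,
        ← Nat.card_eq_fintype_card, card_inertia (p := p)]
    rw [Finset.sum_congr rfl h3, Finset.sum_const, nsmul_eq_mul,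
      Set.ncard_eq_toFinset_card _ (pr_finite L hp)]
  exact_mod_cast h0

lemma ram_ne {p : Ideal (𝓞 K)} [p.IsPrime] : p.ramificationIdxIn (𝓞 L) ≠ 0 := by
  exact Ideal.ramificationIdxIn_ne_zero (L ≃ₐ[K] L)

lemma pr_ne {p : Ideal (𝓞 K)} [p.IsPrime] : (p.primesOver (𝓞 L)).ncard ≠ 0 := by
  intro h
  have h1 := Ideal.ncard_primesOver_mul_ramificationIdxIn_mul_inertiaDegIn p (𝓞 L) (L ≃ₐ[K] L)
  rw [h, zero_mul] at h1
  exact Nat.card_pos.ne h1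

/-- the mean in terms of one prime -/
lemma frobMean_eq [Fintype (L ≃ₐ[K] L)] {χ : (L ≃ₐ[K] L) → ℂ}
    (hχ : ∀ g x : L ≃ₐ[K] L, χ (x * g * x⁻¹) = χ g) {p : Ideal (𝓞 K)} (hp : p ≠ ⊥) [p.IsPrime]
    (n : ℕ) (P : Ideal (𝓞 L)) [P.IsPrime] [P.LiesOver p] :
    frobMean K L χ p n = frSum χ P (absNorm p ^ n) / p.ramificationIdxIn (𝓞 L) := by
  have hP : P ∈ p.primesOver (𝓞 L) := ⟨‹_›, ‹_›⟩
  have h1 : ∀ Q ∈ (pr_finite L hp).toFinset,
      frSum χ Q (absNorm p ^ n) = frSum χ P (absNorm p ^ n) := by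
    intro Q hQ
    exact frSum_const hχ hP ((pr_finite L hp).mem_toFinset.mp hQ) _
  rw [frobMean, sum_frob hp n, ncard_frob hp n, Finset.sum_congr rfl h1, Finset.sum_const,
    nsmul_eq_mul, ← Set.ncard_eq_toFinset_card _ (pr_finite L hp)]
  have h2 : ((p.primesOver (𝓞 L)).ncard : ℂ) ≠ 0 := by exact_mod_cast pr_ne
  have h3 : (p.ramificationIdxIn (𝓞 L) : ℂ) ≠ 0 := by exact_mod_cast ram_ne (K := K)
  push_cast
  field_simp

end sums

end Pool.Agent.K4H74.SC
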