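import Mathlib
import Pool.Agent.K4H74.SC.Frob

/-!
# The coefficients of Artin L-series and inflation
-/

set_option autoImplicit false
set_option linter.unusedSectionVars false

namespace Pool.Agent.K4H74.SC

open NumberField Ideal Pool.Agent.K4H74.ST
open scoped Pointwise

/-- summing over the fibres of a surjective homomorphism -/
lemma sum_hom {A B : Type} [Group A] [Group B] [Fintype A] [Fintype B] (φ : A →* B)
    (hφ : Function.Surjective φ) (f : B → ℂ) :
    (Nat.card B : ℂ) * ∑ a, f (φ a) = (Nat.card A : ℂ) * ∑ b, f b := by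
  classical
  have hker : ∀ x : B, (Finset.univ.filter fun g => φ g = x).card = Nat.card φ.ker := by
    intro x
    obtain ⟨y, rfl⟩ := hφ x
    rw [← Fintype.card_subtype, ← Nat.card_eq_fintype_card]
    refine Nat.card_congr
      { toFun := fun g => ⟨g.1 * y⁻¹, by
          rw [MonoidHom.mem_ker, map_mul, map_inv, g.2, mul_inv_cancel]⟩
        invFun := fun h => ⟨h.1 * y, by
          rw [map_mul, (MonoidHom.mem_ker.mp h.2), one_mul]⟩
        left_inv := fun g => Subtype.ext (by simp)
        right_inv := fun h => Subtype.ext (by simp) }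
  have hcard : Nat.card A = Nat.card φ.ker * Nat.card B := by
    have h1 := φ.ker.index_mul_card
    rw [Subgroup.index_ker, MonoidHom.range_eq_top.mpr hφ, Subgroup.card_top] at h1
    rw [← h1, mul_comm]
  have h2 : ∑ a, f (φ a) = (Nat.card φ.ker : ℂ) * ∑ b, f b := by
    rw [← Finset.sum_fiberwise (s := Finset.univ) (g := fun a : A => φ a), Finset.mul_sum]
    refine Finset.sum_congr rfl fun x _ => ?_
    rw [← hker x, ← nsmul_eq_mul, ← Finset.sum_const]
    refine Finset.sum_congr rfl fun g hg => ?_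
    rw [(Finset.mem_filter.mp hg).2]
  rw [h2, hcard]
  push_cast
  ring

section infl

variable {K L N : Type} [Field K] [NumberField K] [Field L] [NumberField L] [Field N]
  [NumberField N] [Algebra K L] [Algebra L N] [Algebra K N] [IsScalarTower K L N] [IsGalois K L]
  [IsGalois K N]

lemma smul_res (g : N ≃ₐ[K] N) (y : 𝓞 L) :
    algebraMap (𝓞 L) (𝓞 N) (AlgEquiv.restrictNormalHom L g • y) = g • algebraMap (𝓞 L) (𝓞 N) y := by
  apply RingOfIntegers.ext
  change algebraMap L N (AlgEquiv.restrictNormalHom L g (y : L)) = g (algebraMap L N (y : L))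
  exact AlgEquiv.restrictNormal_commutes g L _

lemma fr_res {P' : Ideal (𝓞 N)} {m : ℕ} {g : N ≃ₐ[K] N} (h : Fr P' m g) :
    Fr (P'.under (𝓞 L)) m (AlgEquiv.restrictNormalHom L g) := by
  intro y
  rw [Ideal.under, Ideal.mem_comap, map_sub, smul_res, map_pow]
  exact h _

/-- **inflation** -/
theorem frobMean_infl {χ : (L ≃ₐ[K] L) → ℂ}
    (hχ : ∀ g x : L ≃ₐ[K] L, χ (x * g * x⁻¹) = χ g) {p : Ideal (𝓞 K)} (hp : p ≠ ⊥) [p.IsPrime]
    (n : ℕ) :
    frobMean K N (fun g => χ (AlgEquiv.restrictNormalHom L g)) p n = frobMean K L χ p n := by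
  classical
  have hft : Fintype (L ≃ₐ[K] L) := Fintype.ofFinite _
  have hft' : Fintype (N ≃ₐ[K] N) := Fintype.ofFinite _
  have hfin : FiniteDimensional L N := Module.Finite.of_restrictScalars_finite ℚ L N
  have hLN : IsGalois L N := IsGalois.tower_top_of_isGalois K L N
  let π : (N ≃ₐ[K] N) →* (L ≃ₐ[K] L) := AlgEquiv.restrictNormalHom L
  obtain ⟨P', hP'1, hP'2⟩ : (p.primesOver (𝓞 N)).Nonempty :=
    Set.nonempty_of_ncard_ne_zero (pr_ne (L := N) (K := K))
  let P : Ideal (𝓞 L) := P'.under (𝓞 L)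
  have hPo : P'.LiesOver P := ⟨rfl⟩
  have hP1 : P.IsPrime := inferInstance
  have hP2 : P.LiesOver p := LiesOver.tower_bot P' P p
  obtain ⟨σ', hσ'⟩ := exists_frob hp P'
  have hσ := fr_res (L := L) (hσ' n)
  rw [frobMean_eq (χ := fun g => χ (π g)) (fun g x => by
    rw [map_mul, map_mul, map_inv]; exact hχ _ _) hp n P', frobMean_eq hχ hp n P,
    frSum_eq (hσ' n), frSum_eq hσ]
  -- the restriction of the inertia groups
  let φ : P'.inertia (N ≃ₐ[K] N) →* P.inertia (L ≃ₐ[K] L) :=
    { toFun := fun i => ⟨π i, by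
        rw [AddSubgroup.mem_inertia]
        intro y
        have h1 := (AddSubgroup.mem_inertia.mp i.2) (algebraMap (𝓞 L) (𝓞 N) y)
        change algebraMap (𝓞 L) (𝓞 N) (π i • y - y) ∈ P'
        rw [map_sub, smul_res]
        exact h1⟩
      map_one' := Subtype.ext (map_one π)
      map_mul' := fun a b => Subtype.ext (map_mul π _ _) }
  have hker : Nat.card φ.ker = Nat.card (P'.inertia (N ≃ₐ[L] N)) := by
    refine Nat.card_congr
      { toFun := fun g => ⟨AlgEquiv.ofRingEquiv (f := (g.1.1 : N ≃ₐ[K] N).toRingEquiv) (fun x => by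
          have h1 : π g.1.1 = 1 := congrArg Subtype.val (MonoidHom.mem_ker.mp g.2)
          have h2 := AlgEquiv.restrictNormal_commutes (g.1.1 : N ≃ₐ[K] N) L x
          change (g.1.1 : N ≃ₐ[K] N) (algebraMap L N x) = algebraMap L N x
          rw [← h2]
          change algebraMap L N (π g.1.1 x) = _
          rw [h1]
          rfl), by
          rw [AddSubgroup.mem_inertia]
          intro y
          exact (AddSubgroup.mem_inertia.mp g.1.2) y⟩
        invFun := fun h => ⟨⟨h.1.restrictScalars K, by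
          rw [AddSubgroup.mem_inertia]
          intro y
          exact (AddSubgroup.mem_inertia.mp h.2) y⟩, by
          rw [MonoidHom.mem_ker]
          apply Subtype.ext
          change π (h.1.restrictScalars K) = 1
          ext x
          apply FaithfulSMul.algebraMap_injective L N
          have h2 := AlgEquiv.restrictNormal_commutes (h.1.restrictScalars K : N ≃ₐ[K] N) L x
          change algebraMap L N ((h.1.restrictScalars K : N ≃ₐ[K] N).restrictNormal L x) = _
          rw [h2]
          exact h.1.commutes x⟩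
        left_inv := fun g => rfl
        right_inv := fun h => rfl }
  have hne : Nonempty (P.primesOver (𝓞 N)) := ⟨⟨P', hP'1, hPo⟩⟩
  have hram : p.ramificationIdxIn (𝓞 L) * P.ramificationIdxIn (𝓞 N)
      = p.ramificationIdxIn (𝓞 N) :=
    Ideal.ramificationIdxIn_mul_ramificationIdxIn P (L ≃ₐ[K] L) (𝓞 N) (N ≃ₐ[K] N) (N ≃ₐ[L] N)
  have hI' : Nat.card (P'.inertia (N ≃ₐ[K] N)) = p.ramificationIdxIn (𝓞 N) := card_inertia P'
  have hI : Nat.card (P.inertia (L ≃ₐ[K] L)) = p.ramificationIdxIn (𝓞 L) := card_inertia P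
  have hI'' : Nat.card (P'.inertia (N ≃ₐ[L] N)) = P.ramificationIdxIn (𝓞 N) := card_inertia P'
  have hφ : Function.Surjective φ := by
    have h1 := φ.ker.index_mul_card
    rw [Subgroup.index_ker, hker, hI', hI'', ← hram] at h1
    have h2 : P.ramificationIdxIn (𝓞 N) ≠ 0 := ram_ne (K := L)
    have h3 : Nat.card φ.range = Nat.card (P.inertia (L ≃ₐ[K] L)) := by
      rw [hI]
      exact Nat.eq_of_mul_eq_mul_right (Nat.pos_of_ne_zero h2) h1
    rw [← MonoidHom.range_eq_top]
    exact Subgroup.eq_top_of_card_eq _ h3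
  have h4 := sum_hom φ hφ (fun i => χ (i * π (σ' ^ n)))
  rw [hI, hI'] at h4
  have h5 : ∑ i : P'.inertia (N ≃ₐ[K] N), χ (π (i * σ' ^ n))
      = ∑ i : P'.inertia (N ≃ₐ[K] N), (fun j : P.inertia (L ≃ₐ[K] L) =>
        χ (j * π (σ' ^ n))) (φ i) := by
    refine Finset.sum_congr rfl fun i _ => ?_
    rw [map_mul]
    rfl
  rw [h5]
  have h6 : (p.ramificationIdxIn (𝓞 L) : ℂ) ≠ 0 := by exact_mod_cast ram_ne (K := K)
  have h7 : (p.ramificationIdxIn (𝓞 N) : ℂ) ≠ 0 := by exact_mod_cast ram_ne (K := K)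
  rw [div_eq_div_iff h7 h6, mul_comm, h4, mul_comm]

end infl

end Pool.Agent.K4H74.SC
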