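import Mathlib
import Pool.Agent.K4H74.SC.FrInfl

/-!
# The coefficients of Artin L-series and induction
-/

set_option autoImplicit false
set_option linter.unusedSectionVars false

namespace Pool.Agent.K4H74.SC

open NumberField Ideal Pool.Agent.K4H74.ST
open scoped Pointwise

/-- residue fields -/
lemma dvd_of_pow {F : Type} [Field F] [Finite F] {q f n : ℕ} (hq : 2 ≤ q) (_hn : 0 < n)
    (hF : Nat.card F = q ^ f) (h : ∀ x : F, x ^ (q ^ n) = x) : f ∣ n := by
  obtain ⟨g, hg⟩ := IsCyclic.exists_ofOrder_eq_natCard (α := Fˣ)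
  have h1 : Nat.card Fˣ = q ^ f - 1 := by
    rw [← hF]
    exact Nat.card_units F
  have h2 : g ^ (q ^ n - 1) = 1 := by
    have h3 : g ^ (q ^ n) = g := by
      apply Units.ext
      rw [Units.val_pow_eq_pow_val]
      exact h g
    have h4 : 0 < q ^ n := by positivity
    have h5 : g ^ (q ^ n - 1) * g = g := by
      rw [← pow_succ, Nat.sub_add_cancel h4, h3]
    exact mul_eq_right.mp h5
  have h3 : q ^ f - 1 ∣ q ^ n - 1 := by
    rw [← h1, ← hg]
    exact orderOf_dvd_of_pow_eq_one h2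
  have h4 := Nat.pow_sub_one_gcd_pow_sub_one q f n
  rw [Nat.gcd_eq_left h3] at h4
  have h5 : q ^ f = q ^ (Nat.gcd f n) := by
    have e1 : 0 < q ^ f := by positivity
    have e2 : 0 < q ^ (Nat.gcd f n) := by positivity
    omega
  have h6 := Nat.pow_right_injective hq h5
  exact Nat.gcd_eq_left_iff_dvd.mp h6.symm

section ind

variable {K F L : Type} [Field K] [NumberField K] [Field F] [NumberField F] [Field L]
  [NumberField L] [Algebra K F] [Algebra F L] [Algebra K L] [IsScalarTower K F L] [IsGalois K L]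
  [IsGalois F L]

lemma fr_restrict (P : Ideal (𝓞 L)) (m : ℕ) (h : L ≃ₐ[F] L) :
    Fr P m (h.restrictScalars K : L ≃ₐ[K] L) ↔ Fr P m h := Iff.rfl

lemma two_le_norm {p : Ideal (𝓞 K)} (hp : p ≠ ⊥) [p.IsPrime] : 2 ≤ absNorm p := by
  have h1 : absNorm p ≠ 0 := fun h => hp (Ideal.absNorm_eq_zero_iff.mp h)
  have h2 : absNorm p ≠ 1 := fun h => ‹p.IsPrime›.ne_top (Ideal.absNorm_eq_one_iff.mp h)
  omega

/-- an element over `F` which induces `x ↦ x ^ (N(p)^n)`: the residue degree divides `n` -/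
lemma deg_dvd {p : Ideal (𝓞 K)} (hp : p ≠ ⊥) [p.IsPrime] {q : Ideal (𝓞 F)} [q.IsPrime]
    [q.LiesOver p] {P : Ideal (𝓞 L)} [P.IsPrime] [P.LiesOver q] {n : ℕ} (hn : 0 < n)
    {h : L ≃ₐ[F] L} (hh : Fr P (absNorm p ^ n) h) : q.inertiaDeg (𝓞 K) ∣ n := by
  have hq : q ≠ ⊥ := Ideal.ne_bot_of_liesOver_of_ne_bot hp q
  have hfin : Finite (𝓞 F ⧸ q) := Ideal.finiteQuotientOfFreeOfNeBot q hq
  have hmax : q.IsMaximal := Ideal.IsPrime.isMaximal ‹_› hq
  let _ : Field (𝓞 F ⧸ q) := Ideal.Quotient.field q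
  refine dvd_of_pow (F := 𝓞 F ⧸ q) (two_le_norm hp) hn ?_ ?_
  · rw [Ideal.absNorm_pow_inertiaDeg p q, Ideal.absNorm_apply, Submodule.cardQuot_apply]
  · intro x
    obtain ⟨y, rfl⟩ := Ideal.Quotient.mk_surjective x
    rw [← map_pow]
    symm
    rw [Ideal.Quotient.eq]
    have h1 := hh (algebraMap (𝓞 F) (𝓞 L) y)
    have h2 : h • algebraMap (𝓞 F) (𝓞 L) y = algebraMap (𝓞 F) (𝓞 L) y := by
      apply RingOfIntegers.ext
      exact h.commutes (y : F)
    rw [h2, ← map_pow, ← map_sub] at h1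
    rw [Ideal.LiesOver.over (p := q) (P := P)]
    exact h1

lemma frSum_ind [Fintype (L ≃ₐ[K] L)] [Fintype (L ≃ₐ[F] L)] (χ : (L ≃ₐ[F] L) → ℂ)
    {p : Ideal (𝓞 K)} (hp : p ≠ ⊥) [p.IsPrime] (m : ℕ) :
    (Nat.card (L ≃ₐ[F] L) : ℂ) * ∑ P ∈ (pr_finite L hp).toFinset, frSum (indChar K F L χ) P m
      = (Nat.card (L ≃ₐ[K] L) : ℂ) * ∑ P ∈ (pr_finite L hp).toFinset, frSum χ P m := by
  classical
  have hH : (Nat.card (L ≃ₐ[F] L) : ℂ) ≠ 0 := by exact_mod_cast Nat.card_pos.ne'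
  -- the sum for one prime
  have h1 : ∀ P : Ideal (𝓞 L), (Nat.card (L ≃ₐ[F] L) : ℂ) * frSum (indChar K F L χ) P m
      = ∑ x : L ≃ₐ[K] L, frSum χ (x⁻¹ • P) m := by
    intro P
    have h2 : ∀ g : L ≃ₐ[K] L, (if Fr P m g then indChar K F L χ g else 0)
        = (Nat.card (L ≃ₐ[F] L) : ℂ)⁻¹ * ∑ x : L ≃ₐ[K] L, ∑ h : L ≃ₐ[F] L,
          (if x * h.restrictScalars K * x⁻¹ = g then
            (if Fr (x⁻¹ • P) m h then χ h else 0) else 0) := by
      intro g
      have h3 : ∀ (x : L ≃ₐ[K] L) (h : L ≃ₐ[F] L), x * h.restrictScalars K * x⁻¹ = g →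
          (Fr (x⁻¹ • P) m h ↔ Fr P m g) := by
        intro x h hx
        rw [← fr_restrict (K := K), ← fr_conj _ m _ x, hx, smul_inv_smul]
      by_cases hg : Fr P m g
      · rw [if_pos hg, indChar, finsum_eq_sum_of_fintype]
        congr 1
        refine Finset.sum_congr rfl fun x _ => ?_
        rw [finsum_eq_sum_of_fintype]
        refine Finset.sum_congr rfl fun h _ => ?_
        by_cases hx : h.restrictScalars K = x⁻¹ * g * x
        · have hx' : x * h.restrictScalars K * x⁻¹ = g := by rw [hx]; group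
          rw [finsum_eq_single _ hx (fun h1 h2 => absurd rfl h2), if_pos hx',
            if_pos ((h3 x h hx').mpr hg)]
        · have : IsEmpty (h.restrictScalars K = x⁻¹ * g * x) := ⟨hx⟩
          rw [finsum_of_isEmpty, if_neg (fun h1 => hx (by rw [← h1]; group))]
      · rw [if_neg hg, Finset.sum_eq_zero, mul_zero]
        intro x _
        apply Finset.sum_eq_zero
        intro h _
        by_cases hx : x * h.restrictScalars K * x⁻¹ = g
        · rw [if_pos hx, if_neg (fun h4 => hg ((h3 x h hx).mp h4))]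
        · rw [if_neg hx]
    rw [frSum, Finset.sum_congr rfl (fun g _ => h2 g), ← Finset.mul_sum, ← mul_assoc,
      mul_inv_cancel₀ hH, one_mul, Finset.sum_comm]
    refine Finset.sum_congr rfl fun x _ => ?_
    rw [Finset.sum_comm, frSum]
    refine Finset.sum_congr rfl fun h _ => ?_
    rw [Finset.sum_ite_eq Finset.univ, if_pos (Finset.mem_univ _)]
  rw [Finset.mul_sum, Finset.sum_congr rfl (fun P _ => h1 P), Finset.sum_comm]
  have h3 : ∀ x : L ≃ₐ[K] L, ∑ P ∈ (pr_finite L hp).toFinset, frSum χ (x⁻¹ • P) m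
      = ∑ P ∈ (pr_finite L hp).toFinset, frSum χ P m := by
    intro x
    refine Finset.sum_bij (fun P _ => x⁻¹ • P) ?_ ?_ ?_ ?_
    · intro P hP
      rw [Set.Finite.mem_toFinset] at hP ⊢
      obtain ⟨e1, e2⟩ := hP
      exact ⟨inferInstance, inferInstance⟩
    · intro P _ Q _ h
      exact smul_left_cancel _ h
    · intro P hP
      rw [Set.Finite.mem_toFinset] at hP
      obtain ⟨e1, e2⟩ := hP
      refine ⟨x • P, ?_, inv_smul_smul x P⟩
      rw [Set.Finite.mem_toFinset]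
      exact ⟨inferInstance, inferInstance⟩
    · intro P _
      rfl
  rw [Finset.sum_congr rfl (fun x _ => h3 x), Finset.sum_const, Finset.card_univ, nsmul_eq_mul,
    ← Nat.card_eq_fintype_card]

/-- primes of `L` over `p` in terms of the primes of `F` -/
lemma sum_primes {p : Ideal (𝓞 K)} (hp : p ≠ ⊥) [p.IsPrime] (f : Ideal (𝓞 L) → ℂ) :
    ∑ P ∈ (pr_finite L hp).toFinset, f P
      = ∑ q ∈ (pr_finite F hp).toFinset, ∑ᶠ P ∈ q.primesOver (𝓞 L), f P := by
  classical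
  have h1 : ∀ P ∈ (pr_finite L hp).toFinset, P.under (𝓞 F) ∈ (pr_finite F hp).toFinset := by
    intro P hP
    rw [Set.Finite.mem_toFinset] at hP ⊢
    obtain ⟨e1, e2⟩ := hP
    have e3 : P.LiesOver (P.under (𝓞 F)) := ⟨rfl⟩
    exact ⟨inferInstance, LiesOver.tower_bot P (P.under (𝓞 F)) p⟩
  rw [← Finset.sum_fiberwise_of_maps_to h1]
  refine Finset.sum_congr rfl fun q hq => ?_
  rw [Set.Finite.mem_toFinset] at hq
  obtain ⟨e1, e2⟩ := hq
  have h2 : q.primesOver (𝓞 L)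
      = (((pr_finite L hp).toFinset.filter fun P => P.under (𝓞 F) = q : Finset (Ideal (𝓞 L))) :
        Set (Ideal (𝓞 L))) := by
    ext P
    rw [Finset.mem_coe, Finset.mem_filter, Set.Finite.mem_toFinset]
    constructor
    · rintro ⟨e3, e4⟩
      exact ⟨⟨e3, LiesOver.trans P q p⟩, (P.over_def q).symm⟩
    · rintro ⟨⟨e3, e4⟩, e5⟩
      exact ⟨e3, ⟨e5.symm⟩⟩
  rw [h2, finsum_mem_coe_finset]

/-- **induction** -/
theorem frobMean_ind {χ : (L ≃ₐ[F] L) → ℂ} {p : Ideal (𝓞 K)} (hp : p ≠ ⊥) [p.IsPrime] {n : ℕ}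
    (hn : 0 < n) :
    frobMean K L (indChar K F L χ) p n
      = ∑ q ∈ (pr_finite F hp).toFinset, if q.inertiaDeg (𝓞 K) ∣ n then
        (q.inertiaDeg (𝓞 K) : ℂ) * frobMean F L χ q (n / q.inertiaDeg (𝓞 K)) else 0 := by
  classical
  have hft : Fintype (L ≃ₐ[K] L) := Fintype.ofFinite _
  have hft' : Fintype (L ≃ₐ[F] L) := Fintype.ofFinite _
  have hH : (Nat.card (L ≃ₐ[F] L) : ℂ) ≠ 0 := by exact_mod_cast Nat.card_pos.ne'
  have hG : (Nat.card (L ≃ₐ[K] L) : ℂ) ≠ 0 := by exact_mod_cast Nat.card_pos.ne'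
  have h1 := frSum_ind (K := K) χ hp (absNorm p ^ n)
  rw [sum_primes (F := F) hp (fun P => frSum χ P (absNorm p ^ n))] at h1
  -- the sums over the primes of `F`
  have h2 : ∀ q ∈ (pr_finite F hp).toFinset,
      ∑ᶠ P ∈ q.primesOver (𝓞 L), frSum χ P (absNorm p ^ n)
        = ((p.primesOver (𝓞 L)).ncard * p.ramificationIdxIn (𝓞 L) : ℂ) *
          (Nat.card (L ≃ₐ[F] L) / Nat.card (L ≃ₐ[K] L)) * (if q.inertiaDeg (𝓞 K) ∣ n then
            (q.inertiaDeg (𝓞 K) : ℂ) * frobMean F L χ q (n / q.inertiaDeg (𝓞 K)) else 0) := by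
    intro q hq
    rw [Set.Finite.mem_toFinset] at hq
    obtain ⟨e1, e2⟩ := hq
    have hq0 : q ≠ ⊥ := Ideal.ne_bot_of_liesOver_of_ne_bot hp q
    have hfq : (pr_finite L hq0).toFinset = (pr_finite L hq0).toFinset := rfl
    rw [finsum_mem_eq_finite_toFinset_sum _ (pr_finite L hq0)]
    by_cases hd : q.inertiaDeg (𝓞 K) ∣ n
    · rw [if_pos hd]
      have h3 : absNorm p ^ n = absNorm q ^ (n / q.inertiaDeg (𝓞 K)) := by
        rw [← Ideal.absNorm_pow_inertiaDeg p q, ← pow_mul, Nat.mul_div_cancel' hd]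
      rw [h3, ← sum_frob hq0]
      have h4 : frobMean F L χ q (n / q.inertiaDeg (𝓞 K))
          = (∑ᶠ x ∈ frobSet F L q (n / q.inertiaDeg (𝓞 K)), χ x.2)
            / ((q.primesOver (𝓞 L)).ncard * q.ramificationIdxIn (𝓞 L) : ℂ) := by
        rw [frobMean, ncard_frob hq0]
        push_cast
        rfl
      rw [h4]
      -- counting
      have c1 := Ideal.ncard_primesOver_mul_ramificationIdxIn_mul_inertiaDegIn p (𝓞 L)
        (L ≃ₐ[K] L)
      have c2 := Ideal.ncard_primesOver_mul_ramificationIdxIn_mul_inertiaDegIn q (𝓞 L)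
        (L ≃ₐ[F] L)
      obtain ⟨P, hP1, hP2⟩ : (q.primesOver (𝓞 L)).Nonempty :=
        Set.nonempty_of_ncard_ne_zero (pr_ne (L := L) (K := F))
      have hP3 : P.LiesOver p := LiesOver.trans P q p
      have c3 : p.inertiaDegIn (𝓞 L) = q.inertiaDeg (𝓞 K) * q.inertiaDegIn (𝓞 L) := by
        rw [Ideal.inertiaDegIn_eq_inertiaDeg p P (L ≃ₐ[K] L),
          Ideal.inertiaDegIn_eq_inertiaDeg q P (L ≃ₐ[F] L)]
        exact Ideal.inertiaDeg_tower (R := 𝓞 K) (q := q) (r := P)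
      rw [c3] at c1
      have d1 : ((p.primesOver (𝓞 L)).ncard : ℂ) * (p.ramificationIdxIn (𝓞 L) *
          (q.inertiaDeg (𝓞 K) * q.inertiaDegIn (𝓞 L))) = Nat.card (L ≃ₐ[K] L) := by
        exact_mod_cast c1
      have d2 : ((q.primesOver (𝓞 L)).ncard : ℂ) * (q.ramificationIdxIn (𝓞 L) *
          q.inertiaDegIn (𝓞 L)) = Nat.card (L ≃ₐ[F] L) := by
        exact_mod_cast c2
      have n1 : ((p.primesOver (𝓞 L)).ncard : ℂ) ≠ 0 := by exact_mod_cast pr_ne
      have n2 : (p.ramificationIdxIn (𝓞 L) : ℂ) ≠ 0 := by exact_mod_cast ram_ne (K := K)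
      have n3 : ((q.primesOver (𝓞 L)).ncard : ℂ) ≠ 0 := by exact_mod_cast pr_ne
      have n4 : (q.ramificationIdxIn (𝓞 L) : ℂ) ≠ 0 := by exact_mod_cast ram_ne (K := F)
      have n5 : (q.inertiaDeg (𝓞 K) : ℂ) ≠ 0 := by
        intro h0
        rw [h0] at d1
        simp only [zero_mul, mul_zero] at d1
        exact hG d1.symm
      have n6 : (q.inertiaDegIn (𝓞 L) : ℂ) ≠ 0 := by
        intro h0
        rw [h0] at d1
        simp only [mul_zero] at d1
        exact hG d1.symm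
      rw [← d1, ← d2]
      field_simp
    · rw [if_neg hd, mul_zero]
      apply Finset.sum_eq_zero
      intro P hP
      rw [Set.Finite.mem_toFinset] at hP
      obtain ⟨hP1, hP2⟩ := hP
      rw [frSum]
      apply Finset.sum_eq_zero
      intro h _
      rw [if_neg]
      intro hh
      exact hd (deg_dvd hp (q := q) (P := P) hn hh)
  rw [Finset.sum_congr rfl h2, ← Finset.mul_sum] at h1
  rw [frobMean, sum_frob hp n, ncard_frob hp n]
  have n1 : ((p.primesOver (𝓞 L)).ncard : ℂ) ≠ 0 := by exact_mod_cast pr_ne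
  have n2 : (p.ramificationIdxIn (𝓞 L) : ℂ) ≠ 0 := by exact_mod_cast ram_ne (K := K)
  push_cast
  rw [div_eq_iff (mul_ne_zero n1 n2)]
  apply mul_left_cancel₀ hH
  rw [h1]
  field_simp

end ind

end Pool.Agent.K4H74.SC
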