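import Mathlib
import Pool.Agent.K4H74.SC.FrInd

/-!
# Artin L-series
-/

set_option autoImplicit false
set_option linter.unusedSectionVars false

namespace Pool.Agent.K4H74.SC

open NumberField Ideal Pool.Agent.K4H74.ST IsDedekindDomain
open scoped Pointwise Topology

section defs

variable (K L : Type) [Field K] [NumberField K] [Field L] [NumberField L] [Algebra K L]

/-- the term of `log L(s, χ)` which belongs to the power `p ^ n` of the prime `p` -/
noncomputable def logTerm (χ : (L ≃ₐ[K] L) → ℂ) (s : ℂ) (x : HeightOneSpectrum (𝓞 K) × ℕ+) : ℂ :=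
  frobMean K L χ x.1.asIdeal x.2 / ((x.2 : ℕ) * (absNorm x.1.asIdeal : ℂ) ^ (((x.2 : ℕ) : ℂ) * s))

end defs

section basic

variable {K L : Type} [Field K] [NumberField K] [Field L] [NumberField L] [Algebra K L]

lemma frobMean_add (χ χ' : (L ≃ₐ[K] L) → ℂ) {p : Ideal (𝓞 K)} (hp : p ≠ ⊥) [p.IsPrime] (n : ℕ) :
    frobMean K L (χ + χ') p n = frobMean K L χ p n + frobMean K L χ' p n := by
  classical
  have hft : Fintype (L ≃ₐ[K] L) := Fintype.ofFinite _
  rw [frobMean, frobMean, frobMean, ← add_div]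
  congr 1
  rw [sum_frobSet hp n (fun x => (χ + χ') x.2), sum_frobSet hp n (fun x => χ x.2),
    sum_frobSet hp n (fun x => χ' x.2), ← Finset.sum_add_distrib]
  refine Finset.sum_congr rfl fun P _ => ?_
  rw [← Finset.sum_add_distrib]
  refine Finset.sum_congr rfl fun g _ => ?_
  split_ifs
  · rfl
  · rw [add_zero]

lemma hasSum_add {χ χ' : (L ≃ₐ[K] L) → ℂ} {s l l' : ℂ} (h : HasSum (logTerm K L χ s) l)
    (h' : HasSum (logTerm K L χ' s) l') : HasSum (logTerm K L (χ + χ') s) (l + l') := by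
  have h1 := h.add h'
  have h2 : (fun x => logTerm K L χ s x + logTerm K L χ' s x) = logTerm K L (χ + χ') s := by
    funext x
    have := x.1.isPrime
    rw [logTerm, logTerm, logTerm, frobMean_add χ χ' x.1.ne_bot, add_div]
  rwa [h2] at h1

end basic

section infl

variable {K L N : Type} [Field K] [NumberField K] [Field L] [NumberField L] [Field N]
  [NumberField N] [Algebra K L] [Algebra L N] [Algebra K N] [IsScalarTower K L N] [IsGalois K L]
  [IsGalois K N]

lemma isChar_class {G : Type} [Group G] {χ : G → ℂ} (h : IsChar χ) (g x : G) :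
    χ (x * g * x⁻¹) = χ g := by
  obtain ⟨V, _, _, _, ρ, rfl⟩ := h
  exact Representation.char_conj ρ g x

/-- **inflation** -/
theorem logTerm_infl {χ : (L ≃ₐ[K] L) → ℂ} (hχ : IsChar χ) (s : ℂ) :
    logTerm K N (fun g => χ (AlgEquiv.restrictNormalHom L g)) s = logTerm K L χ s := by
  funext x
  have := x.1.isPrime
  rw [logTerm, logTerm, frobMean_infl (isChar_class hχ) x.1.ne_bot]

end infl

section ind

variable {K F L : Type} [Field K] [NumberField K] [Field F] [NumberField F] [Field L]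
  [NumberField L] [Algebra K F] [Algebra F L] [Algebra K L] [IsScalarTower K F L] [IsGalois K L]
  [IsGalois F L]

lemma deg_pos (q : Ideal (𝓞 F)) [q.IsPrime] : 0 < q.inertiaDeg (𝓞 K) :=
  Ideal.inertiaDeg_pos q (𝓞 K)

/-- the prime below -/
noncomputable def belowP (K : Type) [Field K] [NumberField K] [Algebra K F]
    (q : HeightOneSpectrum (𝓞 F)) : HeightOneSpectrum (𝓞 K) where
  asIdeal := q.asIdeal.under (𝓞 K)
  isPrime := by
    have := q.isPrime
    infer_instance
  ne_bot := mt Ideal.eq_bot_of_comap_eq_bot q.ne_bot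

/-- the map of the index sets -/
noncomputable def idx (K : Type) [Field K] [NumberField K] [Algebra K F]
    (x : HeightOneSpectrum (𝓞 F) × ℕ+) : HeightOneSpectrum (𝓞 K) × ℕ+ :=
  (belowP K x.1, ⟨x.1.asIdeal.inertiaDeg (𝓞 K) * x.2, by
    have := x.1.isPrime
    exact Nat.mul_pos (deg_pos x.1.asIdeal) x.2.2⟩)

/-- **induction** -/
theorem hasSum_ind {χ : (L ≃ₐ[F] L) → ℂ} {s l : ℂ} (hl1 : HasSum (logTerm F L χ s) l) :
    HasSum (logTerm K L (indChar K F L χ) s) l := by
  classical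
  let e := Equiv.sigmaFiberEquiv (idx (F := F) K)
  have h1 : HasSum (logTerm F L χ s ∘ e) l := (Equiv.hasSum_iff e).mpr hl1
  refine h1.sigma fun b => ?_
  -- the fibre
  obtain ⟨p, n⟩ := b
  have hpp := p.isPrime
  let D : Finset (Ideal (𝓞 F)) := (pr_finite F p.ne_bot).toFinset.filter
    fun q => q.inertiaDeg (𝓞 K) ∣ (n : ℕ)
  have hD : ∀ q ∈ D, q.IsPrime ∧ q.LiesOver p.asIdeal ∧ q ≠ ⊥ ∧ q.inertiaDeg (𝓞 K) ∣ (n : ℕ) := by
    intro q hq
    rw [Finset.mem_filter, Set.Finite.mem_toFinset] at hq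
    obtain ⟨⟨e1, e2⟩, e3⟩ := hq
    exact ⟨e1, e2, Ideal.ne_bot_of_liesOver_of_ne_bot p.ne_bot q, e3⟩
  let T : D ≃ {x // idx (F := F) K x = (p, n)} :=
    { toFun := fun q => ⟨(⟨q.1, (hD q.1 q.2).1, (hD q.1 q.2).2.2.1⟩,
        ⟨n / q.1.inertiaDeg (𝓞 K), by
          have := (hD q.1 q.2).1
          exact Nat.div_pos (Nat.le_of_dvd n.2 (hD q.1 q.2).2.2.2) (deg_pos q.1)⟩), by
          have h2 := (hD q.1 q.2).2.1
          refine Prod.ext ?_ ?_
          · apply HeightOneSpectrum.ext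
            exact (Ideal.over_def q.1 p.asIdeal).symm
          · apply PNat.eq
            exact Nat.mul_div_cancel' (hD q.1 q.2).2.2.2⟩
      invFun := fun x => ⟨x.1.1.asIdeal, by
          have hx1 := congrArg (fun y => y.1.asIdeal) x.2
          have hx2 := congrArg (fun y => (y.2 : ℕ)) x.2
          rw [Finset.mem_filter, Set.Finite.mem_toFinset]
          refine ⟨⟨x.1.1.isPrime, ⟨hx1.symm⟩⟩, ?_⟩
          exact ⟨x.1.2, hx2.symm⟩⟩
      left_inv := fun q => rfl
      right_inv := fun x => by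
          apply Subtype.ext
          refine Prod.ext rfl ?_
          apply PNat.eq
          have hx2 : x.1.1.asIdeal.inertiaDeg (𝓞 K) * (x.1.2 : ℕ) = n :=
            congrArg (fun y => (y.2 : ℕ)) x.2
          have := x.1.1.isPrime
          change (n : ℕ) / x.1.1.asIdeal.inertiaDeg (𝓞 K) = x.1.2
          rw [← hx2]
          exact Nat.mul_div_cancel_left _ (deg_pos _) }
  rw [← Equiv.hasSum_iff T]
  have h2 : logTerm K L (indChar K F L χ) s (p, n)
      = ∑ q : D, ((fun c => (logTerm F L χ s ∘ e) ⟨(p, n), c⟩) ∘ T) q := by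
    have h3 := frobMean_ind (K := K) (F := F) (L := L) (χ := χ) p.ne_bot (n := (n : ℕ)) n.pos
    change frobMean K L (indChar K F L χ) p.asIdeal (n : ℕ) / _ = _
    rw [h3, ← Finset.sum_filter]
    change (∑ q ∈ D, _) / _ = _
    rw [Finset.sum_div, ← Finset.sum_coe_sort]
    refine Finset.sum_congr rfl fun q _ => ?_
    obtain ⟨q, hq⟩ := q
    obtain ⟨e1, e2, e3, e4⟩ := hD q hq
    change ((q.inertiaDeg (𝓞 K) : ℂ) * frobMean F L χ q ((n : ℕ) / q.inertiaDeg (𝓞 K)))
      / ((n : ℕ) * (absNorm p.asIdeal : ℂ) ^ (((n : ℕ) : ℂ) * s))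
      = frobMean F L χ q ((n : ℕ) / q.inertiaDeg (𝓞 K)) / ((((n : ℕ) / q.inertiaDeg (𝓞 K) : ℕ) : ℂ) *
        (absNorm q : ℂ) ^ ((((n : ℕ) / q.inertiaDeg (𝓞 K) : ℕ) : ℂ) * s))
    obtain ⟨m, hm⟩ := e4
    have hd0 : q.inertiaDeg (𝓞 K) ≠ 0 := (deg_pos q).ne'
    have hm' : (n : ℕ) / q.inertiaDeg (𝓞 K) = m := by
      rw [hm]; exact Nat.mul_div_cancel_left _ (deg_pos q)
    have hm0 : (m : ℂ) ≠ 0 := by
      intro h0
      have : m = 0 := by exact_mod_cast h0
      rw [this, mul_zero] at hm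
      exact n.2.ne' hm
    rw [hm', hm]
    have h3 : (absNorm q : ℂ) ^ ((m : ℂ) * s)
        = (absNorm p.asIdeal : ℂ) ^ (((q.inertiaDeg (𝓞 K) * m : ℕ) : ℂ) * s) := by
      rw [← Ideal.absNorm_pow_inertiaDeg p.asIdeal q]
      push_cast
      rw [mul_assoc, Complex.natCast_cpow_natCast_mul]
    rw [h3]
    push_cast
    have hd1 : (q.inertiaDeg (𝓞 K) : ℂ) ≠ 0 := by exact_mod_cast hd0
    rw [mul_assoc, mul_div_mul_left _ _ hd1]
  rw [h2]
  exact hasSum_fintype _

end ind

end Pool.Agent.K4H74.SC
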