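import Mathlib

/-!
# Determinants are determined by the traces of the powers
-/

set_option autoImplicit false

namespace Pool.Agent.K4H74.SC

open Matrix

lemma exists_first (n : ℕ) (v : Fin (n + 1) → ℂ) (hv : v ≠ 0) :
    ∃ P : (Matrix (Fin (n + 1)) (Fin (n + 1)) ℂ)ˣ,
      (P : Matrix (Fin (n + 1)) (Fin (n + 1)) ℂ) *ᵥ (Pi.single 0 1) = v := by
  obtain ⟨j, hj⟩ := Function.ne_iff.mp hv
  have hj' : v j ≠ 0 := hj
  let Q : Matrix (Fin (n + 1)) (Fin (n + 1)) ℂ := (1 : Matrix _ _ ℂ).updateCol j v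
  have hQ : Q.det = v j := by
    change ((1 : Matrix _ _ ℂ).updateCol j v).det = v j
    rw [← Matrix.cramer_apply, Matrix.cramer_one]
    rfl
  let R : Matrix (Fin (n + 1)) (Fin (n + 1)) ℂ := Q.submatrix id (Equiv.swap 0 j)
  have hR : IsUnit R := by
    rw [Matrix.isUnit_iff_isUnit_det]
    have h1 : R.det = Equiv.Perm.sign (Equiv.swap 0 j) * Q.det := Matrix.det_permute' _ _
    rw [h1, hQ]
    refine IsUnit.mul ?_ (isUnit_iff_ne_zero.mpr hj')
    exact ((Equiv.Perm.sign (Equiv.swap 0 j)).isUnit).map (Int.castRingHom ℂ)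
  refine ⟨hR.unit, ?_⟩
  change R *ᵥ (Pi.single 0 1) = v
  rw [Matrix.mulVec_single_one]
  funext i
  change Q i (Equiv.swap 0 j 0) = v i
  rw [Equiv.swap_apply_left]
  exact Matrix.updateCol_self

lemma block_pow {n : ℕ} {B : Matrix (Fin (n + 1)) (Fin (n + 1)) ℂ} {μ : ℂ}
    (h0 : B 0 0 = μ) (h1 : ∀ i : Fin n, B i.succ 0 = 0) (k : ℕ) :
    (B ^ k) 0 0 = μ ^ k ∧ (∀ i : Fin n, (B ^ k) i.succ 0 = 0) ∧
      (B ^ k).submatrix Fin.succ Fin.succ = (B.submatrix Fin.succ Fin.succ) ^ k := by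
  induction k with
  | zero =>
    refine ⟨by simp, fun i => ?_, ?_⟩
    · rw [pow_zero, Matrix.one_apply_ne (Fin.succ_ne_zero i)]
    · ext i j
      simp [Matrix.one_apply]
  | succ k ih =>
    obtain ⟨ih1, ih2, ih3⟩ := ih
    refine ⟨?_, fun i => ?_, ?_⟩
    · rw [pow_succ, Matrix.mul_apply, Fin.sum_univ_succ, ih1, h0, pow_succ]
      simp [h1]
    · rw [pow_succ, Matrix.mul_apply, Fin.sum_univ_succ, ih2]
      simp [h1]
    · ext i j
      rw [Matrix.submatrix_apply, pow_succ, Matrix.mul_apply, Fin.sum_univ_succ, ih2, zero_mul,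
        zero_add, pow_succ, Matrix.mul_apply, ← ih3]
      rfl

/-- eigenvalues of a complex matrix -/
theorem exists_eig : ∀ (n : ℕ) (A : Matrix (Fin n) (Fin n) ℂ), ∃ s : Fin n → ℂ,
    A.det = ∏ i, s i ∧ ∀ k : ℕ, (A ^ k).trace = ∑ i, s i ^ k := by
  intro n
  induction n with
  | zero =>
    intro A
    exact ⟨fun i => i.elim0, by simp, fun k => by simp [Matrix.trace]⟩
  | succ n ih =>
    intro A
    obtain ⟨μ, hμ⟩ := Module.End.exists_eigenvalue (Matrix.toLin' A)
    obtain ⟨v, hv⟩ := hμ.exists_hasEigenvector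
    have hv0 : v ≠ 0 := hv.2
    have hAv : A *ᵥ v = μ • v := by
      have := hv.apply_eq_smul
      rwa [Matrix.toLin'_apply] at this
    obtain ⟨P, hP⟩ := exists_first n v hv0
    let B : Matrix (Fin (n + 1)) (Fin (n + 1)) ℂ := P.inv * A * P.val
    have hB : B *ᵥ (Pi.single 0 1) = μ • (Pi.single 0 1) := by
      change (P.inv * A * P.val) *ᵥ _ = _
      rw [← Matrix.mulVec_mulVec, hP, ← Matrix.mulVec_mulVec, hAv, Matrix.mulVec_smul, ← hP,
        Matrix.mulVec_mulVec, P.inv_val, Matrix.one_mulVec]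
    rw [Matrix.mulVec_single_one] at hB
    have h0 : B 0 0 = μ := by
      have := congrFun hB 0
      simpa using this
    have h1 : ∀ i : Fin n, B i.succ 0 = 0 := by
      intro i
      have := congrFun hB i.succ
      simpa using this
    obtain ⟨s, hs1, hs2⟩ := ih (B.submatrix Fin.succ Fin.succ)
    have hdet : A.det = B.det := by
      change A.det = (P.inv * A * P.val).det
      rw [Matrix.det_mul_right_comm, P.inv_val, one_mul]
    have htr : ∀ k, (A ^ k).trace = (B ^ k).trace := by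
      intro k
      have h2 : B ^ k = P.inv * A ^ k * P.val := Units.conj_pow' P A k
      rw [h2, Matrix.trace_mul_cycle, P.val_inv, one_mul]
    refine ⟨Fin.cons μ s, ?_, fun k => ?_⟩
    · rw [hdet, Matrix.det_succ_column_zero, Fin.sum_univ_succ, Finset.sum_eq_zero, h0,
        Fin.prod_univ_succ]
      · simp only [Fin.val_zero, pow_zero, one_mul, add_zero, Fin.cons_zero, Fin.cons_succ]
        rw [← hs1]
        rfl
      · intro i _
        rw [h1]
        simp
    · obtain ⟨e1, e2, e3⟩ := block_pow h0 h1 k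
      rw [htr, Matrix.trace, Fin.sum_univ_succ, Fin.sum_univ_succ, Matrix.diag_apply, e1]
      simp only [Fin.cons_zero, Fin.cons_succ]
      rw [← hs2 k, ← e3]
      rfl

/-- Newton: the product is determined by the power sums -/
theorem prod_of_psum {n : ℕ} (σ : ℂ →+* ℂ) (s s' : Fin n → ℂ)
    (h : ∀ k : ℕ, ∑ i, s' i ^ k = σ (∑ i, s i ^ k)) : ∏ i, s' i = σ (∏ i, s i) := by
  have key : ∀ k : ℕ, MvPolynomial.aeval s' (MvPolynomial.esymm (Fin n) ℂ k)
      = σ (MvPolynomial.aeval s (MvPolynomial.esymm (Fin n) ℂ k)) := by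
    intro k
    induction k using Nat.strong_induction_on with
    | _ k ih =>
      rcases Nat.eq_zero_or_pos k with rfl | hk
      · simp
      have hk' : (k : ℂ) ≠ 0 := by exact_mod_cast hk.ne'
      have hp : ∀ (t : Fin n → ℂ) (m : ℕ), MvPolynomial.aeval t (MvPolynomial.psum (Fin n) ℂ m)
          = ∑ i, t i ^ m := by
        intro t m
        simp [MvPolynomial.psum]
      have h1 := congrArg (MvPolynomial.aeval s') (MvPolynomial.mul_esymm_eq_sum (Fin n) ℂ k)
      have h2 := congrArg (fun x => σ (MvPolynomial.aeval s x))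
        (MvPolynomial.mul_esymm_eq_sum (Fin n) ℂ k)
      simp only [map_mul, map_sum, map_pow, map_neg, map_one, map_natCast, hp] at h1 h2
      apply mul_left_cancel₀ hk'
      rw [h1, h2]
      congr 1
      refine Finset.sum_congr rfl fun a ha => ?_
      rw [Finset.mem_filter] at ha
      rw [ih a.1 ha.2, h a.2, map_sum]
      simp only [map_pow]
  have h3 := key n
  have h4 : ∀ t : Fin n → ℂ, MvPolynomial.aeval t (MvPolynomial.esymm (Fin n) ℂ n) = ∏ i, t i := by
    intro t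
    rw [MvPolynomial.esymm]
    have h5 : Finset.powersetCard n (Finset.univ : Finset (Fin n)) = {Finset.univ} := by
      have := Finset.powersetCard_self (Finset.univ : Finset (Fin n))
      rwa [Finset.card_univ, Fintype.card_fin] at this
    rw [h5]
    simp
  rwa [h4, h4] at h3

open LinearMap in
/-- the determinant is determined by the traces of the powers -/
theorem det_of_trace {V V' : Type*} [AddCommGroup V] [Module ℂ V] [FiniteDimensional ℂ V]
    [AddCommGroup V'] [Module ℂ V'] [FiniteDimensional ℂ V'] (σ : ℂ →+* ℂ) (T : V →ₗ[ℂ] V)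
    (T' : V' →ₗ[ℂ] V') (h : ∀ k : ℕ, LinearMap.trace ℂ V' (T' ^ k) = σ (LinearMap.trace ℂ V (T ^ k))) :
    LinearMap.det T' = σ (LinearMap.det T) := by
  have h0 := h 0
  rw [pow_zero, pow_zero, Module.End.one_eq_id, Module.End.one_eq_id, LinearMap.trace_id,
    LinearMap.trace_id, map_natCast] at h0
  have hn : Module.finrank ℂ V' = Module.finrank ℂ V := by exact_mod_cast h0
  let b := Module.finBasis ℂ V
  let b' := (Module.finBasis ℂ V').reindex (finCongr hn)
  obtain ⟨s, hs1, hs2⟩ := exists_eig _ (LinearMap.toMatrix b b T)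
  obtain ⟨s', hs1', hs2'⟩ := exists_eig _ (LinearMap.toMatrix b' b' T')
  rw [← LinearMap.det_toMatrix b, ← LinearMap.det_toMatrix b', hs1, hs1']
  apply prod_of_psum
  intro k
  rw [← hs2, ← hs2']
  have h5 : ∀ k, (LinearMap.toMatrix b b T ^ k) = LinearMap.toMatrix b b (T ^ k) := fun k =>
    (map_pow (LinearMap.toMatrixAlgEquiv b) T k).symm
  have h6 : ∀ k, (LinearMap.toMatrix b' b' T' ^ k) = LinearMap.toMatrix b' b' (T' ^ k) := fun k =>
    (map_pow (LinearMap.toMatrixAlgEquiv b') T' k).symm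
  rw [h5, h6, ← LinearMap.trace_eq_matrix_trace, ← LinearMap.trace_eq_matrix_trace]
  exact h k

/-- additivity -/
theorem det_of_trace_add {V V₁ V₂ : Type*} [AddCommGroup V] [Module ℂ V] [FiniteDimensional ℂ V]
    [AddCommGroup V₁] [Module ℂ V₁] [FiniteDimensional ℂ V₁]
    [AddCommGroup V₂] [Module ℂ V₂] [FiniteDimensional ℂ V₂] (T : V →ₗ[ℂ] V)
    (T₁ : V₁ →ₗ[ℂ] V₁) (T₂ : V₂ →ₗ[ℂ] V₂)
    (h : ∀ k : ℕ, LinearMap.trace ℂ V (T ^ k)
      = LinearMap.trace ℂ V₁ (T₁ ^ k) + LinearMap.trace ℂ V₂ (T₂ ^ k)) :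
    LinearMap.det T = LinearMap.det T₁ * LinearMap.det T₂ := by
  rw [← LinearMap.det_prodMap]
  refine det_of_trace (RingHom.id ℂ) _ _ fun k => ?_
  have h1 : (T₁.prodMap T₂) ^ k = (T₁ ^ k).prodMap (T₂ ^ k) := by
    induction k with
    | zero => rfl
    | succ k ih => rw [pow_succ, ih, pow_succ, pow_succ]; rfl
  rw [h1, LinearMap.trace_prodMap', h k]
  rfl

end Pool.Agent.K4H74.SC
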