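import Mathlib
import Pool.Agent.K4H74.SC.Newt

/-!
# Determinants on spaces of homomorphisms
-/

set_option autoImplicit false
set_option linter.unusedSectionVars false

namespace Pool.Agent.K4H74.SC

open scoped TensorProduct

variable {G : Type} [Group G] {V : Type} [AddCommGroup V] [Module ℂ V]
  {W : Type} [AddCommGroup W] [Module ℂ W]

lemma homG_zero (ρ : Representation ℂ G V) (τ : Representation ℂ G W) :
    ∀ g v, (0 : V →ₗ[ℂ] W) (ρ g v) = τ g ((0 : V →ₗ[ℂ] W) v) := fun g v => by simp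

lemma homG_add (ρ : Representation ℂ G V) (τ : Representation ℂ G W) {a b : V →ₗ[ℂ] W}
    (ha : ∀ g v, a (ρ g v) = τ g (a v)) (hb : ∀ g v, b (ρ g v) = τ g (b v)) :
    ∀ g v, (a + b) (ρ g v) = τ g ((a + b) v) := by
  intro g v
  rw [LinearMap.add_apply, LinearMap.add_apply, ha g v, hb g v, map_add]

lemma homG_smul (ρ : Representation ℂ G V) (τ : Representation ℂ G W) (c : ℂ) {a : V →ₗ[ℂ] W}
    (ha : ∀ g v, a (ρ g v) = τ g (a v)) : ∀ g v, (c • a) (ρ g v) = τ g ((c • a) v) := by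
  intro g v
  rw [LinearMap.smul_apply, LinearMap.smul_apply, ha g v, map_smul]

/-- The space `Hom_G(V, W)` of the `G`-equivariant linear maps. -/
def HomG (ρ : Representation ℂ G V) (τ : Representation ℂ G W) : Submodule ℂ (V →ₗ[ℂ] W) where
  carrier := {f | ∀ g v, f (ρ g v) = τ g (f v)}
  zero_mem' := homG_zero ρ τ
  add_mem' := homG_add ρ τ
  smul_mem' c _ ha := homG_smul ρ τ c ha

lemma homMap_mem (ρ : Representation ℂ G V) (τ : Representation ℂ G W) (Λ : W →ₗ[ℂ] W)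
    (hΛ : ∀ g w, Λ (τ g w) = τ g (Λ w)) (f : HomG ρ τ) : Λ ∘ₗ f.1 ∈ HomG ρ τ := fun g v => by
  rw [LinearMap.comp_apply, LinearMap.comp_apply, f.2 g v, hΛ]

lemma homMap_add (ρ : Representation ℂ G V) (τ : Representation ℂ G W) (Λ : W →ₗ[ℂ] W)
    (hΛ : ∀ g w, Λ (τ g w) = τ g (Λ w)) (a b : HomG ρ τ) :
    (⟨Λ ∘ₗ (a + b).1, homMap_mem ρ τ Λ hΛ (a + b)⟩ : HomG ρ τ)
      = ⟨Λ ∘ₗ a.1, homMap_mem ρ τ Λ hΛ a⟩ + ⟨Λ ∘ₗ b.1, homMap_mem ρ τ Λ hΛ b⟩ := by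
  apply Subtype.ext
  exact LinearMap.comp_add _ _ _

lemma homMap_smul (ρ : Representation ℂ G V) (τ : Representation ℂ G W) (Λ : W →ₗ[ℂ] W)
    (hΛ : ∀ g w, Λ (τ g w) = τ g (Λ w)) (c : ℂ) (a : HomG ρ τ) :
    (⟨Λ ∘ₗ (c • a).1, homMap_mem ρ τ Λ hΛ (c • a)⟩ : HomG ρ τ)
      = c • ⟨Λ ∘ₗ a.1, homMap_mem ρ τ Λ hΛ a⟩ := by
  apply Subtype.ext
  exact LinearMap.comp_smul _ _ _

/-- the endomorphism `f ↦ Λ ∘ f` of `Hom_G(V, W)`, for an endomorphism `Λ` of the `G`-module `W` -/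
def homMap (ρ : Representation ℂ G V) (τ : Representation ℂ G W) (Λ : W →ₗ[ℂ] W)
    (hΛ : ∀ g w, Λ (τ g w) = τ g (Λ w)) : HomG ρ τ →ₗ[ℂ] HomG ρ τ where
  toFun f := ⟨Λ ∘ₗ f.1, homMap_mem ρ τ Λ hΛ f⟩
  map_add' := homMap_add ρ τ Λ hΛ
  map_smul' := homMap_smul ρ τ Λ hΛ

lemma homMap_mul (ρ : Representation ℂ G V) (τ : Representation ℂ G W) (Λ Λ' : W →ₗ[ℂ] W)
    (hΛ : ∀ g w, Λ (τ g w) = τ g (Λ w)) (hΛ' : ∀ g w, Λ' (τ g w) = τ g (Λ' w))
    (h : ∀ g w, (Λ * Λ') (τ g w) = τ g ((Λ * Λ') w)) :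
    homMap ρ τ (Λ * Λ') h = homMap ρ τ Λ hΛ * homMap ρ τ Λ' hΛ' := rfl

lemma comm_pow {τ : Representation ℂ G W} {Λ : W →ₗ[ℂ] W}
    (hΛ : ∀ g w, Λ (τ g w) = τ g (Λ w)) (k : ℕ) : ∀ g w, (Λ ^ k) (τ g w) = τ g ((Λ ^ k) w) := by
  induction k with
  | zero => intro g w; rfl
  | succ k ih =>
    intro g w
    rw [pow_succ, Module.End.mul_apply, Module.End.mul_apply, hΛ, ih]

lemma homMap_pow (ρ : Representation ℂ G V) (τ : Representation ℂ G W) (Λ : W →ₗ[ℂ] W)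
    (hΛ : ∀ g w, Λ (τ g w) = τ g (Λ w)) (k : ℕ) :
    (homMap ρ τ Λ hΛ) ^ k = homMap ρ τ (Λ ^ k) (comm_pow hΛ k) := by
  induction k with
  | zero => rfl
  | succ k ih => rw [pow_succ, ih]; rfl

/-- the determinant of `f ↦ Λ ∘ f` on `Hom_G(V, W)` -/
noncomputable def homDet (ρ : Representation ℂ G V) (τ : Representation ℂ G W) (Λ : W →ₗ[ℂ] W)
    (hΛ : ∀ g w, Λ (τ g w) = τ g (Λ w)) : ℂ := LinearMap.det (homMap ρ τ Λ hΛ)

/-- the determinant of an operator with given traces of the powers -/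
def DetOf (t : ℕ → ℂ) (r : ℂ) : Prop :=
  ∃ (V : Type) (_ : AddCommGroup V) (_ : Module ℂ V) (_ : FiniteDimensional ℂ V)
    (T : V →ₗ[ℂ] V), (∀ k, LinearMap.trace ℂ V (T ^ k) = t k) ∧ r = LinearMap.det T

lemma DetOf.sigma {t t' : ℕ → ℂ} {r r' : ℂ} (h : DetOf t r) (h' : DetOf t' r') (σ : ℂ →+* ℂ)
    (ht : ∀ k, t' k = σ (t k)) : r' = σ r := by
  obtain ⟨V, _, _, _, T, hT, rfl⟩ := h
  obtain ⟨V', _, _, _, T', hT', rfl⟩ := h'
  exact det_of_trace σ T T' fun k => by rw [hT', hT, ht]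

lemma DetOf.unique {t : ℕ → ℂ} {r r' : ℂ} (h : DetOf t r) (h' : DetOf t r') : r' = r :=
  h.sigma h' (RingHom.id ℂ) fun _ => rfl

lemma DetOf.add {t t₁ t₂ : ℕ → ℂ} {r r₁ r₂ : ℂ} (h : DetOf t r) (h₁ : DetOf t₁ r₁)
    (h₂ : DetOf t₂ r₂) (ht : ∀ k, t k = t₁ k + t₂ k) : r = r₁ * r₂ := by
  obtain ⟨V, _, _, _, T, hT, rfl⟩ := h
  obtain ⟨V₁, _, _, _, T₁, hT₁, rfl⟩ := h₁
  obtain ⟨V₂, _, _, _, T₂, hT₂, rfl⟩ := h₂
  exact det_of_trace_add T T₁ T₂ fun k => by rw [hT, hT₁, hT₂, ht]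

section trace

variable [FiniteDimensional ℂ V] [FiniteDimensional ℂ W]

/-- `f ↦ A ∘ f ∘ B` -/
def bothc (A : W →ₗ[ℂ] W) (B : V →ₗ[ℂ] V) : (V →ₗ[ℂ] W) →ₗ[ℂ] (V →ₗ[ℂ] W) where
  toFun f := A ∘ₗ f ∘ₗ B
  map_add' a b := by
    rw [LinearMap.add_comp, LinearMap.comp_add]
  map_smul' c a := by
    rw [LinearMap.smul_comp, LinearMap.comp_smul]
    rfl

lemma trace_bothc (A : W →ₗ[ℂ] W) (B : V →ₗ[ℂ] V) :
    LinearMap.trace ℂ _ (bothc A B) = LinearMap.trace ℂ W A * LinearMap.trace ℂ V B := by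
  let e : Module.Dual ℂ V ⊗[ℂ] W ≃ₗ[ℂ] (V →ₗ[ℂ] W) := dualTensorHomEquiv ℂ V W
  have h1 : bothc A B = e.conj (TensorProduct.map (Module.Dual.transpose (R := ℂ) B) A) := by
    rw [LinearEquiv.conj_apply]
    apply LinearMap.ext
    intro f
    obtain ⟨x, rfl⟩ := e.surjective f
    rw [LinearMap.comp_apply, LinearMap.comp_apply, LinearEquiv.coe_coe, LinearEquiv.coe_coe,
      LinearEquiv.symm_apply_apply]
    have h2 : (bothc A B) ∘ₗ e.toLinearMap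
        = e.toLinearMap ∘ₗ (TensorProduct.map (Module.Dual.transpose (R := ℂ) B) A) := by
      apply TensorProduct.ext'
      intro φ w
      apply LinearMap.ext
      intro v
      have he : ∀ t, e t = dualTensorHom ℂ V W t := fun t => rfl
      change A ((e (φ ⊗ₜ[ℂ] w)) (B v)) = (e (Module.Dual.transpose (R := ℂ) B φ ⊗ₜ[ℂ] A w)) v
      rw [he, he, dualTensorHom_apply, dualTensorHom_apply, map_smul]
      rfl
    exact LinearMap.congr_fun h2 x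
  rw [h1, LinearMap.trace_conj', LinearMap.trace_tensorProduct', LinearMap.trace_transpose',
    mul_comm]

variable [Finite G]

/-- **the trace of `f ↦ Λ ∘ f` on `Hom_G(V, W)`** -/
theorem trace_homMap (ρ : Representation ℂ G V) (τ : Representation ℂ G W) (Λ : W →ₗ[ℂ] W)
    (hΛ : ∀ g w, Λ (τ g w) = τ g (Λ w)) :
    LinearMap.trace ℂ _ (homMap ρ τ Λ hΛ)
      = (Nat.card G : ℂ)⁻¹ * ∑ᶠ g : G, ρ.character g⁻¹ * LinearMap.trace ℂ W (τ g ∘ₗ Λ) := by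
  have : Fintype G := Fintype.ofFinite G
  have hc : (Nat.card G : ℂ) ≠ 0 := by exact_mod_cast Nat.card_pos.ne'
  let E : (V →ₗ[ℂ] W) →ₗ[ℂ] (V →ₗ[ℂ] W) :=
    (Nat.card G : ℂ)⁻¹ • ∑ g : G, bothc (τ g ∘ₗ Λ) (ρ g⁻¹)
  have hE : ∀ (f : V →ₗ[ℂ] W) (v : V), E f v = (Nat.card G : ℂ)⁻¹ • ∑ g : G, τ g (Λ (f (ρ g⁻¹ v))) := by
    intro f v
    simp only [E, LinearMap.smul_apply, LinearMap.sum_apply]
    rfl
  have h1 : ∀ f, E f ∈ HomG ρ τ := by
    intro f h v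
    rw [hE, hE, map_smul, map_sum]
    congr 1
    rw [← Equiv.sum_comp (Equiv.mulLeft h)]
    refine Finset.sum_congr rfl fun g _ => ?_
    change τ (h * g) (Λ (f (ρ (h * g)⁻¹ (ρ h v)))) = _
    rw [mul_inv_rev, map_mul, map_mul, Module.End.mul_apply, Module.End.mul_apply]
    have h2 : ρ h⁻¹ (ρ h v) = v := by
      rw [← Module.End.mul_apply, ← map_mul, inv_mul_cancel, map_one, Module.End.one_apply]
    rw [h2]
  have h2 : E.restrict (fun x (_ : x ∈ HomG ρ τ) => h1 x) = homMap ρ τ Λ hΛ := by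
    apply LinearMap.ext
    intro f
    apply Subtype.ext
    apply LinearMap.ext
    intro v
    change E f.1 v = Λ (f.1 v)
    rw [hE]
    have h3 : ∀ g : G, τ g (Λ (f.1 (ρ g⁻¹ v))) = Λ (f.1 v) := by
      intro g
      rw [f.2, hΛ, ← Module.End.mul_apply, ← map_mul, mul_inv_cancel, map_one,
        Module.End.one_apply]
    rw [Finset.sum_congr rfl (fun g _ => h3 g), Finset.sum_const, Finset.card_univ,
      ← Nat.card_eq_fintype_card, ← Nat.cast_smul_eq_nsmul ℂ, smul_smul, inv_mul_cancel₀ hc,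
      one_smul]
  rw [← h2, LinearMap.trace_restrict_eq_of_forall_mem (HomG ρ τ) E h1 (fun x _ => h1 x),
    finsum_eq_sum_of_fintype]
  simp only [E, map_smul, map_sum, smul_eq_mul, trace_bothc]
  congr 1
  refine Finset.sum_congr rfl fun g _ => ?_
  rw [mul_comm]
  rfl

/-- the traces of the powers of `f ↦ Λ ∘ f` on `Hom_G(V, W)` when the dual of `V` has the
character `χ` -/
theorem trace_homMap_pow {χ : G → ℂ} {ρ : Representation ℂ G V}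
    (hρ : ∀ g, ρ.character g = χ g⁻¹) (τ : Representation ℂ G W) (Λ : W →ₗ[ℂ] W)
    (hΛ : ∀ g w, Λ (τ g w) = τ g (Λ w)) (k : ℕ) :
    LinearMap.trace ℂ _ ((homMap ρ τ Λ hΛ) ^ k)
      = (Nat.card G : ℂ)⁻¹ * ∑ᶠ g : G, χ g * LinearMap.trace ℂ W (τ g ∘ₗ (Λ ^ k)) := by
  rw [homMap_pow, trace_homMap]
  congr 1
  refine finsum_congr fun g => ?_
  rw [hρ, inv_inv]

/-- the determinant is a unit -/
theorem det_homMap_ne (ρ : Representation ℂ G V) (τ : Representation ℂ G W) (Λ : W →ₗ[ℂ] W)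
    (hΛ : ∀ g w, Λ (τ g w) = τ g (Λ w)) (hinj : Function.Injective Λ) :
    LinearMap.det (homMap ρ τ Λ hΛ) ≠ 0 := by
  intro h
  have h1 : Function.Injective (homMap ρ τ Λ hΛ) := by
    intro a b hab
    apply Subtype.ext
    apply LinearMap.ext
    intro v
    apply hinj
    exact LinearMap.congr_fun (congrArg Subtype.val hab) v
  have h2 := LinearMap.bot_lt_ker_of_det_eq_zero h
  rw [LinearMap.ker_eq_bot.mpr h1] at h2
  exact lt_irrefl _ h2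

/-- the determinant in terms of traces -/
theorem detOf_homDet {χ : G → ℂ} {ρ : Representation ℂ G V}
    (hρ : ∀ g, ρ.character g = χ g⁻¹) (τ : Representation ℂ G W) (Λ : W →ₗ[ℂ] W)
    (hΛ : ∀ g w, Λ (τ g w) = τ g (Λ w)) :
    DetOf (fun k => (Nat.card G : ℂ)⁻¹ * ∑ᶠ g : G, χ g * LinearMap.trace ℂ W (τ g ∘ₗ (Λ ^ k)))
      (homDet ρ τ Λ hΛ) :=
  ⟨HomG ρ τ, inferInstance, inferInstance, inferInstance,
    homMap ρ τ Λ hΛ, fun k => trace_homMap_pow hρ _ _ _ k, rfl⟩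

lemma homDet_comp (ρ : Representation ℂ G V) (τ : Representation ℂ G W) (Λ B Λ' : W →ₗ[ℂ] W)
    (hΛ : ∀ g w, Λ (τ g w) = τ g (Λ w)) (hB : ∀ g w, B (τ g w) = τ g (B w))
    (hΛ' : ∀ g w, Λ' (τ g w) = τ g (Λ' w)) (h : Λ' = Λ ∘ₗ B) :
    homDet ρ τ Λ' hΛ' = homDet ρ τ Λ hΛ * homDet ρ τ B hB := by
  rw [homDet, homDet, homDet, ← LinearMap.det_comp]
  congr 1
  apply LinearMap.ext
  intro f
  apply Subtype.ext
  change Λ' ∘ₗ f.1 = Λ ∘ₗ (B ∘ₗ f.1)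
  rw [h, LinearMap.comp_assoc]

end trace

/-- the determinant in another model of `Hom_G(V, W)` -/
theorem homDet_eq (ρ : Representation ℂ G V) (τ : Representation ℂ G W) (Λ : W →ₗ[ℂ] W)
    (hΛ : ∀ g w, Λ (τ g w) = τ g (Λ w)) {W' : Type*} [AddCommGroup W'] [Module ℂ W']
    (F : W' →ₗ[ℂ] (V →ₗ[ℂ] W)) (hF : Function.Injective F)
    (hmem : ∀ x g v, F x (ρ g v) = τ g (F x v))
    (hsurj : ∀ f : V →ₗ[ℂ] W, (∀ g v, f (ρ g v) = τ g (f v)) → ∃ x, F x = f)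
    (T : W' →ₗ[ℂ] W') (hT : ∀ x, F (T x) = Λ ∘ₗ F x) :
    homDet ρ τ Λ hΛ = LinearMap.det T := by
  let e : W' ≃ₗ[ℂ] HomG ρ τ := LinearEquiv.ofBijective
    (F.codRestrict (HomG ρ τ) (fun x => hmem x))
    ⟨fun x y h => hF (congrArg Subtype.val h), fun f => by
      obtain ⟨x, hx⟩ := hsurj f.1 f.2
      exact ⟨x, Subtype.ext hx⟩⟩
  have h : homMap ρ τ Λ hΛ = e.conj T := by
    apply LinearMap.ext
    intro f
    obtain ⟨x, rfl⟩ := e.surjective f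
    rw [LinearEquiv.conj_apply]
    simp only [LinearMap.comp_apply, LinearEquiv.coe_coe, LinearEquiv.symm_apply_apply]
    apply Subtype.ext
    exact (hT x).symm
  rw [homDet, h]
  exact LinearMap.det_conj T e

/-- traces and subspaces -/
theorem trace_transfer {W W' : Type*} [AddCommGroup W] [Module ℂ W] [FiniteDimensional ℂ W]
    [AddCommGroup W'] [Module ℂ W'] [FiniteDimensional ℂ W'] (i : W' →ₗ[ℂ] W)
    (hi : Function.Injective i) (A : W →ₗ[ℂ] W) (B : W' →ₗ[ℂ] W') (c : ℂ)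
    (h1 : ∀ a, A (i a) = c • i (B a)) (h2 : ∀ a, ∃ b, i b = A a) :
    LinearMap.trace ℂ W A = c * LinearMap.trace ℂ W' B := by
  let p : Submodule ℂ W := LinearMap.range i
  have hp : ∀ a, A a ∈ p := fun a => h2 a
  rw [← LinearMap.trace_restrict_eq_of_forall_mem p A hp (fun a _ => hp a)]
  let e : W' ≃ₗ[ℂ] p := LinearEquiv.ofInjective i hi
  have h3 : A.restrict (fun a (_ : a ∈ p) => hp a) = e.conj (c • B) := by
    apply LinearMap.ext
    intro y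
    obtain ⟨a, rfl⟩ := e.surjective y
    rw [LinearEquiv.conj_apply]
    simp only [LinearMap.comp_apply, LinearEquiv.coe_coe, LinearEquiv.symm_apply_apply]
    apply Subtype.ext
    change A (i a) = i (c • B a)
    rw [h1, map_smul]
  rw [h3, LinearMap.trace_conj', map_smul, smul_eq_mul]

end Pool.Agent.K4H74.SC
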