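import Mathlib
import Pool.Agent.K4H74.SC.Hom

/-!
# The modules `X` and the units; the regulator map of Stark's conjecture (`S` = infinite places)
-/

set_option autoImplicit false
set_option linter.unusedSectionVars false

namespace Pool.Agent.K4H74.SC

open NumberField
open scoped TensorProduct

section defs

variable (L : Type) [Field L] [NumberField L]

lemma XX_add {k : Type} [Field k] {a b : InfinitePlace L → k} (ha : ∑ w, a w = 0)
    (hb : ∑ w, b w = 0) : ∑ w, (a + b) w = 0 := by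
  simp only [Pi.add_apply, Finset.sum_add_distrib]
  rw [ha, hb, add_zero]

lemma XX_zero {k : Type} [Field k] : ∑ w, (0 : InfinitePlace L → k) w = 0 := by simp

lemma XX_smul {k : Type} [Field k] (c : k) {a : InfinitePlace L → k} (ha : ∑ w, a w = 0) :
    ∑ w, (c • a) w = 0 := by
  simp only [Pi.smul_apply, smul_eq_mul, ← Finset.mul_sum]
  rw [ha, mul_zero]

/-- `k ⊗ X`, where `X` is the group of the divisors of degree zero on the infinite places of `L`:
the functions on the infinite places, with values in `k`, with sum zero. -/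
def XX (k : Type) [Field k] : Submodule k (InfinitePlace L → k) where
  carrier := {a | ∑ w, a w = 0}
  zero_mem' := XX_zero L
  add_mem' := XX_add L
  smul_mem' c _ ha := XX_smul L c ha

lemma toC_mem (x : XX L ℚ) : ∑ w, ((x.1 w : ℚ) : ℂ) = 0 := by
  rw [← Rat.cast_sum, x.2, Rat.cast_zero]

/-- the inclusion of `ℚ ⊗ X` in `ℂ ⊗ X` -/
def toC (x : XX L ℚ) : XX L ℂ := ⟨fun w => ((x.1 w : ℚ) : ℂ), toC_mem L x⟩

/-- the vector `(- log |u|_w)_w`, with the normalised absolute values -/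
noncomputable def logFun (u : Additive (𝓞 L)ˣ) (w : InfinitePlace L) : ℂ :=
  ((-((w.mult : ℝ) * Real.log (w ((u.toMul : 𝓞 L) : L))) : ℝ) : ℂ)

lemma logFun_zero : logFun L 0 = 0 := by
  funext w
  simp [logFun]

lemma logFun_add (u v : Additive (𝓞 L)ˣ) : logFun L (u + v) = logFun L u + logFun L v := by
  funext w
  have hu : w ((u.toMul : 𝓞 L) : L) ≠ 0 := by simp
  have hv : w ((v.toMul : 𝓞 L) : L) ≠ 0 := by simp
  simp only [logFun, toMul_add, Units.val_mul, map_mul, Pi.add_apply]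
  rw [Real.log_mul hu hv]
  push_cast
  ring

/-- the map `λ` on the units -/
noncomputable def logVec : Additive (𝓞 L)ˣ →ₗ[ℤ] (InfinitePlace L → ℂ) :=
  AddMonoidHom.toIntLinearMap
    { toFun := logFun L
      map_zero' := logFun_zero L
      map_add' := logFun_add L }

/-- the map `λ` on `ℚ ⊗ (units of L)` -/
noncomputable def lamQ : (ℚ ⊗[ℤ] Additive (𝓞 L)ˣ) →ₗ[ℚ] (InfinitePlace L → ℂ) :=
  (TensorProduct.isBaseChange ℤ (Additive (𝓞 L)ˣ) ℚ).lift (logVec L)

end defs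

section defs2

variable (K L : Type) [Field K] [NumberField K] [Field L] [NumberField L] [Algebra K L]

variable {K L} in
lemma XRep_mem {k : Type} [Field k] (g : L ≃ₐ[K] L) (a : XX L k) :
    ∑ w, a.1 (g⁻¹ • w) = 0 := by
  rw [← a.2]
  exact Equiv.sum_comp (MulAction.toPerm g⁻¹) a.1

variable {K L} in
/-- the action of an element of `Gal(L/K)` on `k ⊗ X` -/
def XAct (k : Type) [Field k] (g : L ≃ₐ[K] L) : XX L k →ₗ[k] XX L k where
  toFun a := ⟨fun w => a.1 (g⁻¹ • w), XRep_mem g a⟩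
  map_add' _ _ := rfl
  map_smul' _ _ := rfl

lemma XAct_one (k : Type) [Field k] : XAct k (1 : L ≃ₐ[K] L) = 1 := by
  apply LinearMap.ext
  intro a
  apply Subtype.ext
  funext w
  change a.1 ((1 : L ≃ₐ[K] L)⁻¹ • w) = a.1 w
  rw [inv_one, one_smul]

lemma XAct_mul (k : Type) [Field k] (g h : L ≃ₐ[K] L) : XAct k (g * h) = XAct k g * XAct k h := by
  apply LinearMap.ext
  intro a
  apply Subtype.ext
  funext w
  change a.1 ((g * h)⁻¹ • w) = a.1 (h⁻¹ • (g⁻¹ • w))
  rw [mul_inv_rev, mul_smul]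

/-- the action of `Gal(L/K)` on `k ⊗ X` -/
def XRep (k : Type) [Field k] : Representation k (L ≃ₐ[K] L) (XX L k) where
  toFun := XAct k
  map_one' := XAct_one K L k
  map_mul' := XAct_mul K L k

/-- the action of `Gal(L/K)` on the units of `L` -/
noncomputable def uMap (g : L ≃ₐ[K] L) : Additive (𝓞 L)ˣ →ₗ[ℤ] Additive (𝓞 L)ˣ :=
  AddMonoidHom.toIntLinearMap
    (MonoidHom.toAdditive (Units.map (MulSemiringAction.toRingHom (L ≃ₐ[K] L) (𝓞 L) g : 𝓞 L →* 𝓞 L)))

/-- A `ℚ[Gal(L/K)]`-isomorphism `φ` from `ℚ ⊗ X` to `ℚ ⊗ (units of L)`, together with the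
`ℂ`-linear extension of `λ ∘ φ` to `ℂ ⊗ X`. -/
structure StarkMap where
  /-- the isomorphism `φ` -/
  phi : XX L ℚ ≃ₗ[ℚ] (ℚ ⊗[ℤ] Additive (𝓞 L)ˣ)
  /-- `φ` is equivariant -/
  equi : ∀ (g : L ≃ₐ[K] L) (x : XX L ℚ), phi (XRep K L ℚ g x) = (uMap K L g).baseChange ℚ (phi x)
  /-- the extension of `λ ∘ φ` -/
  Lam : XX L ℂ →ₗ[ℂ] XX L ℂ
  /-- it extends `λ ∘ φ` -/
  spec : ∀ x : XX L ℚ, (Lam (toC L x)).1 = lamQ L (phi x)

end defs2

section basic

variable {L : Type} [Field L] [NumberField L]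

lemma lamQ_tmul (u : Additive (𝓞 L)ˣ) : lamQ L ((1 : ℚ) ⊗ₜ[ℤ] u) = logVec L u := by
  have h := IsBaseChange.lift_eq (TensorProduct.isBaseChange ℤ (Additive (𝓞 L)ˣ) ℚ) (logVec L) u
  exact h

lemma lamQ_tmul' (q : ℚ) (u : Additive (𝓞 L)ˣ) :
    lamQ L (q ⊗ₜ[ℤ] u) = q • logVec L u := by
  have h : (q ⊗ₜ[ℤ] u : ℚ ⊗[ℤ] Additive (𝓞 L)ˣ) = q • ((1 : ℚ) ⊗ₜ[ℤ] u) := by
    rw [TensorProduct.smul_tmul', smul_eq_mul, mul_one]
  rw [h, map_smul, lamQ_tmul]

lemma logVec_apply (u : Additive (𝓞 L)ˣ) (w : InfinitePlace L) :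
    logVec L u w = ((-((w.mult : ℝ) * Real.log (w ((u.toMul : 𝓞 L) : L))) : ℝ) : ℂ) := rfl

lemma logVec_sum (u : Additive (𝓞 L)ˣ) : ∑ w, logVec L u w = 0 := by
  have h1 := InfinitePlace.prod_eq_abs_norm ((u.toMul : 𝓞 L) : L)
  have h2 := congrArg Real.log h1
  rw [Real.log_prod (fun w _ => pow_ne_zero _ (by simp))] at h2
  have h3 : ((|((Algebra.norm ℚ) ((u.toMul : 𝓞 L) : L) : ℚ)| : ℚ) : ℝ) = 1 := by
    have := (NumberField.isUnit_iff_norm (x := (u.toMul : 𝓞 L))).mp (Units.isUnit _)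
    have h4 : |((Algebra.norm ℚ) ((u.toMul : 𝓞 L) : L) : ℚ)| = 1 := by
      rw [← RingOfIntegers.coe_norm]
      exact this
    rw [h4, Rat.cast_one]
  have h5 : ∑ w : InfinitePlace L, ((w.mult : ℝ) * Real.log (w ((u.toMul : 𝓞 L) : L))) = 0 := by
    have h6 : ∀ w : InfinitePlace L, (w.mult : ℝ) * Real.log (w ((u.toMul : 𝓞 L) : L))
        = Real.log (w ((u.toMul : 𝓞 L) : L) ^ w.mult) := fun w => by rw [Real.log_pow]
    rw [Finset.sum_congr rfl (fun w _ => h6 w), h2, h3, Real.log_one]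
  simp only [logVec_apply]
  rw [← Complex.ofReal_sum, Finset.sum_neg_distrib, h5]
  simp

lemma lamQ_mem (z : ℚ ⊗[ℤ] Additive (𝓞 L)ˣ) : lamQ L z ∈ XX L ℂ := by
  change ∑ w, lamQ L z w = 0
  induction z using TensorProduct.induction_on with
  | zero => simp
  | tmul q u =>
    rw [lamQ_tmul']
    simp only [Pi.smul_apply]
    rw [← Finset.smul_sum, logVec_sum, smul_zero]
  | add x y hx hy =>
    simp only [map_add, Pi.add_apply, Finset.sum_add_distrib]
    rw [hx, hy, add_zero]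

/-- the vector `e_w - e_{w₀}` -/
noncomputable def ew (k : Type) [Field k] (w : InfinitePlace L) : XX L k := by
  classical
  exact ⟨Pi.single w 1 - Pi.single (Units.dirichletUnitTheorem.w₀ : InfinitePlace L) 1, by
    change ∑ v, ((Pi.single w (1 : k) : InfinitePlace L → k) -
      (Pi.single (Units.dirichletUnitTheorem.w₀) (1 : k) : InfinitePlace L → k)) v = 0
    simp⟩

lemma ew_toC (w : InfinitePlace L) : toC L (ew ℚ w) = ew ℂ w := by
  classical
  apply Subtype.ext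
  funext v
  change (((Pi.single w (1 : ℚ) - Pi.single (Units.dirichletUnitTheorem.w₀) (1 : ℚ) :
    InfinitePlace L → ℚ) v : ℚ) : ℂ) = (Pi.single w (1 : ℂ) -
    Pi.single (Units.dirichletUnitTheorem.w₀) (1 : ℂ) : InfinitePlace L → ℂ) v
  simp only [Pi.sub_apply, Pi.single_apply]
  split_ifs <;> simp

lemma eq_sum_ew {k : Type} [Field k] (a : XX L k) : a = ∑ w, a.1 w • ew k w := by
  classical
  apply Subtype.ext
  funext v
  have h : ∑ w, a.1 w = 0 := a.2
  rw [AddSubmonoidClass.coe_finsetSum, Finset.sum_apply]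
  have h1 : ∀ w, ((a.1 w • ew k w : XX L k) : InfinitePlace L → k) v
      = a.1 w * (Pi.single w (1 : k) : InfinitePlace L → k) v
        - a.1 w * (Pi.single (Units.dirichletUnitTheorem.w₀) (1 : k) : InfinitePlace L → k) v := by
    intro w
    change a.1 w * ((Pi.single w (1 : k) : InfinitePlace L → k) v -
      (Pi.single (Units.dirichletUnitTheorem.w₀) (1 : k) : InfinitePlace L → k) v) = _
    ring
  rw [Finset.sum_congr rfl (fun w _ => h1 w), Finset.sum_sub_distrib, ← Finset.sum_mul, h,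
    zero_mul, sub_zero]
  simp [Pi.single_apply]

/-- linear maps on `ℂ ⊗ X` are determined by the values on `ℚ ⊗ X` -/
lemma XX_ext {E : Type*} [AddCommGroup E] [Module ℂ E] {f g : XX L ℂ →ₗ[ℂ] E}
    (h : ∀ x : XX L ℚ, f (toC L x) = g (toC L x)) : f = g := by
  apply LinearMap.ext
  intro a
  rw [eq_sum_ew a, map_sum, map_sum]
  refine Finset.sum_congr rfl fun w _ => ?_
  rw [map_smul, map_smul, ← ew_toC, h]

lemma toC_add (x y : XX L ℚ) : toC L (x + y) = toC L x + toC L y := by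
  apply Subtype.ext
  funext w
  change (((x.1 w + y.1 w : ℚ)) : ℂ) = (x.1 w : ℂ) + (y.1 w : ℂ)
  push_cast
  rfl

/-- linear maps on `ℚ ⊗ X` extend to `ℂ ⊗ X` -/
lemma XX_lift {E : Type*} [AddCommGroup E] [Module ℂ E] [Module ℚ E] [IsScalarTower ℚ ℂ E]
    (f : XX L ℚ →ₗ[ℚ] E) :
    ∃ F : XX L ℂ →ₗ[ℂ] E, ∀ x : XX L ℚ, F (toC L x) = f x := by
  refine ⟨{ toFun := fun a => ∑ w, a.1 w • f (ew ℚ w)
            map_add' := ?_
            map_smul' := ?_ }, ?_⟩
  · intro a b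
    rw [← Finset.sum_add_distrib]
    refine Finset.sum_congr rfl fun w _ => ?_
    rw [← add_smul]
    rfl
  · intro c a
    rw [RingHom.id_apply, Finset.smul_sum]
    refine Finset.sum_congr rfl fun w _ => ?_
    rw [smul_smul]
    rfl
  · intro x
    change ∑ w, ((x.1 w : ℚ) : ℂ) • f (ew ℚ w) = f x
    conv_rhs => rw [eq_sum_ew x]
    rw [map_sum]
    refine Finset.sum_congr rfl fun w _ => ?_
    rw [map_smul]
    have h1 : ((x.1 w : ℚ) : ℂ) = (x.1 w) • (1 : ℂ) := by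
      rw [Rat.smul_def, mul_one]
    rw [h1, smul_assoc, one_smul]

end basic

section equi

variable {L : Type} [Field L] [NumberField L] {K : Type} [Field K] [NumberField K] [Algebra K L]

lemma XRep_apply {k : Type} [Field k] (g : L ≃ₐ[K] L) (a : XX L k) (w : InfinitePlace L) :
    (XRep K L k g a).1 w = a.1 (g⁻¹ • w) := rfl

lemma toC_XRep (g : L ≃ₐ[K] L) (x : XX L ℚ) :
    toC L (XRep K L ℚ g x) = XRep K L ℂ g (toC L x) := rfl

lemma mult_smul' (g : L ≃ₐ[K] L) (w : InfinitePlace L) : (g • w).mult = w.mult := by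
  rw [InfinitePlace.mult, InfinitePlace.mult, InfinitePlace.isReal_smul_iff]

lemma logVec_uMap (g : L ≃ₐ[K] L) (u : Additive (𝓞 L)ˣ) (w : InfinitePlace L) :
    logVec L (uMap K L g u) w = logVec L u (g⁻¹ • w) := by
  rw [logVec_apply, logVec_apply, mult_smul']
  rfl

lemma lamQ_uMap (g : L ≃ₐ[K] L) (z : ℚ ⊗[ℤ] Additive (𝓞 L)ˣ) (w : InfinitePlace L) :
    lamQ L ((uMap K L g).baseChange ℚ z) w = lamQ L z (g⁻¹ • w) := by
  induction z using TensorProduct.induction_on with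
  | zero => simp
  | tmul q u =>
    rw [LinearMap.baseChange_tmul, lamQ_tmul', lamQ_tmul', Pi.smul_apply, Pi.smul_apply,
      logVec_uMap]
  | add x y hx hy =>
    simp only [map_add, Pi.add_apply]
    rw [hx, hy]

lemma StarkMap.comm (φ : StarkMap K L) (g : L ≃ₐ[K] L) (a : XX L ℂ) :
    φ.Lam (XRep K L ℂ g a) = XRep K L ℂ g (φ.Lam a) := by
  have h : φ.Lam ∘ₗ (XRep K L ℂ g) = (XRep K L ℂ g) ∘ₗ φ.Lam := by
    apply XX_ext
    intro x
    rw [LinearMap.comp_apply, LinearMap.comp_apply, ← toC_XRep]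
    apply Subtype.ext
    funext w
    rw [φ.spec, φ.equi, lamQ_uMap, XRep_apply, φ.spec]
  exact LinearMap.congr_fun h a

end equi

end Pool.Agent.K4H74.SC
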