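import Mathlib
import Pool.Agent.K4H74.SC.Unit

/-!
# The unit theorem, and the existence of the isomorphism `φ`
-/

set_option autoImplicit false
set_option linter.unusedSectionVars false

namespace Pool.Agent.K4H74.SC

open NumberField NumberField.Units
open scoped TensorProduct

section span

variable {L : Type} [Field L] [NumberField L]

/-- the logarithmic vectors as elements of `ℂ ⊗ X` -/
noncomputable def logX (u : Additive (𝓞 L)ˣ) : XX L ℂ := ⟨logVec L u, logVec_sum u⟩

lemma logX_span : Submodule.span ℂ (Set.range (logX (L := L))) = ⊤ := by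
  classical
  let w₀ : InfinitePlace L := dirichletUnitTheorem.w₀
  -- the real linear map from the logarithmic space
  let R : dirichletUnitTheorem.logSpace L →ₗ[ℝ] XX L ℂ :=
    { toFun := fun b => ⟨fun w => if h : w = w₀ then -∑ v, ((b v : ℝ) : ℂ) else ((b ⟨w, h⟩ : ℝ) : ℂ), by
        change ∑ w : InfinitePlace L, _ = (0 : ℂ)
        rw [Fintype.sum_eq_add_sum_subtype_ne _ w₀, dif_pos rfl]
        have h1 : ∀ v : {w : InfinitePlace L // w ≠ w₀},
            (if h : (v : InfinitePlace L) = w₀ then -∑ v, ((b v : ℝ) : ℂ) else ((b ⟨v, h⟩ : ℝ) : ℂ))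
              = ((b v : ℝ) : ℂ) := fun v => by rw [dif_neg v.2]
        rw [Finset.sum_congr rfl (fun v _ => h1 v), neg_add_cancel]⟩
      map_add' := by
        intro b c
        apply Subtype.ext
        funext w
        change (if h : w = w₀ then -∑ v, (((b + c) v : ℝ) : ℂ) else (((b + c) ⟨w, h⟩ : ℝ) : ℂ))
          = (if h : w = w₀ then -∑ v, ((b v : ℝ) : ℂ) else ((b ⟨w, h⟩ : ℝ) : ℂ))
            + (if h : w = w₀ then -∑ v, ((c v : ℝ) : ℂ) else ((c ⟨w, h⟩ : ℝ) : ℂ))
        by_cases h : w = w₀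
        · rw [dif_pos h, dif_pos h, dif_pos h, ← neg_add, ← Finset.sum_add_distrib]
          congr 1
          refine Finset.sum_congr rfl fun v _ => ?_
          rw [Pi.add_apply, Complex.ofReal_add]
        · rw [dif_neg h, dif_neg h, dif_neg h, Pi.add_apply, Complex.ofReal_add]
      map_smul' := by
        intro r b
        apply Subtype.ext
        funext w
        change (if h : w = w₀ then -∑ v, (((r • b) v : ℝ) : ℂ) else (((r • b) ⟨w, h⟩ : ℝ) : ℂ))
          = r • (if h : w = w₀ then -∑ v, ((b v : ℝ) : ℂ) else ((b ⟨w, h⟩ : ℝ) : ℂ))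
        by_cases h : w = w₀
        · rw [dif_pos h, dif_pos h, smul_neg, Finset.smul_sum]
          congr 1
          refine Finset.sum_congr rfl fun v _ => ?_
          rw [Pi.smul_apply, smul_eq_mul, Complex.ofReal_mul, Complex.real_smul]
        · rw [dif_neg h, dif_neg h, Pi.smul_apply, smul_eq_mul, Complex.ofReal_mul,
            Complex.real_smul] }
  have hR : ∀ (b : dirichletUnitTheorem.logSpace L) (v : {w : InfinitePlace L // w ≠ w₀}),
      (R b).1 v = ((b v : ℝ) : ℂ) := by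
    intro b v
    exact dif_neg v.2
  -- elements of `ℂ ⊗ X` are determined by the coordinates different from `w₀`
  have hext : ∀ a b : XX L ℂ, (∀ v : {w : InfinitePlace L // w ≠ w₀}, a.1 v = b.1 v) → a = b := by
    intro a b hab
    apply Subtype.ext
    funext w
    by_cases hw : w = w₀
    · have h1 : ∑ w, a.1 w = 0 := a.2
      have h2 : ∑ w, b.1 w = 0 := b.2
      rw [Fintype.sum_eq_add_sum_subtype_ne _ w₀] at h1 h2
      rw [Finset.sum_congr rfl (fun v _ => hab v)] at h1
      rw [hw]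
      exact add_right_cancel (h1.trans h2.symm)
    · exact hab ⟨w, hw⟩
  have hlog : ∀ u : Additive (𝓞 L)ˣ, R (logEmbedding L u) = -logX u := by
    intro u
    apply hext
    intro v
    rw [hR]
    change _ = -(logVec L u v)
    rw [logVec_apply]
    change (((InfinitePlace.mult v.val : ℝ) * Real.log (v.val ((u.toMul : 𝓞 L) : L)) : ℝ) : ℂ) = _
    push_cast
    ring
  let S : Submodule ℂ (XX L ℂ) := Submodule.span ℂ (Set.range (logX (L := L)))
  have h1 : Submodule.span ℝ ((unitLattice L : Submodule ℤ _) : Set (dirichletUnitTheorem.logSpace L))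
      ≤ (S.restrictScalars ℝ).comap R := by
    rw [Submodule.span_le]
    rintro b ⟨u, -, rfl⟩
    change R (logEmbedding L u) ∈ S
    rw [hlog]
    exact S.neg_mem (Submodule.subset_span ⟨u, rfl⟩)
  rw [dirichletUnitTheorem.unitLattice_span_eq_top] at h1
  have h2 : ∀ b, R b ∈ S := fun b => h1 (Submodule.mem_top (x := b))
  rw [Submodule.eq_top_iff']
  intro a
  have h3 : a = R (fun v => (a.1 v).re) + Complex.I • R (fun v => (a.1 v).im) := by
    apply hext
    intro v
    change a.1 v = (R (fun v => (a.1 v).re)).1 v + Complex.I * (R (fun v => (a.1 v).im)).1 v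
    rw [hR, hR]
    conv_lhs => rw [← Complex.re_add_im (a.1 v)]
    ring
  rw [h3]
  exact S.add_mem (h2 _) (S.smul_mem _ (h2 _))

variable {K : Type} [Field K] [NumberField K] [Algebra K L]

lemma StarkMap.surj (φ : StarkMap K L) : Function.Surjective φ.Lam := by
  rw [← LinearMap.range_eq_top, eq_top_iff, ← logX_span, Submodule.span_le]
  rintro b ⟨u, rfl⟩
  refine ⟨toC L (φ.phi.symm ((1 : ℚ) ⊗ₜ[ℤ] u)), ?_⟩
  apply Subtype.ext
  rw [φ.spec, LinearEquiv.apply_symm_apply, lamQ_tmul]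
  rfl

lemma StarkMap.inj (φ : StarkMap K L) : Function.Injective φ.Lam :=
  LinearMap.injective_iff_surjective.mpr φ.surj

end span

section exist

/-- rational points where a determinant does not vanish -/
lemma exists_rat {W : Type*} [AddCommGroup W] [Module ℂ W] [FiniteDimensional ℂ W] {ι : Type*}
    [Fintype ι] (E : ι → (W →ₗ[ℂ] W)) (x : ι → ℂ) (hx : LinearMap.det (∑ i, x i • E i) ≠ 0) :
    ∃ q : ι → ℚ, LinearMap.det (∑ i, ((q i : ℚ) : ℂ) • E i) ≠ 0 := by
  classical
  let b := Module.finBasis ℂ W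
  let Mx : Matrix (Fin (Module.finrank ℂ W)) (Fin (Module.finrank ℂ W)) (MvPolynomial ι ℂ) :=
    ∑ i, (MvPolynomial.X i : MvPolynomial ι ℂ) • (LinearMap.toMatrix b b (E i)).map MvPolynomial.C
  have key : ∀ y : ι → ℂ, MvPolynomial.eval y Mx.det = LinearMap.det (∑ i, y i • E i) := by
    intro y
    rw [← LinearMap.det_toMatrix b, RingHom.map_det]
    congr 1
    ext j k
    simp only [Mx, RingHom.mapMatrix_apply, Matrix.map_apply, Matrix.sum_apply, Matrix.smul_apply,
      smul_eq_mul, map_sum, map_mul, MvPolynomial.eval_X, MvPolynomial.eval_C, map_smul]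
  by_contra hcon
  push Not at hcon
  have h0 : Mx.det = 0 := by
    refine MvPolynomial.funext_set (fun _ => Set.range ((↑) : ℚ → ℂ)) (fun _ => ?_) ?_
    · exact Set.infinite_range_of_injective Rat.cast_injective
    · intro y hy
      choose q hq using fun i => hy i (Set.mem_univ i)
      have h1 : y = fun i => ((q i : ℚ) : ℂ) := funext fun i => (hq i).symm
      rw [map_zero, key, h1]
      exact hcon q
  apply hx
  rw [← key, h0, map_zero]

variable {L : Type} [Field L] [NumberField L]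

/-- the dimension of `ℚ ⊗ (units)` -/
lemma fin_units : FiniteDimensional ℚ (ℚ ⊗[ℤ] Additive (𝓞 L)ˣ) ∧
    Module.finrank ℚ (ℚ ⊗[ℤ] Additive (𝓞 L)ˣ) ≤ rank L := by
  have h1 : Submodule.span ℚ (Set.range fun i : Fin (rank L) =>
      ((1 : ℚ) ⊗ₜ[ℤ] (Additive.ofMul (fundSystem L i)) : ℚ ⊗[ℤ] Additive (𝓞 L)ˣ)) = ⊤ := by
    rw [Submodule.eq_top_iff']
    intro z
    induction z using TensorProduct.induction_on with
    | zero => exact Submodule.zero_mem _
    | add x y hx hy => exact Submodule.add_mem _ hx hy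
    | tmul q u =>
      obtain ⟨⟨ζ, e⟩, h2, -⟩ := exist_unique_eq_mul_prod L u.toMul
      have h3 : u = Additive.ofMul (ζ : (𝓞 L)ˣ)
          + ∑ i, e i • Additive.ofMul (fundSystem L i) := by
        apply Additive.toMul.injective
        rw [toMul_add, toMul_sum, h2]
        rfl
      have h4 : (q ⊗ₜ[ℤ] (Additive.ofMul (ζ : (𝓞 L)ˣ)) : ℚ ⊗[ℤ] Additive (𝓞 L)ˣ) = 0 := by
        obtain ⟨n, hn, hz⟩ := isOfFinOrder_iff_pow_eq_one.mp
          ((CommGroup.mem_torsion _).mp ζ.2)
        have h5 : (q ⊗ₜ[ℤ] (Additive.ofMul (ζ : (𝓞 L)ˣ)) : ℚ ⊗[ℤ] Additive (𝓞 L)ˣ)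
            = ((n : ℤ) • (q / n)) ⊗ₜ[ℤ] (Additive.ofMul (ζ : (𝓞 L)ˣ)) := by
          congr 1
          rw [zsmul_eq_mul]
          have : (n : ℚ) ≠ 0 := by exact_mod_cast hn.ne'
          push_cast
          field_simp
        rw [h5, TensorProduct.smul_tmul]
        have h6 : (n : ℤ) • Additive.ofMul (ζ : (𝓞 L)ˣ) = 0 := by
          rw [natCast_zsmul, ← ofMul_pow, hz]
          rfl
        rw [h6, TensorProduct.tmul_zero]
      rw [h3, TensorProduct.tmul_add, h4, zero_add, TensorProduct.tmul_sum]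
      refine Submodule.sum_mem _ fun i _ => ?_
      have h7 : (q ⊗ₜ[ℤ] (e i • Additive.ofMul (fundSystem L i)) : ℚ ⊗[ℤ] Additive (𝓞 L)ˣ)
          = (q * e i) • ((1 : ℚ) ⊗ₜ[ℤ] (Additive.ofMul (fundSystem L i))) := by
        have h8 : (q ⊗ₜ[ℤ] (e i • Additive.ofMul (fundSystem L i)) : ℚ ⊗[ℤ] Additive (𝓞 L)ˣ)
            = e i • (q ⊗ₜ[ℤ] (Additive.ofMul (fundSystem L i))) :=
          map_zsmul (TensorProduct.mk ℤ ℚ (Additive (𝓞 L)ˣ) q) (e i) _
        rw [h8, TensorProduct.smul_tmul', TensorProduct.smul_tmul',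
          smul_eq_mul, mul_one, zsmul_eq_mul, mul_comm]
      rw [h7]
      exact Submodule.smul_mem _ _ (Submodule.subset_span ⟨i, rfl⟩)
  have h2 : FiniteDimensional ℚ (ℚ ⊗[ℤ] Additive (𝓞 L)ˣ) :=
    ⟨Submodule.fg_def.mpr ⟨_, Set.finite_range _, h1⟩⟩
  refine ⟨h2, ?_⟩
  have h3 := finrank_range_le_card (R := ℚ) (fun i : Fin (rank L) =>
      ((1 : ℚ) ⊗ₜ[ℤ] (Additive.ofMul (fundSystem L i)) : ℚ ⊗[ℤ] Additive (𝓞 L)ˣ))
  rw [Set.finrank, h1, finrank_top, Fintype.card_fin] at h3
  exact h3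

/-- the dimension of `ℚ ⊗ X` -/
lemma finrank_XX : Module.finrank ℚ (XX L ℚ) = rank L := by
  classical
  let s : (InfinitePlace L → ℚ) →ₗ[ℚ] ℚ := ∑ w, LinearMap.proj w
  have hs : ∀ a, s a = ∑ w, a w := fun a => by simp [s]
  have h1 : XX L ℚ = LinearMap.ker s := by
    ext a
    rw [LinearMap.mem_ker, hs]
    rfl
  have h2 : Function.Surjective s := by
    intro c
    refine ⟨Pi.single (dirichletUnitTheorem.w₀ : InfinitePlace L) c, ?_⟩
    rw [hs]
    simp
  have h3 := LinearMap.finrank_range_add_finrank_ker s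
  rw [LinearMap.range_eq_top.mpr h2, finrank_top, Module.finrank_self, Module.finrank_pi] at h3
  rw [h1, rank]
  omega

variable (K : Type) [Field K] [NumberField K] [Algebra K L]

/-- an equivariant map -/
noncomputable def fMap (w : InfinitePlace L) (u : Additive (𝓞 L)ˣ) :
    XX L ℚ →ₗ[ℚ] (ℚ ⊗[ℤ] Additive (𝓞 L)ˣ) where
  toFun x := ∑ᶠ g : L ≃ₐ[K] L, (x.1 (g • w)) ⊗ₜ[ℤ] (uMap K L g u)
  map_add' := by
    intro x y
    have : Finite (L ≃ₐ[K] L) := inferInstance
    have : Fintype (L ≃ₐ[K] L) := Fintype.ofFinite _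
    rw [finsum_eq_sum_of_fintype, finsum_eq_sum_of_fintype, finsum_eq_sum_of_fintype,
      ← Finset.sum_add_distrib]
    refine Finset.sum_congr rfl fun g _ => ?_
    rw [← TensorProduct.add_tmul]
    rfl
  map_smul' := by
    intro c x
    have : Fintype (L ≃ₐ[K] L) := Fintype.ofFinite _
    rw [finsum_eq_sum_of_fintype, finsum_eq_sum_of_fintype, RingHom.id_apply, Finset.smul_sum]
    refine Finset.sum_congr rfl fun g _ => ?_
    rw [TensorProduct.smul_tmul']
    rfl

lemma uMap_mul (g h : L ≃ₐ[K] L) (u : Additive (𝓞 L)ˣ) :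
    uMap K L (g * h) u = uMap K L g (uMap K L h u) := by
  apply Additive.toMul.injective
  apply Units.ext
  exact mul_smul g h ((u.toMul : 𝓞 L))

lemma fMap_equi (w : InfinitePlace L) (u : Additive (𝓞 L)ˣ) (g : L ≃ₐ[K] L) (x : XX L ℚ) :
    fMap K w u (XRep K L ℚ g x) = (uMap K L g).baseChange ℚ (fMap K w u x) := by
  have : Fintype (L ≃ₐ[K] L) := Fintype.ofFinite _
  change (∑ᶠ h : L ≃ₐ[K] L, ((XRep K L ℚ g x).1 (h • w)) ⊗ₜ[ℤ] (uMap K L h u))
    = (uMap K L g).baseChange ℚ (∑ᶠ h : L ≃ₐ[K] L, (x.1 (h • w)) ⊗ₜ[ℤ] (uMap K L h u))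
  rw [finsum_eq_sum_of_fintype, finsum_eq_sum_of_fintype, map_sum,
    ← Equiv.sum_comp (Equiv.mulLeft g)]
  refine Finset.sum_congr rfl fun h _ => ?_
  rw [LinearMap.baseChange_tmul, ← uMap_mul, XRep_apply, ← mul_smul]
  change (x.1 ((g⁻¹ * (g * h)) • w)) ⊗ₜ[ℤ] _ = _
  rw [inv_mul_cancel_left]
  rfl

lemma exists_ext_lam (f : XX L ℚ →ₗ[ℚ] (ℚ ⊗[ℤ] Additive (𝓞 L)ˣ)) :
    ∃ F : XX L ℂ →ₗ[ℂ] XX L ℂ, ∀ x : XX L ℚ, (F (toC L x)).1 = lamQ L (f x) := by
  let g : XX L ℚ →ₗ[ℚ] XX L ℂ :=
    { toFun := fun x => ⟨lamQ L (f x), lamQ_mem _⟩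
      map_add' := fun x y => Subtype.ext (by
        change lamQ L (f (x + y)) = lamQ L (f x) + lamQ L (f y)
        rw [map_add, map_add])
      map_smul' := fun c x => Subtype.ext (by
        change lamQ L (f (c • x)) = c • lamQ L (f x)
        rw [map_smul, map_smul]) }
  obtain ⟨F, hF⟩ := XX_lift g
  exact ⟨F, fun x => by rw [hF]; rfl⟩

/-- **the isomorphism `φ` exists** -/
theorem exists_StarkMap : Nonempty (StarkMap K L) := by
  classical
  have hft : Fintype (L ≃ₐ[K] L) := Fintype.ofFinite _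
  -- the vectors `ew w` as combinations of logarithmic vectors
  have h1 : ∀ w : InfinitePlace L, ∃ c : Additive (𝓞 L)ˣ →₀ ℂ,
      (c.sum fun u r => r • logX u) = ew ℂ w := by
    intro w
    have h2 : ew ℂ w ∈ Submodule.span ℂ (Set.range (logX (L := L))) := by
      rw [logX_span]; exact Submodule.mem_top
    exact Finsupp.mem_span_range_iff_exists_finsupp.mp h2
  choose c hc using h1
  let T : Finset (Additive (𝓞 L)ˣ) := Finset.univ.biUnion fun w => (c w).support
  have hc' : ∀ w, ∑ u : T, c w u • logX (u : Additive (𝓞 L)ˣ) = ew ℂ w := by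
    intro w
    rw [← hc w, Finsupp.sum, Finset.sum_coe_sort T (fun u => c w u • logX u)]
    symm
    apply Finset.sum_subset (Finset.subset_biUnion_of_mem _ (Finset.mem_univ w))
    intro u _ hu
    rw [Finsupp.notMem_support_iff.mp hu, zero_smul]
  choose E hE using fun i : InfinitePlace L × T =>
    exists_ext_lam (L := L) (fMap K i.1 (i.2 : Additive (𝓞 L)ˣ))
  have hEx : ∀ (i : InfinitePlace L × T) (x : XX L ℚ), E i (toC L x)
      = ∑ g : L ≃ₐ[K] L, ((x.1 (g • i.1) : ℚ) : ℂ) • (XRep K L ℂ g (logX (i.2 : Additive (𝓞 L)ˣ))) := by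
    intro i x
    apply Subtype.ext
    rw [hE, AddSubmonoidClass.coe_finsetSum]
    change lamQ L (∑ᶠ g : L ≃ₐ[K] L, (x.1 (g • i.1)) ⊗ₜ[ℤ] (uMap K L g i.2)) = _
    rw [finsum_eq_sum_of_fintype, map_sum]
    refine Finset.sum_congr rfl fun g _ => ?_
    rw [lamQ_tmul']
    funext v
    rw [Pi.smul_apply, logVec_uMap, Rat.smul_def]
    rfl
  have hsum : (∑ i : InfinitePlace L × T, c i.1 i.2 • E i)
      = (Fintype.card (L ≃ₐ[K] L) : ℂ) • LinearMap.id := by
    apply XX_ext
    intro x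
    rw [LinearMap.sum_apply, Fintype.sum_prod_type]
    have h3 : ∀ (w : InfinitePlace L) (u : T), (c w u • E (w, u)) (toC L x)
        = ∑ g : L ≃ₐ[K] L, ((x.1 (g • w) : ℚ) : ℂ) • (XRep K L ℂ g (c w u • logX (u : Additive (𝓞 L)ˣ))) := by
      intro w u
      rw [LinearMap.smul_apply, hEx, Finset.smul_sum]
      refine Finset.sum_congr rfl fun g _ => ?_
      rw [map_smul, smul_comm]
    have h4 : ∀ w : InfinitePlace L, ∑ u : T, (c w u • E (w, u)) (toC L x)
        = ∑ g : L ≃ₐ[K] L, ((x.1 (g • w) : ℚ) : ℂ) • (XRep K L ℂ g (ew ℂ w)) := by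
      intro w
      rw [Finset.sum_congr rfl (fun u _ => h3 w u), Finset.sum_comm]
      refine Finset.sum_congr rfl fun g _ => ?_
      rw [← Finset.smul_sum, ← map_sum, hc']
    rw [Finset.sum_congr rfl (fun w _ => h4 w), Finset.sum_comm]
    have h5 : ∀ g : L ≃ₐ[K] L, ∑ w : InfinitePlace L,
        ((x.1 (g • w) : ℚ) : ℂ) • (XRep K L ℂ g (ew ℂ w)) = toC L x := by
      intro g
      have h6 : ∀ w, ((x.1 (g • w) : ℚ) : ℂ) • (XRep K L ℂ g (ew ℂ w))
          = XRep K L ℂ g (((XRep K L ℂ g⁻¹ (toC L x)).1 w) • ew ℂ w) := by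
        intro w
        rw [map_smul, XRep_apply, inv_inv]
        rfl
      rw [Finset.sum_congr rfl (fun w _ => h6 w), ← map_sum, ← eq_sum_ew,
        ← Module.End.mul_apply, ← map_mul, mul_inv_cancel, map_one, Module.End.one_apply]
    rw [Finset.sum_congr rfl (fun g _ => h5 g), Finset.sum_const, Finset.card_univ,
      ← Nat.cast_smul_eq_nsmul ℂ]
    rfl
  have hdet : LinearMap.det (∑ i : InfinitePlace L × T, c i.1 i.2 • E i) ≠ 0 := by
    rw [hsum, LinearMap.det_smul, LinearMap.det_id, mul_one]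
    apply pow_ne_zero
    exact_mod_cast Fintype.card_ne_zero
  obtain ⟨q, hq⟩ := exists_rat E (fun i => c i.1 i.2) hdet
  let f : XX L ℚ →ₗ[ℚ] (ℚ ⊗[ℤ] Additive (𝓞 L)ˣ) :=
    ∑ i : InfinitePlace L × T, q i • fMap K i.1 (i.2 : Additive (𝓞 L)ˣ)
  let F : XX L ℂ →ₗ[ℂ] XX L ℂ := ∑ i : InfinitePlace L × T, ((q i : ℚ) : ℂ) • E i
  have hF : ∀ x : XX L ℚ, (F (toC L x)).1 = lamQ L (f x) := by
    intro x
    simp only [F, f, LinearMap.sum_apply, LinearMap.smul_apply, map_sum, map_smul,
      AddSubmonoidClass.coe_finsetSum]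
    refine Finset.sum_congr rfl fun i _ => ?_
    rw [← hE]
    funext v
    rw [Pi.smul_apply, Rat.smul_def]
    rfl
  have hfinj : Function.Injective f := by
    rw [injective_iff_map_eq_zero]
    intro x hx
    have h1 : F (toC L x) = 0 := by
      apply Subtype.ext
      rw [hF, hx, map_zero]
      rfl
    have h2 : Function.Injective F := by
      by_contra hcon
      apply hq
      by_contra hne
      apply hcon
      have := LinearMap.isUnit_iff_ker_eq_bot F
      have h3 : IsUnit F := (LinearMap.isUnit_iff_isUnit_det F).mpr (isUnit_iff_ne_zero.mpr hne)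
      exact LinearMap.ker_eq_bot.mp (this.mp h3)
    have h3 : toC L x = 0 := h2 (by rw [h1, map_zero])
    apply Subtype.ext
    funext w
    have h4 := congrFun (congrArg Subtype.val h3) w
    change ((x.1 w : ℚ) : ℂ) = 0 at h4
    exact_mod_cast h4
  obtain ⟨hfd, hle⟩ := fin_units (L := L)
  have hXfd : FiniteDimensional ℚ (XX L ℚ) := inferInstance
  have hbij : Function.Bijective f := by
    refine ⟨hfinj, ?_⟩
    have h5 := LinearMap.finrank_le_finrank_of_injective hfinj
    rw [finrank_XX] at h5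
    have h6 : Module.finrank ℚ (XX L ℚ) = Module.finrank ℚ (ℚ ⊗[ℤ] Additive (𝓞 L)ˣ) := by
      rw [finrank_XX]
      exact le_antisymm h5 hle
    exact (LinearMap.injective_iff_surjective_of_finrank_eq_finrank h6).mp hfinj
  refine ⟨{ phi := LinearEquiv.ofBijective f hbij
            equi := ?_
            Lam := F
            spec := hF }⟩
  intro g x
  change f (XRep K L ℚ g x) = (uMap K L g).baseChange ℚ (f x)
  simp only [f, LinearMap.sum_apply, LinearMap.smul_apply, map_sum, map_smul]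
  refine Finset.sum_congr rfl fun i _ => ?_
  rw [fMap_equi]

end exist

end Pool.Agent.K4H74.SC
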