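import Mathlib
import Pool.Agent.K4H74.SC.Dir
import Pool.Agent.K4H74.ST.Fin

/-!
# The Stark regulator
-/

set_option autoImplicit false
set_option linter.unusedSectionVars false

namespace Pool.Agent.K4H74.SC

open NumberField Pool.Agent.K4H74.ST
open scoped TensorProduct

section defs

variable {K L : Type} [Field K] [NumberField K] [Field L] [NumberField L] [Algebra K L]

/-- `r` is the Stark regulator `R(χ, φ)`: the determinant of `f ↦ λ ∘ φ ∘ f` on
`Hom_G(V, ℂ ⊗ X)`, where the representation `V` has the character `g ↦ χ (g⁻¹)`. -/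
def IsReg (φ : StarkMap K L) (χ : (L ≃ₐ[K] L) → ℂ) (r : ℂ) : Prop :=
  ∃ (V : Type) (_ : AddCommGroup V) (_ : Module ℂ V) (_ : FiniteDimensional ℂ V)
    (ρ : Representation ℂ (L ≃ₐ[K] L) V), (∀ g, ρ.character g = χ g⁻¹) ∧
      r = homDet ρ (XRep K L ℂ) φ.Lam φ.comm

end defs

section reg

variable {K L : Type} [Field K] [NumberField K] [Field L] [NumberField L] [Algebra K L]

/-- the traces which belong to the regulator -/
noncomputable def tseq (Λ : XX L ℂ →ₗ[ℂ] XX L ℂ) (χ : (L ≃ₐ[K] L) → ℂ) (k : ℕ) : ℂ :=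
  (Nat.card (L ≃ₐ[K] L) : ℂ)⁻¹ *
    ∑ᶠ g : L ≃ₐ[K] L, χ g * LinearMap.trace ℂ (XX L ℂ) (XRep K L ℂ g ∘ₗ (Λ ^ k))

lemma IsReg.detOf {φ : StarkMap K L} {χ : (L ≃ₐ[K] L) → ℂ} {r : ℂ} (h : IsReg φ χ r) :
    DetOf (tseq φ.Lam χ) r := by
  obtain ⟨V, _, _, _, ρ, hρ, rfl⟩ := h
  exact detOf_homDet hρ _ _ _

lemma isChar_inv {G : Type} [Group G] {χ : G → ℂ} (h : IsChar χ) : IsChar (fun g => χ g⁻¹) := by
  obtain ⟨V, _, _, _, ρ, rfl⟩ := h
  refine ⟨Module.Dual ℂ V, inferInstance, inferInstance, inferInstance, ρ.dual, ?_⟩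
  funext g
  exact (Representation.char_dual ρ g).symm

lemma IsReg.exists (φ : StarkMap K L) {χ : (L ≃ₐ[K] L) → ℂ} (h : IsChar χ) :
    ∃ r, IsReg φ χ r := by
  obtain ⟨V, _, _, _, ρ, hρ⟩ := isChar_inv h
  exact ⟨_, V, inferInstance, inferInstance, inferInstance, ρ, fun g => (congrFun hρ g).symm, rfl⟩

lemma IsReg.ne {φ : StarkMap K L} {χ : (L ≃ₐ[K] L) → ℂ} {r : ℂ} (h : IsReg φ χ r) : r ≠ 0 := by
  obtain ⟨V, _, _, _, ρ, hρ, rfl⟩ := h
  exact det_homMap_ne _ _ _ _ φ.inj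

lemma IsReg.unique {φ : StarkMap K L} {χ : (L ≃ₐ[K] L) → ℂ} {r r' : ℂ} (h : IsReg φ χ r)
    (h' : IsReg φ χ r') : r' = r := h.detOf.unique h'.detOf

lemma IsReg.add {φ : StarkMap K L} {χ χ' : (L ≃ₐ[K] L) → ℂ} {r r' s : ℂ} (h : IsReg φ χ r)
    (h' : IsReg φ χ' r') (hs : IsReg φ (χ + χ') s) : s = r * r' := by
  refine hs.detOf.add h.detOf h'.detOf fun k => ?_
  have : Fintype (L ≃ₐ[K] L) := Fintype.ofFinite _
  unfold tseq
  rw [finsum_eq_sum_of_fintype, finsum_eq_sum_of_fintype, finsum_eq_sum_of_fintype, ← mul_add,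
    ← Finset.sum_add_distrib]
  congr 1
  refine Finset.sum_congr rfl fun g _ => ?_
  rw [Pi.add_apply, add_mul]

/-- an equivariant automorphism of `ℚ ⊗ X` has rational traces -/
lemma trace_rat {α : XX L ℚ →ₗ[ℚ] XX L ℚ} {B : XX L ℂ →ₗ[ℂ] XX L ℂ}
    (h : ∀ x, B (toC L x) = toC L (α x)) : ∃ q : ℚ, LinearMap.trace ℂ _ B = q := by
  classical
  let b := Module.finBasis ℚ (XX L ℚ)
  have h1 : ∀ (m : ℕ) (c : Fin m → XX L ℚ) (q : Fin m → ℚ),
      toC L (∑ i, q i • c i) = ∑ i, ((q i : ℚ) : ℂ) • toC L (c i) := by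
    intro m c q
    apply Subtype.ext
    funext w
    change (((∑ i, q i • c i : XX L ℚ).1 w : ℚ) : ℂ) = ((∑ i, ((q i : ℚ) : ℂ) • toC L (c i) : XX L ℂ).1 w)
    rw [AddSubmonoidClass.coe_finsetSum, AddSubmonoidClass.coe_finsetSum, Finset.sum_apply,
      Finset.sum_apply, Rat.cast_sum]
    refine Finset.sum_congr rfl fun i _ => ?_
    change ((q i * (c i).1 w : ℚ) : ℂ) = ((q i : ℚ) : ℂ) * (((c i).1 w : ℚ) : ℂ)
    push_cast
    rfl
  have hspan : ⊤ ≤ Submodule.span ℂ (Set.range fun i => toC L (b i)) := by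
    rintro a -
    rw [eq_sum_ew a]
    refine Submodule.sum_mem _ fun w _ => Submodule.smul_mem _ _ ?_
    rw [← ew_toC, ← b.sum_repr (ew ℚ w), h1]
    exact Submodule.sum_mem _ fun i _ => Submodule.smul_mem _ _ (Submodule.subset_span ⟨i, rfl⟩)
  have hli : LinearIndependent ℂ fun i => toC L (b i) := by
    apply linearIndependent_of_top_le_span_of_card_eq_finrank hspan
    rw [Fintype.card_fin]
    -- dimensions
    let s : ∀ (k : Type) [Field k], (InfinitePlace L → k) →ₗ[k] k := fun k _ => ∑ w, LinearMap.proj w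
    have hs : ∀ (k : Type) [Field k] (a : InfinitePlace L → k), s k a = ∑ w, a w := fun k _ a => by
      simp [s]
    have h2 : ∀ (k : Type) [Field k], Module.finrank k (XX L k)
        = Fintype.card (InfinitePlace L) - 1 := by
      intro k _
      have h3 : XX L k = LinearMap.ker (s k) := by
        ext a
        rw [LinearMap.mem_ker, hs]
        rfl
      have h4 : Function.Surjective (s k) := by
        intro c
        refine ⟨Pi.single (Units.dirichletUnitTheorem.w₀ : InfinitePlace L) c, ?_⟩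
        rw [hs]
        simp
      have h5 := LinearMap.finrank_range_add_finrank_ker (s k)
      rw [LinearMap.range_eq_top.mpr h4, finrank_top, Module.finrank_self, Module.finrank_pi] at h5
      rw [h3]
      omega
    rw [h2, h2]
  let bC := Module.Basis.mk hli hspan
  refine ⟨LinearMap.trace ℚ _ α, ?_⟩
  rw [LinearMap.trace_eq_matrix_trace ℂ bC, LinearMap.trace_eq_matrix_trace ℚ b, Matrix.trace,
    Matrix.trace, Rat.cast_sum]
  refine Finset.sum_congr rfl fun i _ => ?_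
  rw [Matrix.diag_apply, Matrix.diag_apply, LinearMap.toMatrix_apply, LinearMap.toMatrix_apply]
  have h6 : B (bC i) = ∑ j, ((b.repr (α (b i)) j : ℚ) : ℂ) • bC j := by
    have h7 : ∀ j, bC j = toC L (b j) := fun j => Module.Basis.mk_apply hli hspan j
    rw [h7, h, ← b.sum_repr (α (b i)), h1]
    refine Finset.sum_congr rfl fun j _ => ?_
    rw [h7, b.sum_repr]
  rw [h6, map_sum, Finset.sum_apply']
  simp only [map_smul, Module.Basis.repr_self, Finsupp.smul_apply, Finsupp.single_apply,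
    smul_eq_mul, mul_ite, mul_one, mul_zero, Finset.sum_ite_eq', Finset.mem_univ, if_true]

/-- changing `φ` -/
theorem IsReg.change {φ φ' : StarkMap K L} {χ : (L ≃ₐ[K] L) → ℂ} {r r' s s' : ℂ}
    (σ : ℂ →+* ℂ) (hχ : IsChar χ) (hχ' : IsChar (fun g => σ (χ g)))
    (h : IsReg φ χ r) (h' : IsReg φ' χ r')
    (hs : IsReg φ (fun g => σ (χ g)) s) (hs' : IsReg φ' (fun g => σ (χ g)) s') :
    s' * σ r = s * σ r' := by
  -- the automorphism `α = φ⁻¹ φ'`
  let α : XX L ℚ ≃ₗ[ℚ] XX L ℚ := φ'.phi.trans φ.phi.symm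
  have hαe : ∀ (g : L ≃ₐ[K] L) x, α (XRep K L ℚ g x) = XRep K L ℚ g (α x) := by
    intro g x
    apply φ.phi.injective
    change φ.phi (φ.phi.symm (φ'.phi _)) = φ.phi (XRep K L ℚ g (φ.phi.symm (φ'.phi x)))
    rw [LinearEquiv.apply_symm_apply, φ.equi, LinearEquiv.apply_symm_apply, φ'.equi]
  let cC : XX L ℚ →ₗ[ℚ] XX L ℂ :=
    { toFun := fun x => toC L x
      map_add' := fun x y => toC_add x y
      map_smul' := fun c x => by
        apply Subtype.ext
        funext w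
        change ((c * x.1 w : ℚ) : ℂ) = c • ((x.1 w : ℚ) : ℂ)
        rw [Rat.smul_def]
        push_cast
        rfl }
  obtain ⟨B, hB⟩ := XX_lift (cC ∘ₗ (α : XX L ℚ →ₗ[ℚ] XX L ℚ))
  have hB' : ∀ x, B (toC L x) = toC L (α x) := hB
  have hBpow : ∀ (k : ℕ) (x : XX L ℚ), (B ^ k) (toC L x)
      = toC L (((α : XX L ℚ →ₗ[ℚ] XX L ℚ) ^ k) x) := by
    intro k
    induction k with
    | zero => intro x; rfl
    | succ k ih =>
      intro x
      rw [pow_succ, Module.End.mul_apply, hB', ih, pow_succ, Module.End.mul_apply]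
      rfl
  have hBe : ∀ (g : L ≃ₐ[K] L) a, B (XRep K L ℂ g a) = XRep K L ℂ g (B a) := by
    intro g a
    have h1 : B ∘ₗ (XRep K L ℂ g) = (XRep K L ℂ g) ∘ₗ B := by
      apply XX_ext
      intro x
      rw [LinearMap.comp_apply, LinearMap.comp_apply, ← toC_XRep, hB', hB', hαe, toC_XRep]
    exact LinearMap.congr_fun h1 a
  have hcomp : φ'.Lam = φ.Lam ∘ₗ B := by
    apply XX_ext
    intro x
    apply Subtype.ext
    rw [LinearMap.comp_apply, hB', φ'.spec, φ.spec]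
    change _ = lamQ L (φ.phi (φ.phi.symm (φ'.phi x)))
    rw [LinearEquiv.apply_symm_apply]
  -- determinants of `B`
  have hdet : ∀ {θ : (L ≃ₐ[K] L) → ℂ} {u u' : ℂ}, IsReg φ θ u → IsReg φ' θ u' → IsChar θ →
      ∃ d, DetOf (tseq B θ) d ∧ u' = u * d := by
    intro θ u u' hu hu' hθ
    obtain ⟨V, _, _, _, ρ, hρ⟩ := isChar_inv hθ
    have hρ' : ∀ g, ρ.character g = θ g⁻¹ := fun g => (congrFun hρ g).symm
    have e1 : IsReg φ θ (homDet ρ (XRep K L ℂ) φ.Lam φ.comm) :=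
      ⟨V, inferInstance, inferInstance, inferInstance, ρ, hρ', rfl⟩
    have e2 : IsReg φ' θ (homDet ρ (XRep K L ℂ) φ'.Lam φ'.comm) :=
      ⟨V, inferInstance, inferInstance, inferInstance, ρ, hρ', rfl⟩
    refine ⟨homDet ρ (XRep K L ℂ) B hBe, detOf_homDet hρ' _ _ _, ?_⟩
    rw [e1.unique hu, e2.unique hu']
    exact homDet_comp ρ (XRep K L ℂ) φ.Lam B φ'.Lam φ.comm hBe φ'.comm hcomp
  obtain ⟨d, hd, rfl⟩ := hdet h h' hχ
  obtain ⟨d', hd', rfl⟩ := hdet hs hs' hχ'
  have hdd : d' = σ d := by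
    refine hd.sigma hd' σ fun k => ?_
    have : Fintype (L ≃ₐ[K] L) := Fintype.ofFinite _
    unfold tseq
    rw [finsum_eq_sum_of_fintype, finsum_eq_sum_of_fintype, map_mul, map_inv₀, map_natCast,
      map_sum]
    congr 1
    refine Finset.sum_congr rfl fun g _ => ?_
    rw [map_mul]
    congr 1
    obtain ⟨q, hq⟩ := trace_rat (α := XRep K L ℚ g ∘ₗ ((α : XX L ℚ →ₗ[ℚ] XX L ℚ) ^ k))
      (B := XRep K L ℂ g ∘ₗ B ^ k) (by
        intro x
        rw [LinearMap.comp_apply, hBpow, ← toC_XRep]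
        rfl)
    rw [hq, map_ratCast]
  rw [hdd, map_mul]
  ring

end reg

section ind

variable {K F L : Type} [Field K] [NumberField K] [Field F] [NumberField F] [Field L]
  [NumberField L] [Algebra K F] [Algebra F L] [Algebra K L] [IsScalarTower K F L]

/-- `φ` over a larger base field -/
def StarkMap.res (φ : StarkMap K L) (F : Type) [Field F] [NumberField F] [Algebra K F]
    [Algebra F L] [IsScalarTower K F L] : StarkMap F L where
  phi := φ.phi
  equi g x := φ.equi (g.restrictScalars K) x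
  Lam := φ.Lam
  spec := φ.spec

lemma XRep_res (g : L ≃ₐ[F] L) : XRep K L ℂ (g.restrictScalars K) = XRep F L ℂ g := rfl

/-- **induction** -/
theorem IsReg.ind {φ : StarkMap K L} {χ : (L ≃ₐ[F] L) → ℂ} {r r' : ℂ}
    (h : IsReg (φ.res F) χ r) (h' : IsReg φ (indChar K F L χ) r') : r' = r := by
  classical
  refine h.detOf.sigma h'.detOf (RingHom.id ℂ) fun k => ?_
  rw [RingHom.id_apply]
  have : Fintype (L ≃ₐ[K] L) := Fintype.ofFinite _
  have : Fintype (L ≃ₐ[F] L) := Fintype.ofFinite _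
  unfold tseq
  rw [finsum_eq_sum_of_fintype, finsum_eq_sum_of_fintype]
  have hG : (Nat.card (L ≃ₐ[K] L) : ℂ) ≠ 0 := by exact_mod_cast Nat.card_pos.ne'
  let t : (L ≃ₐ[K] L) → ℂ := fun g => LinearMap.trace ℂ (XX L ℂ) (XRep K L ℂ g ∘ₗ (φ.Lam ^ k))
  have ht : ∀ x g : L ≃ₐ[K] L, t (x * g * x⁻¹) = t g := by
    intro x g
    change LinearMap.trace ℂ (XX L ℂ) (XRep K L ℂ (x * g * x⁻¹) ∘ₗ (φ.Lam ^ k)) = _
    have h1 : XRep K L ℂ (x * g * x⁻¹) ∘ₗ (φ.Lam ^ k)
        = XRep K L ℂ x ∘ₗ (XRep K L ℂ g ∘ₗ (φ.Lam ^ k) ∘ₗ XRep K L ℂ x⁻¹) := by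
      apply LinearMap.ext
      intro a
      rw [map_mul, map_mul]
      simp only [LinearMap.comp_apply, Module.End.mul_apply]
      rw [comm_pow φ.comm]
    rw [h1, LinearMap.trace_comp_comm']
    congr 1
    apply LinearMap.ext
    intro a
    simp only [LinearMap.comp_apply]
    rw [← Module.End.mul_apply (XRep K L ℂ x⁻¹), ← map_mul, inv_mul_cancel, map_one,
      Module.End.one_apply]
  have h2 : ∀ g : L ≃ₐ[K] L, indChar K F L χ g * t g
      = (Nat.card (L ≃ₐ[F] L) : ℂ)⁻¹ * ∑ x : L ≃ₐ[K] L, ∑ h : L ≃ₐ[F] L,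
        (if x * h.restrictScalars K * x⁻¹ = g then χ h * t (h.restrictScalars K) else 0) := by
    intro g
    rw [indChar, finsum_eq_sum_of_fintype, mul_assoc, Finset.sum_mul]
    congr 1
    refine Finset.sum_congr rfl fun x _ => ?_
    rw [finsum_eq_sum_of_fintype, Finset.sum_mul]
    refine Finset.sum_congr rfl fun h _ => ?_
    by_cases hg : h.restrictScalars K = x⁻¹ * g * x
    · rw [finsum_eq_single _ hg (fun h1 h2 => absurd rfl h2), if_pos (by rw [hg]; group), hg]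
      have h3 := ht x⁻¹ g
      rw [inv_inv] at h3
      rw [h3]
    · rw [if_neg (fun h1 => hg (by rw [← h1]; group))]
      have : IsEmpty (h.restrictScalars K = x⁻¹ * g * x) := ⟨hg⟩
      rw [finsum_of_isEmpty, zero_mul]
  change (Nat.card (L ≃ₐ[K] L) : ℂ)⁻¹ * ∑ g, indChar K F L χ g * t g
    = (Nat.card (L ≃ₐ[F] L) : ℂ)⁻¹ * ∑ h : L ≃ₐ[F] L, χ h * t (h.restrictScalars K)
  rw [Finset.sum_congr rfl (fun g _ => h2 g), ← Finset.mul_sum, Finset.sum_comm]
  have h4 : ∀ x : L ≃ₐ[K] L, ∑ g : L ≃ₐ[K] L, ∑ h : L ≃ₐ[F] L,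
      (if x * h.restrictScalars K * x⁻¹ = g then χ h * t (h.restrictScalars K) else 0)
        = ∑ h : L ≃ₐ[F] L, χ h * t (h.restrictScalars K) := by
    intro x
    rw [Finset.sum_comm]
    refine Finset.sum_congr rfl fun h _ => ?_
    rw [Finset.sum_ite_eq Finset.univ, if_pos (Finset.mem_univ _)]
  rw [Finset.sum_congr rfl (fun x _ => h4 x), Finset.sum_const, Finset.card_univ,
    ← Nat.card_eq_fintype_card, nsmul_eq_mul]
  field_simp

end ind

end Pool.Agent.K4H74.SC
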