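import Mathlib
import Pool.Agent.K4H74.SC.Reg

/-!
# The Stark regulator and inflation
-/

set_option autoImplicit false
set_option linter.unusedSectionVars false

namespace Pool.Agent.K4H74.SC

open NumberField Pool.Agent.K4H74.ST
open scoped TensorProduct

section places

variable {L N : Type} [Field L] [NumberField L] [Field N] [NumberField N] [Algebra L N]

/-- the number of extensions of an embedding -/
lemma card_lifts (ψ : L →+* ℂ) :
    Nat.card {φ : N →+* ℂ // φ.comp (algebraMap L N) = ψ} = Module.finrank L N := by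
  have hfin : FiniteDimensional L N := Module.Finite.of_restrictScalars_finite ℚ L N
  let _ : Algebra L ℂ := ψ.toAlgebra
  rw [← AlgHom.card L N ℂ, ← Nat.card_eq_fintype_card]
  refine Nat.card_congr
    { toFun := fun φ => { φ.1 with commutes' := fun x => DFunLike.congr_fun φ.2 x }
      invFun := fun f => ⟨f.toRingHom, RingHom.ext fun x => f.commutes x⟩
      left_inv := fun φ => rfl
      right_inv := fun f => rfl }

lemma sum_emb {k : Type} [Field k] (F : InfinitePlace N → k) :
    ∑ φ : N →+* ℂ, F (InfinitePlace.mk φ) = ∑ w : InfinitePlace N, (w.mult : k) * F w := by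
  classical
  rw [← Finset.sum_fiberwise (s := Finset.univ) (g := fun φ : N →+* ℂ => InfinitePlace.mk φ)]
  refine Finset.sum_congr rfl fun w _ => ?_
  rw [← InfinitePlace.card_filter_mk_eq w, ← nsmul_eq_mul, ← Finset.sum_const]
  refine Finset.sum_congr rfl fun φ hφ => ?_
  rw [(Finset.mem_filter.mp hφ).2]

/-- sums over places in extensions -/
lemma sum_comap {k : Type} [Field k] (F : InfinitePlace L → k) :
    ∑ w : InfinitePlace N, (w.mult : k) * F (w.comap (algebraMap L N))
      = Module.finrank L N * ∑ v : InfinitePlace L, (v.mult : k) * F v := by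
  classical
  rw [← sum_emb (fun w : InfinitePlace N => F (w.comap (algebraMap L N))), ← sum_emb F,
    Finset.mul_sum, ← Finset.sum_fiberwise (s := Finset.univ)
      (g := fun φ : N →+* ℂ => φ.comp (algebraMap L N))]
  refine Finset.sum_congr rfl fun ψ _ => ?_
  have h1 : ∀ φ ∈ Finset.univ.filter (fun φ : N →+* ℂ => φ.comp (algebraMap L N) = ψ),
      F ((InfinitePlace.mk φ).comap (algebraMap L N)) = F (InfinitePlace.mk ψ) := by
    intro φ hφ
    rw [InfinitePlace.comap_mk, (Finset.mem_filter.mp hφ).2]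
  rw [Finset.sum_congr rfl h1, Finset.sum_const, nsmul_eq_mul]
  congr 2
  rw [← card_lifts (N := N) ψ, Nat.card_eq_fintype_card, Fintype.card_subtype]

lemma mult_ne {k : Type} [Field k] [CharZero k] (w : InfinitePlace L) : (w.mult : k) ≠ 0 := by
  have := InfinitePlace.mult_pos (w := w)
  exact_mod_cast this.ne'

variable (L N) in
/-- the map from `k ⊗ X_L` to `k ⊗ X_N` -/
noncomputable def up (k : Type) [Field k] [CharZero k] : XX L k →ₗ[k] XX N k where
  toFun b := ⟨fun w => (w.mult : k) * (b.1 (w.comap (algebraMap L N))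
      / ((w.comap (algebraMap L N)).mult : k)), by
    change ∑ w : InfinitePlace N, (w.mult : k) * (b.1 (w.comap (algebraMap L N))
      / ((w.comap (algebraMap L N)).mult : k)) = 0
    rw [sum_comap (N := N) (fun v : InfinitePlace L => b.1 v / (v.mult : k))]
    have h1 : ∑ v : InfinitePlace L, (v.mult : k) * (b.1 v / (v.mult : k)) = 0 := by
      rw [← b.2]
      refine Finset.sum_congr rfl fun v _ => ?_
      rw [mul_div_cancel₀ _ (mult_ne v)]
    rw [h1, mul_zero]⟩
  map_add' a b := by
    apply Subtype.ext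
    funext w
    change (w.mult : k) * ((a.1 (w.comap (algebraMap L N)) + b.1 (w.comap (algebraMap L N)))
      / ((w.comap (algebraMap L N)).mult : k)) = (w.mult : k) * (a.1 (w.comap (algebraMap L N))
      / ((w.comap (algebraMap L N)).mult : k)) + (w.mult : k) * (b.1 (w.comap (algebraMap L N))
      / ((w.comap (algebraMap L N)).mult : k))
    rw [add_div, mul_add]
  map_smul' c b := by
    apply Subtype.ext
    funext w
    change (w.mult : k) * ((c * b.1 (w.comap (algebraMap L N)))
      / ((w.comap (algebraMap L N)).mult : k)) = c * ((w.mult : k) *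
      (b.1 (w.comap (algebraMap L N)) / ((w.comap (algebraMap L N)).mult : k)))
    ring

lemma up_apply {k : Type} [Field k] [CharZero k] (b : XX L k) (w : InfinitePlace N) :
    (up L N k b).1 w = (w.mult : k) * (b.1 (w.comap (algebraMap L N))
      / ((w.comap (algebraMap L N)).mult : k)) := rfl

lemma up_toC (b : XX L ℚ) : up L N ℂ (toC L b) = toC N (up L N ℚ b) := by
  apply Subtype.ext
  funext w
  rw [up_apply]
  change _ = (((up L N ℚ b).1 w : ℚ) : ℂ)
  rw [up_apply]
  push_cast
  rfl

lemma up_inj {k : Type} [Field k] [CharZero k] : Function.Injective (up L N k) := by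
  have hfin : FiniteDimensional L N := Module.Finite.of_restrictScalars_finite ℚ L N
  intro a b hab
  apply Subtype.ext
  funext v
  obtain ⟨w, rfl⟩ := InfinitePlace.comap_surjective (k := L) (K := N) v
  have h1 := congrFun (congrArg Subtype.val hab) w
  rw [up_apply, up_apply] at h1
  have h2 := mul_left_cancel₀ (mult_ne w) h1
  exact (div_left_inj' (mult_ne (w.comap (algebraMap L N)))).mp h2

end places

section galois

variable {K L N : Type} [Field K] [NumberField K] [Field L] [NumberField L] [Field N]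
  [NumberField N] [Algebra K L] [Algebra L N] [Algebra K N] [IsScalarTower K L N] [IsGalois K L]
  [IsGalois K N]

lemma comap_smul' (g : N ≃ₐ[K] N) (w : InfinitePlace N) :
    (g • w).comap (algebraMap L N)
      = (AlgEquiv.restrictNormalHom L g) • (w.comap (algebraMap L N)) := by
  apply DFunLike.ext
  intro x
  change w (g.symm (algebraMap L N x))
    = w (algebraMap L N ((AlgEquiv.restrictNormalHom L g).symm x))
  congr 1
  have h := AlgEquiv.restrictNormal_commutes g.symm L x
  rw [← h]
  congr 1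
  have h2 : (AlgEquiv.restrictNormalHom L g).symm = AlgEquiv.restrictNormalHom L g⁻¹ := by
    rw [map_inv]; rfl
  rw [h2]
  rfl

lemma up_XRep {k : Type} [Field k] [CharZero k] (g : N ≃ₐ[K] N) (b : XX L k) :
    up L N k (XRep K L k (AlgEquiv.restrictNormalHom L g) b) = XRep K N k g (up L N k b) := by
  apply Subtype.ext
  funext w
  rw [up_apply, XRep_apply, XRep_apply, up_apply, comap_smul' (L := L), map_inv, mult_smul',
    mult_smul']

variable (K) in
lemma up_surj {k : Type} [Field k] [CharZero k] (a : XX N k)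
    (ha : ∀ h : N ≃ₐ[K] N, AlgEquiv.restrictNormalHom L h = 1 → XRep K N k h a = a) :
    ∃ b, up L N k b = a := by
  have hfin : FiniteDimensional L N := Module.Finite.of_restrictScalars_finite ℚ L N
  have hLN : IsGalois L N := IsGalois.tower_top_of_isGalois K L N
  have h1 : ∀ w w' : InfinitePlace N, w.comap (algebraMap L N) = w'.comap (algebraMap L N) →
      a.1 w = a.1 w' ∧ w.mult = w'.mult := by
    intro w w' hw
    obtain ⟨σ, hσ⟩ := InfinitePlace.exists_smul_eq_of_comap_eq hw
    let h : N ≃ₐ[K] N := (σ.restrictScalars K)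
    have hh : AlgEquiv.restrictNormalHom L h⁻¹ = 1 := by
      rw [map_inv, inv_eq_one]
      ext x
      apply FaithfulSMul.algebraMap_injective L N
      have h2 := AlgEquiv.restrictNormal_commutes h L x
      change algebraMap L N (AlgEquiv.restrictNormalHom L h x) = _
      have h3 : AlgEquiv.restrictNormalHom L h x = h.restrictNormal L x := rfl
      rw [h3, h2]
      exact σ.commutes x
    have h4 := congrFun (congrArg Subtype.val (ha h⁻¹ hh)) w
    rw [XRep_apply, inv_inv] at h4
    have h5 : h • w = w' := hσ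
    refine ⟨by rw [← h4, h5], ?_⟩
    rw [← h5, mult_smul']
  choose s hs using fun v : InfinitePlace L => InfinitePlace.comap_surjective (k := L) (K := N) v
  let b : InfinitePlace L → k := fun v => a.1 (s v) * (v.mult : k) / ((s v).mult : k)
  have hb : ∀ w : InfinitePlace N, (w.mult : k) * (b (w.comap (algebraMap L N))
      / ((w.comap (algebraMap L N)).mult : k)) = a.1 w := by
    intro w
    obtain ⟨h2, h3⟩ := h1 (s (w.comap (algebraMap L N))) w (hs _)
    change (w.mult : k) * (a.1 (s _) * ((w.comap (algebraMap L N)).mult : k) / ((s _).mult : k)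
      / ((w.comap (algebraMap L N)).mult : k)) = a.1 w
    rw [h2, h3]
    have h4 : (w.mult : k) ≠ 0 := mult_ne w
    have h5 : ((w.comap (algebraMap L N)).mult : k) ≠ 0 := mult_ne _
    field_simp
  refine ⟨⟨b, ?_⟩, ?_⟩
  · change ∑ v, b v = 0
    have h6 := sum_comap (N := N) (fun v : InfinitePlace L => b v / (v.mult : k))
    rw [Finset.sum_congr rfl (fun w _ => hb w)] at h6
    have h7 : ∑ w, a.1 w = 0 := a.2
    have h8 : ∑ v : InfinitePlace L, (v.mult : k) * (b v / (v.mult : k)) = ∑ v, b v :=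
      Finset.sum_congr rfl fun v _ => by rw [mul_div_cancel₀ _ (mult_ne v)]
    rw [h7, h8] at h6
    have h9 : (Module.finrank L N : k) ≠ 0 := by exact_mod_cast Module.finrank_pos.ne'
    exact (mul_eq_zero.mp h6.symm).resolve_left h9
  · apply Subtype.ext
    funext w
    exact hb w

end galois

section units

variable {L N : Type} [Field L] [NumberField L] [Field N] [NumberField N] [Algebra L N]

variable (L N) in
/-- the inclusion of the units -/
noncomputable def uUp : Additive (𝓞 L)ˣ →ₗ[ℤ] Additive (𝓞 N)ˣ :=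
  AddMonoidHom.toIntLinearMap
    (MonoidHom.toAdditive (Units.map (algebraMap (𝓞 L) (𝓞 N) : 𝓞 L →* 𝓞 N)))

variable (L N) in
/-- the norm of the units -/
noncomputable def uNm [FiniteDimensional L N] : Additive (𝓞 N)ˣ →ₗ[ℤ] Additive (𝓞 L)ˣ :=
  AddMonoidHom.toIntLinearMap
    (MonoidHom.toAdditive (Units.map (RingOfIntegers.norm L : 𝓞 N →* 𝓞 L)))

lemma logVec_uUp (u : Additive (𝓞 L)ˣ) (w : InfinitePlace N) :
    logVec N (uUp L N u) w = (w.mult : ℂ) * (logVec L u (w.comap (algebraMap L N))
      / ((w.comap (algebraMap L N)).mult : ℂ)) := by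
  rw [logVec_apply, logVec_apply]
  have h1 : w (((uUp L N u).toMul : 𝓞 N) : N)
      = (w.comap (algebraMap L N)) ((u.toMul : 𝓞 L) : L) := rfl
  rw [h1]
  have h2 : (((w.comap (algebraMap L N)).mult : ℝ) : ℂ) ≠ 0 := by
    have := mult_ne (k := ℂ) (w.comap (algebraMap L N))
    exact_mod_cast this
  push_cast at h2 ⊢
  field_simp

lemma lamQ_uUp (z : ℚ ⊗[ℤ] Additive (𝓞 L)ˣ) (w : InfinitePlace N) :
    lamQ N ((uUp L N).baseChange ℚ z) w = (w.mult : ℂ) * (lamQ L z (w.comap (algebraMap L N))
      / ((w.comap (algebraMap L N)).mult : ℂ)) := by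
  induction z using TensorProduct.induction_on with
  | zero => simp
  | tmul q u =>
    rw [LinearMap.baseChange_tmul, lamQ_tmul', lamQ_tmul', Pi.smul_apply, Pi.smul_apply,
      logVec_uUp, Rat.smul_def, Rat.smul_def]
    ring
  | add x y hx hy =>
    simp only [map_add, Pi.add_apply]
    rw [hx, hy]
    ring

lemma uNm_uUp [FiniteDimensional L N] (u : Additive (𝓞 L)ˣ) :
    uNm L N (uUp L N u) = Module.finrank L N • u := by
  apply Additive.toMul.injective
  rw [toMul_nsmul]
  apply Units.ext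
  apply RingOfIntegers.ext
  change ((RingOfIntegers.norm L (algebraMap (𝓞 L) (𝓞 N) (u.toMul : 𝓞 L)) : 𝓞 L) : L) = _
  rw [RingOfIntegers.coe_norm]
  have h1 : ((algebraMap (𝓞 L) (𝓞 N) (u.toMul : 𝓞 L) : 𝓞 N) : N)
      = algebraMap L N ((u.toMul : 𝓞 L) : L) := rfl
  rw [h1, Algebra.norm_algebraMap]
  rw [Units.val_pow_eq_pow_val]
  rfl

lemma nm_up [FiniteDimensional L N] (z : ℚ ⊗[ℤ] Additive (𝓞 L)ˣ) :
    (uNm L N).baseChange ℚ ((uUp L N).baseChange ℚ z) = (Module.finrank L N : ℚ) • z := by
  induction z using TensorProduct.induction_on with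
  | zero => simp
  | tmul q u =>
    rw [LinearMap.baseChange_tmul, LinearMap.baseChange_tmul, uNm_uUp, TensorProduct.smul_tmul']
    have h8 : (q ⊗ₜ[ℤ] (Module.finrank L N • u) : ℚ ⊗[ℤ] Additive (𝓞 L)ˣ)
        = Module.finrank L N • (q ⊗ₜ[ℤ] u) :=
      map_nsmul (TensorProduct.mk ℤ ℚ (Additive (𝓞 L)ˣ) q) _ _
    rw [h8, TensorProduct.smul_tmul', nsmul_eq_mul, smul_eq_mul]
  | add x y hx hy => rw [map_add, map_add, hx, hy, smul_add]

lemma uUp_uNm [FiniteDimensional L N] [IsGalois L N] (u : Additive (𝓞 N)ˣ) :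
    uUp L N (uNm L N u) = ∑ᶠ h : N ≃ₐ[L] N, uMap L N h u := by
  classical
  have : Fintype (N ≃ₐ[L] N) := Fintype.ofFinite _
  rw [finsum_eq_sum_of_fintype]
  apply Additive.toMul.injective
  rw [toMul_sum]
  apply Units.ext
  apply RingOfIntegers.ext
  rw [Units.coe_prod]
  change algebraMap (𝓞 L) N (RingOfIntegers.norm L (u.toMul : 𝓞 N)) = _
  have h1 : algebraMap (𝓞 L) N (RingOfIntegers.norm L (u.toMul : 𝓞 N))
      = algebraMap L N (Algebra.norm L ((u.toMul : 𝓞 N) : N)) := by
    rw [← RingOfIntegers.coe_norm]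
    rfl
  rw [h1, Algebra.norm_eq_prod_automorphisms]
  refine Eq.trans ?_ (map_prod (algebraMap (𝓞 N) N)
    (fun h : N ≃ₐ[L] N => (((uMap L N h u).toMul : (𝓞 N)ˣ) : 𝓞 N)) Finset.univ).symm
  exact Finset.prod_congr (by ext; simp) (fun σ _ => rfl)

lemma up_nm [FiniteDimensional L N] [IsGalois L N] (z : ℚ ⊗[ℤ] Additive (𝓞 N)ˣ) :
    (uUp L N).baseChange ℚ ((uNm L N).baseChange ℚ z)
      = ∑ᶠ h : N ≃ₐ[L] N, (uMap L N h).baseChange ℚ z := by
  have : Fintype (N ≃ₐ[L] N) := Fintype.ofFinite _
  rw [finsum_eq_sum_of_fintype]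
  induction z using TensorProduct.induction_on with
  | zero => simp
  | tmul q u =>
    rw [LinearMap.baseChange_tmul, LinearMap.baseChange_tmul, uUp_uNm, finsum_eq_sum_of_fintype,
      TensorProduct.tmul_sum]
    rfl
  | add x y hx hy =>
    simp only [map_add, hx, hy]
    rw [← Finset.sum_add_distrib]

end units

section infl

variable {K L N : Type} [Field K] [NumberField K] [Field L] [NumberField L] [Field N]
  [NumberField N] [Algebra K L] [Algebra L N] [Algebra K N] [IsScalarTower K L N] [IsGalois K L]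
  [IsGalois K N]

lemma uMap_uUp (g : N ≃ₐ[K] N) (u : Additive (𝓞 L)ˣ) :
    uMap K N g (uUp L N u) = uUp L N (uMap K L (AlgEquiv.restrictNormalHom L g) u) := by
  apply Additive.toMul.injective
  apply Units.ext
  apply RingOfIntegers.ext
  change g (algebraMap L N ((u.toMul : 𝓞 L) : L))
    = algebraMap L N (AlgEquiv.restrictNormalHom L g ((u.toMul : 𝓞 L) : L))
  exact (AlgEquiv.restrictNormal_commutes g L _).symm

lemma bc_uMap_uUp (g : N ≃ₐ[K] N) (z : ℚ ⊗[ℤ] Additive (𝓞 L)ˣ) :
    (uMap K N g).baseChange ℚ ((uUp L N).baseChange ℚ z)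
      = (uUp L N).baseChange ℚ ((uMap K L (AlgEquiv.restrictNormalHom L g)).baseChange ℚ z) := by
  induction z using TensorProduct.induction_on with
  | zero => simp
  | tmul q u => simp only [LinearMap.baseChange_tmul, uMap_uUp]
  | add x y hx hy => simp only [map_add, hx, hy]

lemma res_restrict (h : N ≃ₐ[L] N) :
    AlgEquiv.restrictNormalHom L (h.restrictScalars K : N ≃ₐ[K] N) = 1 := by
  ext x
  apply FaithfulSMul.algebraMap_injective L N
  have h2 := AlgEquiv.restrictNormal_commutes (h.restrictScalars K : N ≃ₐ[K] N) L x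
  change algebraMap L N ((h.restrictScalars K : N ≃ₐ[K] N).restrictNormal L x) = _
  rw [h2]
  exact h.commutes x

/-- **the isomorphism `φ` for a subextension** -/
theorem StarkMap.down (φ : StarkMap K N) :
    ∃ φ' : StarkMap K L, ∀ a : XX L ℂ, φ.Lam (up L N ℂ a) = up L N ℂ (φ'.Lam a) := by
  classical
  have hfin : FiniteDimensional L N := Module.Finite.of_restrictScalars_finite ℚ L N
  have hLN : IsGalois L N := IsGalois.tower_top_of_isGalois K L N
  have hft : Fintype (N ≃ₐ[L] N) := Fintype.ofFinite _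
  have hn : (Module.finrank L N : ℚ) ≠ 0 := by exact_mod_cast Module.finrank_pos.ne'
  let jj := (uUp L N).baseChange ℚ
  let nn := (uNm L N).baseChange ℚ
  have hjinj : Function.Injective jj := by
    rw [injective_iff_map_eq_zero]
    intro z hz
    have h1 := nm_up (L := L) (N := N) z
    change nn (jj z) = _ at h1
    rw [hz, map_zero] at h1
    exact (smul_eq_zero.mp h1.symm).resolve_left hn
  let f : XX L ℚ →ₗ[ℚ] (ℚ ⊗[ℤ] Additive (𝓞 L)ˣ) :=
    (Module.finrank L N : ℚ)⁻¹ • (nn ∘ₗ (φ.phi : XX N ℚ →ₗ[ℚ] _) ∘ₗ up L N ℚ)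
  have hf : ∀ x, jj (f x) = φ.phi (up L N ℚ x) := by
    intro x
    change jj ((Module.finrank L N : ℚ)⁻¹ • nn (φ.phi (up L N ℚ x))) = _
    rw [map_smul]
    have h1 := up_nm (L := L) (N := N) (φ.phi (up L N ℚ x))
    change jj (nn _) = _ at h1
    rw [h1, finsum_eq_sum_of_fintype]
    have h2 : ∀ h : N ≃ₐ[L] N, (uMap L N h).baseChange ℚ (φ.phi (up L N ℚ x))
        = φ.phi (up L N ℚ x) := by
      intro h
      have h3 := φ.equi (h.restrictScalars K) (up L N ℚ x)
      rw [← up_XRep, res_restrict, map_one, Module.End.one_apply] at h3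
      exact h3.symm
    rw [Finset.sum_congr rfl (fun h _ => h2 h), Finset.sum_const, Finset.card_univ,
      ← Nat.card_eq_fintype_card, IsGalois.card_aut_eq_finrank, ← Nat.cast_smul_eq_nsmul ℚ,
      smul_smul, inv_mul_cancel₀ hn, one_smul]
  have hfinj : Function.Injective f := by
    rw [injective_iff_map_eq_zero]
    intro x hx
    have h1 := hf x
    rw [hx, map_zero] at h1
    have h2 : up L N ℚ x = 0 := φ.phi.injective (by rw [← h1, map_zero])
    exact up_inj (L := L) (N := N) (by rw [h2, map_zero])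
  obtain ⟨hfd, hle⟩ := fin_units (L := L)
  have hXfd : FiniteDimensional ℚ (XX L ℚ) := inferInstance
  have hbij : Function.Bijective f := by
    refine ⟨hfinj, ?_⟩
    have h5 := LinearMap.finrank_le_finrank_of_injective hfinj
    rw [finrank_XX] at h5
    have h6 : Module.finrank ℚ (XX L ℚ) = Module.finrank ℚ (ℚ ⊗[ℤ] Additive (𝓞 L)ˣ) := by
      rw [finrank_XX]
      exact le_antisymm h5 hle
    exact (LinearMap.injective_iff_surjective_of_finrank_eq_finrank h6).mp hfinj
  obtain ⟨F, hF⟩ := exists_ext_lam (L := L) f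
  refine ⟨{ phi := LinearEquiv.ofBijective f hbij
            equi := ?_
            Lam := F
            spec := hF }, ?_⟩
  · intro g x
    change f (XRep K L ℚ g x) = (uMap K L g).baseChange ℚ (f x)
    obtain ⟨g', rfl⟩ := AlgEquiv.restrictNormalHom_surjective (F := K) (K₁ := L) N g
    apply hjinj
    rw [hf, up_XRep, φ.equi, ← hf]
    exact bc_uMap_uUp g' (f x)
  · intro a
    change φ.Lam (up L N ℂ a) = up L N ℂ (F a)
    have h1 : φ.Lam ∘ₗ (up L N ℂ) = (up L N ℂ) ∘ₗ F := by
      apply XX_ext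
      intro x
      rw [LinearMap.comp_apply, LinearMap.comp_apply, up_toC]
      apply Subtype.ext
      rw [φ.spec, ← hf]
      funext w
      rw [up_apply, hF]
      exact lamQ_uUp (f x) w
    exact LinearMap.congr_fun h1 a

/-- **inflation** -/
theorem IsReg.infl {φ : StarkMap K N} {φ' : StarkMap K L}
    (hφ : ∀ a : XX L ℂ, φ.Lam (up L N ℂ a) = up L N ℂ (φ'.Lam a)) {χ : (L ≃ₐ[K] L) → ℂ}
    {r r' : ℂ} (h : IsReg φ' χ r) (h' : IsReg φ (fun g => χ (AlgEquiv.restrictNormalHom L g)) r') :
    r' = r := by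
  classical
  refine h.detOf.sigma h'.detOf (RingHom.id ℂ) fun k => ?_
  rw [RingHom.id_apply]
  have hft : Fintype (L ≃ₐ[K] L) := Fintype.ofFinite _
  have hft' : Fintype (N ≃ₐ[K] N) := Fintype.ofFinite _
  let π : (N ≃ₐ[K] N) →* (L ≃ₐ[K] L) := AlgEquiv.restrictNormalHom L
  have hπ : Function.Surjective π := AlgEquiv.restrictNormalHom_surjective N
  have hker : ∀ x : L ≃ₐ[K] L, (Finset.univ.filter fun g => π g = x).card = Nat.card π.ker := by
    intro x
    obtain ⟨y, rfl⟩ := hπ x
    rw [← Fintype.card_subtype, ← Nat.card_eq_fintype_card]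
    refine Nat.card_congr
      { toFun := fun g => ⟨g.1 * y⁻¹, by
          rw [MonoidHom.mem_ker, map_mul, map_inv, g.2, mul_inv_cancel]⟩
        invFun := fun h => ⟨h.1 * y, by
          rw [map_mul, (MonoidHom.mem_ker.mp h.2), one_mul]⟩
        left_inv := fun g => Subtype.ext (by simp)
        right_inv := fun h => Subtype.ext (by simp) }
  have hcard : Nat.card (N ≃ₐ[K] N) = Nat.card π.ker * Nat.card (L ≃ₐ[K] L) := by
    have h1 := π.ker.index_mul_card
    rw [Subgroup.index_ker, MonoidHom.range_eq_top.mpr hπ, Subgroup.card_top] at h1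
    rw [← h1, mul_comm]
  have hkc : (Nat.card π.ker : ℂ) ≠ 0 := by exact_mod_cast Nat.card_pos.ne'
  unfold tseq
  rw [finsum_eq_sum_of_fintype, finsum_eq_sum_of_fintype, hcard]
  -- the two operators
  let A : XX N ℂ →ₗ[ℂ] XX N ℂ := ∑ g : N ≃ₐ[K] N, χ (π g) • (XRep K N ℂ g ∘ₗ (φ.Lam ^ k))
  let B : XX L ℂ →ₗ[ℂ] XX L ℂ := ∑ g : L ≃ₐ[K] L, χ g • (XRep K L ℂ g ∘ₗ (φ'.Lam ^ k))
  have hpow : ∀ (k : ℕ) (a : XX L ℂ), (φ.Lam ^ k) (up L N ℂ a) = up L N ℂ ((φ'.Lam ^ k) a) := by
    intro k
    induction k with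
    | zero => intro a; rfl
    | succ k ih =>
      intro a
      rw [pow_succ, Module.End.mul_apply, hφ, ih, pow_succ, Module.End.mul_apply]
  have hAB : ∀ a, A (up L N ℂ a) = (Nat.card π.ker : ℂ) • up L N ℂ (B a) := by
    intro a
    simp only [A, B, LinearMap.sum_apply, LinearMap.smul_apply, map_sum, map_smul,
      LinearMap.comp_apply, hpow]
    have h1 : ∀ g : N ≃ₐ[K] N, χ (π g) • XRep K N ℂ g (up L N ℂ ((φ'.Lam ^ k) a))
        = (fun x : L ≃ₐ[K] L => χ x • up L N ℂ (XRep K L ℂ x ((φ'.Lam ^ k) a))) (π g) := by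
      intro g
      change _ = χ (π g) • up L N ℂ (XRep K L ℂ (π g) ((φ'.Lam ^ k) a))
      rw [up_XRep]
    rw [Finset.sum_congr rfl (fun g _ => h1 g), ← Finset.sum_fiberwise (s := Finset.univ)
      (g := fun g : N ≃ₐ[K] N => π g), Finset.smul_sum]
    refine Finset.sum_congr rfl fun x _ => ?_
    rw [← hker x, Nat.cast_smul_eq_nsmul ℂ, ← Finset.sum_const]
    refine Finset.sum_congr rfl fun g hg => ?_
    rw [(Finset.mem_filter.mp hg).2]
  have hAinv : ∀ a, ∃ b, up L N ℂ b = A a := by
    intro a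
    refine up_surj K (A a) fun h hh => ?_
    simp only [A, LinearMap.sum_apply, LinearMap.smul_apply, map_sum, map_smul,
      LinearMap.comp_apply]
    conv_rhs => rw [← Equiv.sum_comp (Equiv.mulLeft h)]
    refine Finset.sum_congr rfl fun g _ => ?_
    change χ (π g) • XRep K N ℂ h (XRep K N ℂ g ((φ.Lam ^ k) a))
      = χ (π (h * g)) • XRep K N ℂ (h * g) ((φ.Lam ^ k) a)
    have h2 : π h = 1 := hh
    rw [map_mul, h2, one_mul, map_mul]
    rfl
  have htr : LinearMap.trace ℂ _ A = (Nat.card π.ker : ℂ) * LinearMap.trace ℂ _ B :=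
    trace_transfer (up L N ℂ) up_inj A B _ hAB hAinv
  have h4 : LinearMap.trace ℂ _ A = ∑ g : N ≃ₐ[K] N, χ (π g) *
      LinearMap.trace ℂ (XX N ℂ) (XRep K N ℂ g ∘ₗ (φ.Lam ^ k)) := by
    simp only [A, map_sum, map_smul, smul_eq_mul]
  have h5 : LinearMap.trace ℂ _ B = ∑ g : L ≃ₐ[K] L, χ g *
      LinearMap.trace ℂ (XX L ℂ) (XRep K L ℂ g ∘ₗ (φ'.Lam ^ k)) := by
    simp only [B, map_sum, map_smul, smul_eq_mul]
  rw [← h5]
  change _ * (∑ g : N ≃ₐ[K] N, χ (π g) * _) = _
  rw [← h4, htr]
  push_cast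
  field_simp

end infl

end Pool.Agent.K4H74.SC
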