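import Mathlib
import Pool.Agent.K4H74.SC.Infl
import Pool.Agent.K4H74.SC.ArtL
import Pool.Agent.K4H74.ST.Chr

/-!
# Stark's quotient is an inductive invariant
-/

set_option autoImplicit false
set_option linter.unusedSectionVars false

namespace Pool.Agent.K4H74.SC

open NumberField Pool.Agent.K4H74.ST Pool.Agent.R389 Pool.Agent.H541R3.ART Pool.Agent.W446.AS

section galois

variable {K F L : Type} [Field K] [NumberField K] [Field F] [NumberField F] [Field L]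
  [NumberField L] [Algebra K F] [Algebra F L] [Algebra K L] [IsScalarTower K F L]

lemma indChar_eq (χ : (L ≃ₐ[F] L) → ℂ) :
    ∃ (H : Subgroup (L ≃ₐ[K] L)) (e : H ≃* (L ≃ₐ[F] L)),
      indChar K F L χ = ind H (fun h => χ (e h)) := by
  classical
  let r : (L ≃ₐ[F] L) →* (L ≃ₐ[K] L) :=
    { toFun := fun h => h.restrictScalars K
      map_one' := rfl
      map_mul' := fun _ _ => rfl }
  have hr : Function.Injective r := by
    intro a b hab
    ext x
    exact DFunLike.congr_fun hab x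
  let e : r.range ≃* (L ≃ₐ[F] L) := (MonoidHom.ofInjective hr).symm
  have he : ∀ h : r.range, (e h).restrictScalars K = (h : L ≃ₐ[K] L) := by
    intro h
    have h2 := (MonoidHom.ofInjective hr).apply_symm_apply h
    exact congrArg Subtype.val h2
  refine ⟨r.range, e, ?_⟩
  have hc : Nat.card r.range = Nat.card (L ≃ₐ[F] L) := Nat.card_congr e.toEquiv
  funext g
  rw [ind, indChar, hc]
  congr 1
  refine finsum_congr fun x => ?_
  by_cases hx : x⁻¹ * g * x ∈ r.range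
  · rw [ext_mem _ _ hx]
    rw [finsum_eq_single _ (e ⟨_, hx⟩)]
    · rw [finsum_eq_single _ (he ⟨_, hx⟩)]
      intro h1 h2
      exact absurd rfl h2
    · intro h hh
      refine @finsum_of_isEmpty _ _ _ ⟨fun h1 => ?_⟩ _
      apply hh
      apply e.symm.injective
      rw [MulEquiv.symm_apply_apply]
      apply Subtype.ext
      have h2 := he (e.symm h)
      rw [MulEquiv.apply_symm_apply] at h2
      rw [← h2, h1]
  · rw [ext_not _ _ hx]
    apply finsum_eq_zero_of_forall_eq_zero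
    intro h
    refine @finsum_of_isEmpty _ _ _ ⟨fun h1 => ?_⟩ _
    apply hx
    rw [← h1]
    have h2 := he (e.symm h)
    rw [MulEquiv.apply_symm_apply] at h2
    rw [h2]
    exact (e.symm h).2

lemma isChar_indChar {χ : (L ≃ₐ[F] L) → ℂ} (h : IsChar χ) : IsChar (indChar K F L χ) := by
  obtain ⟨H, e, he⟩ := indChar_eq (K := K) χ
  rw [he]
  apply isChar_ind
  obtain ⟨V, _, _, _, ρ, rfl⟩ := h
  exact ⟨V, inferInstance, inferInstance, inferInstance, ρ.comp e.toMonoidHom, rfl⟩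

lemma indChar_sigma (σ : ℂ →+* ℂ) (χ : (L ≃ₐ[F] L) → ℂ) (g : L ≃ₐ[K] L) :
    σ (indChar K F L χ g) = indChar K F L (fun h => σ (χ h)) g := by
  classical
  have : Fintype (L ≃ₐ[K] L) := Fintype.ofFinite _
  have : Fintype (L ≃ₐ[F] L) := Fintype.ofFinite _
  rw [indChar, indChar, map_mul, map_inv₀, map_natCast, finsum_eq_sum_of_fintype,
    finsum_eq_sum_of_fintype, map_sum]
  congr 1
  refine Finset.sum_congr rfl fun x _ => ?_
  rw [finsum_eq_sum_of_fintype, finsum_eq_sum_of_fintype, map_sum]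
  refine Finset.sum_congr rfl fun h _ => ?_
  by_cases hx : h.restrictScalars K = x⁻¹ * g * x
  · rw [finsum_eq_single _ hx (fun h1 h2 => absurd rfl h2),
      finsum_eq_single _ hx (fun h1 h2 => absurd rfl h2)]
  · have : IsEmpty (h.restrictScalars K = x⁻¹ * g * x) := ⟨hx⟩
    rw [finsum_of_isEmpty, finsum_of_isEmpty, map_zero]

end galois

section stark

/-- `a = A(χ, φ) = R(χ, φ) / c(χ)` -/
def IsA (c : ArtinInvariant ℂˣ) {K L : Type} [Field K] [NumberField K] [Field L] [NumberField L]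
    [Algebra K L] [IsGalois K L] (φ : StarkMap K L) (χ : (L ≃ₐ[K] L) → ℂ) (a : ℂ) : Prop :=
  ∃ r : ℂ, IsReg φ χ r ∧ a = r / (c.val K L χ : ℂˣ)

/-- Stark's conjecture for the character `χ` and the automorphism `σ` of `ℂ` -/
def Stark (c : ArtinInvariant ℂˣ) (σ : ℂ ≃+* ℂ) (K L : Type) [Field K] [NumberField K] [Field L]
    [NumberField L] [Algebra K L] [IsGalois K L] (χ : (L ≃ₐ[K] L) → ℂ) : Prop :=
  ∀ (φ : StarkMap K L) (a a' : ℂ), IsA c φ χ a → IsA c φ (fun g => σ (χ g)) a' → σ a = a'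

/-- Stark's conjecture up to sign for the character `χ` and the automorphism `σ` of `ℂ` -/
def StarkSign (c : ArtinInvariant ℂˣ) (σ : ℂ ≃+* ℂ) (K L : Type) [Field K] [NumberField K]
    [Field L] [NumberField L] [Algebra K L] [IsGalois K L] (χ : (L ≃ₐ[K] L) → ℂ) : Prop :=
  ∀ (φ : StarkMap K L) (a a' : ℂ), IsA c φ χ a → IsA c φ (fun g => σ (χ g)) a' →
    σ a = a' ∨ σ a = -a'

variable (c : ArtinInvariant ℂˣ)

variable {K L : Type} [Field K] [NumberField K] [Field L] [NumberField L] [Algebra K L]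
  [IsGalois K L]

variable {c}

lemma IsA.ne {φ : StarkMap K L} {χ : (L ≃ₐ[K] L) → ℂ} {a : ℂ} (h : IsA c φ χ a) : a ≠ 0 := by
  obtain ⟨r, hr, rfl⟩ := h
  exact div_ne_zero hr.ne (Units.ne_zero _)

lemma IsA.add {φ : StarkMap K L} {χ χ' : (L ≃ₐ[K] L) → ℂ} (hχ : IsChar χ) (hχ' : IsChar χ')
    {a a' b : ℂ} (h : IsA c φ χ a) (h' : IsA c φ χ' a') (hb : IsA c φ (χ + χ') b) :
    b = a * a' := by
  obtain ⟨r, hr, rfl⟩ := h
  obtain ⟨r', hr', rfl⟩ := h'
  obtain ⟨s, hs, rfl⟩ := hb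
  rw [hr.add hr' hs, c.val_add K L χ χ' hχ hχ', Units.val_mul, div_mul_div_comm]

lemma IsA.exists (c : ArtinInvariant ℂˣ) (φ : StarkMap K L) {χ : (L ≃ₐ[K] L) → ℂ}
    (h : IsChar χ) : ∃ a, IsA c φ χ a := by
  obtain ⟨r, hr⟩ := IsReg.exists φ h
  exact ⟨_, r, hr, rfl⟩

variable (c)

/-- `v` is the Stark quotient `A(χ, φ)^σ / A(χ^σ, φ)`, for every `φ` -/
def IsVal (σ : ℂ ≃+* ℂ) (K L : Type) [Field K] [NumberField K] [Field L] [NumberField L]
    [Algebra K L] [IsGalois K L] (χ : (L ≃ₐ[K] L) → ℂ) (v : ℂˣ) : Prop :=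
  ∀ (φ : StarkMap K L) (a a' : ℂ), IsA c φ χ a → IsA c φ (fun g => σ (χ g)) a' → σ a = v * a'

variable {c}

lemma isVal_of (σ : ℂ ≃+* ℂ) {χ : (L ≃ₐ[K] L) → ℂ} (h : IsChar χ)
    {φ : StarkMap K L} {a a' : ℂ} (ha : IsA c φ χ a) (ha' : IsA c φ (fun g => σ (χ g)) a') {v : ℂˣ}
    (hv : σ a = v * a') : IsVal c σ K L χ v := by
  intro φ' b b' hb hb'
  obtain ⟨r, hr, rfl⟩ := ha
  obtain ⟨r', hr', rfl⟩ := ha'
  obtain ⟨s, hs, rfl⟩ := hb
  obtain ⟨s', hs', rfl⟩ := hb'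
  have h1 := IsReg.change σ.toRingHom h (isChar_sigma h σ.toRingHom) hr hs hr' hs'
  change s' * σ r = r' * σ s at h1
  rw [map_div₀] at hv ⊢
  have e1 : σ ((c.val K L χ : ℂˣ) : ℂ) ≠ 0 := (map_ne_zero σ).mpr (Units.ne_zero _)
  have e2 : ((c.val K L (fun g => σ (χ g)) : ℂˣ) : ℂ) ≠ 0 := Units.ne_zero _
  have e3 : r' ≠ 0 := hr'.ne
  rw [div_eq_iff e1] at hv ⊢
  rw [hv] at h1
  apply mul_left_cancel₀ e3
  rw [← h1]
  field_simp

lemma exists_isVal (c : ArtinInvariant ℂˣ) (σ : ℂ ≃+* ℂ) {χ : (L ≃ₐ[K] L) → ℂ} (h : IsChar χ) :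
    ∃ v, IsVal c σ K L χ v := by
  obtain ⟨φ⟩ := exists_StarkMap (L := L) K
  obtain ⟨a, ha⟩ := IsA.exists c φ h
  obtain ⟨a', ha'⟩ := IsA.exists c φ (isChar_sigma h σ.toRingHom)
  have e1 : σ a ≠ 0 := (map_ne_zero σ).mpr ha.ne
  refine ⟨Units.mk0 (σ a / a') (div_ne_zero e1 ha'.ne), isVal_of σ h ha ha' ?_⟩
  rw [Units.val_mk0, div_mul_cancel₀ _ ha'.ne]

lemma IsVal.unique {σ : ℂ ≃+* ℂ} {χ : (L ≃ₐ[K] L) → ℂ} (h : IsChar χ)
    {v v' : ℂˣ} (hv : IsVal c σ K L χ v) (hv' : IsVal c σ K L χ v') : v = v' := by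
  obtain ⟨φ⟩ := exists_StarkMap (L := L) K
  obtain ⟨a, ha⟩ := IsA.exists c φ h
  obtain ⟨a', ha'⟩ := IsA.exists c φ (isChar_sigma h σ.toRingHom)
  have h1 := hv φ a a' ha ha'
  rw [hv' φ a a' ha ha'] at h1
  exact (Units.ext (mul_right_cancel₀ ha'.ne h1)).symm

variable (c)

open Classical in
/-- the value -/
noncomputable def sval (σ : ℂ ≃+* ℂ) (K L : Type) [Field K] [NumberField K] [Field L]
    [NumberField L] [Algebra K L] [IsGalois K L] (χ : (L ≃ₐ[K] L) → ℂ) : ℂˣ :=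
  if h : ∃ v, IsVal c σ K L χ v then h.choose else 1

variable {c}

lemma sval_spec (σ : ℂ ≃+* ℂ) {χ : (L ≃ₐ[K] L) → ℂ} (h : IsChar χ) :
    IsVal c σ K L χ (sval c σ K L χ) := by
  have h1 := exists_isVal c σ h
  rw [sval, dif_pos h1]
  exact h1.choose_spec

lemma sval_eq {σ : ℂ ≃+* ℂ} {χ : (L ≃ₐ[K] L) → ℂ} (h : IsChar χ) {v : ℂˣ}
    (hv : IsVal c σ K L χ v) : sval c σ K L χ = v :=
  IsVal.unique h (sval_spec σ h) hv

variable (c)

/-- **Stark's quotient as an inductive invariant** -/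
noncomputable def starkInv (σ : ℂ ≃+* ℂ) : ArtinInvariant ℂˣ where
  val K L _ _ _ _ _ _ χ := sval c σ K L χ
  val_add K L _ _ _ _ _ _ χ χ' h h' := by
    apply sval_eq (h.add h')
    obtain ⟨φ⟩ := exists_StarkMap (L := L) K
    obtain ⟨a, ha⟩ := IsA.exists c φ h
    obtain ⟨b, hb⟩ := IsA.exists c φ (isChar_sigma h σ.toRingHom)
    obtain ⟨a', ha'⟩ := IsA.exists c φ h'
    obtain ⟨b', hb'⟩ := IsA.exists c φ (isChar_sigma h' σ.toRingHom)
    obtain ⟨d, hd⟩ := IsA.exists c φ (h.add h')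
    obtain ⟨e, he⟩ := IsA.exists c φ (isChar_sigma (h.add h') σ.toRingHom)
    refine isVal_of σ (h.add h') hd he ?_
    have h1 : (fun g => σ ((χ + χ') g)) = (fun g => σ (χ g)) + (fun g => σ (χ' g)) := by
      funext g
      exact map_add σ _ _
    have he' : IsA c φ ((fun g => σ (χ g)) + (fun g => σ (χ' g))) e := by
      rw [← h1]; exact he
    rw [ha.add h h' ha' hd, hb.add (isChar_sigma h σ.toRingHom) (isChar_sigma h' σ.toRingHom)
      hb' he', map_mul, sval_spec σ h φ a b ha hb, sval_spec σ h' φ a' b' ha' hb', Units.val_mul]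
    ring
  val_infl K L N _ _ _ _ _ _ _ _ _ _ _ _ χ h := by
    have hN : IsChar (fun g : N ≃ₐ[K] N => χ (AlgEquiv.restrictNormalHom L g)) := by
      obtain ⟨V, _, _, _, ρ, rfl⟩ := h
      exact ⟨V, inferInstance, inferInstance, inferInstance,
        ρ.comp (AlgEquiv.restrictNormalHom L), rfl⟩
    apply sval_eq hN
    obtain ⟨φ⟩ := exists_StarkMap (L := N) K
    obtain ⟨φ', hφ⟩ := φ.down (L := L)
    obtain ⟨a, r, hr, rfl⟩ := IsA.exists c φ' h
    obtain ⟨b, s, hs, rfl⟩ := IsA.exists c φ' (isChar_sigma h σ.toRingHom)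
    obtain ⟨r', hr'⟩ := IsReg.exists φ hN
    obtain ⟨s', hs'⟩ := IsReg.exists φ (isChar_sigma hN σ.toRingHom)
    have h1 : r' = r := IsReg.infl hφ hr hr'
    have h2 : s' = s := IsReg.infl hφ hs hs'
    subst h1 h2
    have i1 := c.val_infl K L N χ h
    have i2 := c.val_infl K L N (fun g => σ (χ g)) (isChar_sigma h σ.toRingHom)
    have h3 : IsA c φ (fun g : N ≃ₐ[K] N => χ (AlgEquiv.restrictNormalHom L g))
        (r' / (c.val K L χ : ℂˣ)) := ⟨r', hr', by rw [i1]⟩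
    have h4 : IsA c φ (fun g : N ≃ₐ[K] N => σ (χ (AlgEquiv.restrictNormalHom L g)))
        (s' / (c.val K L (fun g => σ (χ g)) : ℂˣ)) := ⟨s', hs', by rw [i2]⟩
    exact isVal_of σ hN h3 h4 (sval_spec σ h φ' _ _ ⟨r', hr, rfl⟩ ⟨s', hs, rfl⟩)
  val_ind K F L _ _ _ _ _ _ _ _ _ _ _ _ χ h := by
    have hi : IsChar (indChar K F L χ) := isChar_indChar h
    apply sval_eq hi
    obtain ⟨φ⟩ := exists_StarkMap (L := L) K
    obtain ⟨a, r, hr, rfl⟩ := IsA.exists c (φ.res F) h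
    obtain ⟨b, s, hs, rfl⟩ := IsA.exists c (φ.res F) (isChar_sigma h σ.toRingHom)
    obtain ⟨r', hr'⟩ := IsReg.exists φ hi
    obtain ⟨s', hs'⟩ := IsReg.exists φ (isChar_sigma hi σ.toRingHom)
    have h0 : (fun g => σ.toRingHom (indChar K F L χ g))
        = indChar K F L (fun g => σ.toRingHom (χ g)) := funext fun g => indChar_sigma _ _ _
    rw [h0] at hs'
    have h1 : r' = r := IsReg.ind hr hr'
    have h2 : s' = s := IsReg.ind hs hs'
    subst h1 h2
    have i1 := c.val_ind K F L χ h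
    have i2 := c.val_ind K F L (fun g => σ.toRingHom (χ g)) (isChar_sigma h σ.toRingHom)
    have h3 : IsA c φ (indChar K F L χ) (r' / (c.val F L χ : ℂˣ)) := ⟨r', hr', by rw [i1]⟩
    have h4 : IsA c φ (fun g => σ (indChar K F L χ g))
        (s' / (c.val F L (fun g => σ.toRingHom (χ g)) : ℂˣ)) := by
      change IsA c φ (fun g => σ.toRingHom (indChar K F L χ g)) _
      rw [h0]
      exact ⟨s', hs', by rw [i2]⟩
    exact isVal_of σ hi h3 h4 (sval_spec σ h (φ.res F) _ _ ⟨r', hr, rfl⟩ ⟨s', hs, rfl⟩)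

lemma stark_iff (σ : ℂ ≃+* ℂ) {χ : (L ≃ₐ[K] L) → ℂ} (h : IsChar χ) :
    Stark c σ K L χ ↔ (starkInv c σ).val K L χ = 1 := by
  constructor
  · intro hS
    apply sval_eq h
    intro φ a a' ha ha'
    rw [Units.val_one, one_mul]
    exact hS φ a a' ha ha'
  · intro hS φ a a' ha ha'
    have h1 := sval_spec σ h φ a a' ha ha'
    change sval c σ K L χ = 1 at hS
    rw [hS, Units.val_one, one_mul] at h1
    exact h1

lemma starkSign_iff (σ : ℂ ≃+* ℂ) {χ : (L ≃ₐ[K] L) → ℂ} (h : IsChar χ)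
    (h2 : (starkInv c σ).val K L χ ^ 2 = 1) : StarkSign c σ K L χ := by
  intro φ a a' ha ha'
  have h1 := sval_spec σ h φ a a' ha ha'
  change sval c σ K L χ ^ 2 = 1 at h2
  have h3 : ((sval c σ K L χ : ℂˣ) : ℂ) ^ 2 = 1 := by
    rw [← Units.val_pow_eq_pow_val, h2, Units.val_one]
  have h5 : ((sval c σ K L χ : ℂˣ) : ℂ) * ((sval c σ K L χ : ℂˣ) : ℂ) = 1 := by
    rw [← pow_two]; exact h3
  rcases mul_self_eq_one_iff.mp h5 with h4 | h4
  · left
    rw [h1, h4, one_mul]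
  · right
    rw [h1, h4, neg_one_mul]

end stark

end Pool.Agent.K4H74.SC
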