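import Mathlib
import Pool.Agent.K4H74.SC.ArtL

/-!
# Convergence of the Artin L-series for `Re s > 1`
-/

set_option autoImplicit false
set_option linter.unusedSectionVars false

namespace Pool.Agent.K4H74.SC

open NumberField Ideal Pool.Agent.K4H74.ST IsDedekindDomain

section primes

variable (K : Type) [Field K] [NumberField K]

/-- the rational prime below -/
noncomputable def bel (q : HeightOneSpectrum (𝓞 K)) : ℕ := absNorm (under ℤ q.asIdeal)

variable {K}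

lemma bel_prime (q : HeightOneSpectrum (𝓞 K)) : (bel K q).Prime := by
  have := q.isPrime
  have : NeZero q.asIdeal := ⟨q.ne_bot⟩
  exact Nat.absNorm_under_prime q.asIdeal

lemma absNorm_pos (q : HeightOneSpectrum (𝓞 K)) : 0 < absNorm q.asIdeal :=
  Nat.pos_of_ne_zero (fun h => q.ne_bot (absNorm_eq_zero_iff.mp h))

lemma bel_le (q : HeightOneSpectrum (𝓞 K)) : bel K q ≤ absNorm q.asIdeal :=
  Nat.le_of_dvd (absNorm_pos q) (Int.absNorm_under_dvd_absNorm q.asIdeal)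

lemma two_le_absNorm (q : HeightOneSpectrum (𝓞 K)) : 2 ≤ absNorm q.asIdeal :=
  (bel_prime q).two_le.trans (bel_le q)

lemma fibre_card (T : Finset (HeightOneSpectrum (𝓞 K))) (n : ℕ) :
    (T.filter (fun q => bel K q = n)).card ≤ Module.finrank ℚ K := by
  classical
  by_cases hn : n.Prime
  · let I : Ideal ℤ := span {(n : ℤ)}
    have hI : I ≠ ⊥ := by
      simp only [I, ne_eq, span_singleton_eq_bot]
      exact_mod_cast hn.ne_zero
    have hIp : I.IsPrime := (span_singleton_prime (by exact_mod_cast hn.ne_zero)).mpr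
      (Nat.prime_iff_prime_int.mp hn)
    have hIm : I.IsMaximal := hIp.isMaximal hI
    have h1 := Ideal.card_primesOverFinset_le_finrank (R := ℤ) (S := 𝓞 K) (K := ℚ) (L := K)
      (p := I) hI
    refine le_trans ?_ h1
    refine Finset.card_le_card_of_injOn (fun q => q.asIdeal) ?_ ?_
    · intro q hq
      rw [Finset.mem_coe, Finset.mem_filter] at hq
      rw [Finset.mem_coe, IsDedekindDomain.mem_primesOverFinset_iff hI]
      refine ⟨q.isPrime, ⟨?_⟩⟩
      have h2 : span {((absNorm (under ℤ q.asIdeal) : ℕ) : ℤ)} = under ℤ q.asIdeal :=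
        Int.ideal_span_absNorm_eq_self _
      rw [← h2]
      change I = span {((bel K q : ℕ) : ℤ)}
      rw [hq.2]
    · intro q _ q' _ h
      exact HeightOneSpectrum.ext h
  · have h1 : T.filter (fun q => bel K q = n) = ∅ := by
      rw [Finset.filter_eq_empty_iff]
      intro q _ h
      exact hn (h ▸ bel_prime q)
    rw [h1, Finset.card_empty]
    exact Nat.zero_le _

/-- the sum over the primes converges -/
theorem summable_absNorm {t : ℝ} (ht : 1 < t) :
    Summable (fun q : HeightOneSpectrum (𝓞 K) => ((absNorm q.asIdeal : ℕ) : ℝ) ^ (-t)) := by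
  classical
  have h0 : Summable (fun n : ℕ => ((n : ℕ) : ℝ) ^ (-t)) :=
    Real.summable_nat_rpow.mpr (by linarith)
  have hpos : ∀ n : ℕ, 0 ≤ ((n : ℕ) : ℝ) ^ (-t) := fun n => Real.rpow_nonneg (Nat.cast_nonneg _) _
  refine summable_of_sum_le (c := Module.finrank ℚ K * ∑' n : ℕ, ((n : ℕ) : ℝ) ^ (-t))
    (fun q => hpos _) fun T => ?_
  calc ∑ q ∈ T, ((absNorm q.asIdeal : ℕ) : ℝ) ^ (-t)
      ≤ ∑ q ∈ T, ((bel K q : ℕ) : ℝ) ^ (-t) := by
        refine Finset.sum_le_sum fun q _ => ?_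
        refine Real.rpow_le_rpow_of_nonpos ?_ ?_ (by linarith)
        · exact_mod_cast (bel_prime q).pos
        · exact_mod_cast bel_le q
    _ = ∑ n ∈ T.image (bel K), ∑ q ∈ T.filter (fun q => bel K q = n),
          ((bel K q : ℕ) : ℝ) ^ (-t) :=
        (Finset.sum_fiberwise_of_maps_to (fun q hq => Finset.mem_image_of_mem _ hq) _).symm
    _ = ∑ n ∈ T.image (bel K), ((T.filter (fun q => bel K q = n)).card : ℝ) *
          ((n : ℕ) : ℝ) ^ (-t) := by
        refine Finset.sum_congr rfl fun n _ => ?_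
        rw [← nsmul_eq_mul, ← Finset.sum_const]
        refine Finset.sum_congr rfl fun q hq => ?_
        rw [(Finset.mem_filter.mp hq).2]
    _ ≤ ∑ n ∈ T.image (bel K), (Module.finrank ℚ K : ℝ) * ((n : ℕ) : ℝ) ^ (-t) := by
        refine Finset.sum_le_sum fun n _ => ?_
        refine mul_le_mul_of_nonneg_right ?_ (hpos n)
        exact_mod_cast fibre_card T n
    _ = (Module.finrank ℚ K : ℝ) * ∑ n ∈ T.image (bel K), ((n : ℕ) : ℝ) ^ (-t) := by
        rw [Finset.mul_sum]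
    _ ≤ _ := by
        refine mul_le_mul_of_nonneg_left ?_ (Nat.cast_nonneg _)
        exact h0.sum_le_tsum _ (fun n _ => hpos n)

end primes

section terms

variable {K L : Type} [Field K] [NumberField K] [Field L] [NumberField L] [Algebra K L]

lemma frobMean_bound (χ : (L ≃ₐ[K] L) → ℂ) : ∃ C : ℝ, 0 ≤ C ∧
    ∀ (q : HeightOneSpectrum (𝓞 K)) (n : ℕ), ‖frobMean K L χ q.asIdeal n‖ ≤ C := by
  classical
  have hft : Fintype (L ≃ₐ[K] L) := Fintype.ofFinite _
  refine ⟨∑ g, ‖χ g‖, Finset.sum_nonneg fun _ _ => norm_nonneg _, fun q n => ?_⟩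
  have := q.isPrime
  rw [frobMean, frobSet_eq q.ne_bot n, finsum_mem_coe_finset, Set.ncard_coe_finset, norm_div,
    Complex.norm_natCast]
  set S := (((pr_finite L q.ne_bot).toFinset ×ˢ (Finset.univ : Finset (L ≃ₐ[K] L))).filter
      (fun x => Fr x.1 (absNorm q.asIdeal ^ n) x.2)) with hS
  have hC : 0 ≤ ∑ g, ‖χ g‖ := Finset.sum_nonneg fun _ _ => norm_nonneg _
  refine div_le_of_le_mul₀ (Nat.cast_nonneg _) hC ?_
  calc ‖∑ x ∈ S, χ x.2‖ ≤ ∑ x ∈ S, ‖χ x.2‖ := norm_sum_le _ _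
    _ ≤ ∑ x ∈ S, ∑ g, ‖χ g‖ := by
        refine Finset.sum_le_sum fun x _ => ?_
        exact Finset.single_le_sum (f := fun g => ‖χ g‖) (fun _ _ => norm_nonneg _)
          (Finset.mem_univ x.2)
    _ = (∑ g, ‖χ g‖) * S.card := by rw [Finset.sum_const, nsmul_eq_mul, mul_comm]

/-- **convergence** -/
theorem logTerm_summable (χ : (L ≃ₐ[K] L) → ℂ) {s : ℂ} (hs : 1 < s.re) :
    Summable (logTerm K L χ s) := by
  obtain ⟨C, hC, hb⟩ := frobMean_bound χ
  have h1 : Summable (fun q : HeightOneSpectrum (𝓞 K) =>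
      ((absNorm q.asIdeal : ℕ) : ℝ) ^ (-s.re)) := summable_absNorm hs
  have hgeo : Summable (fun n : ℕ+ => ((1 / 2 : ℝ)) ^ (((n : ℕ+) : ℕ) - 1)) := by
    have h2 : Summable (fun n : ℕ => ((1 / 2 : ℝ)) ^ n) :=
      summable_geometric_of_lt_one (by norm_num) (by norm_num)
    have h3 : Function.Injective (fun n : ℕ+ => ((n : ℕ) - 1)) := by
      intro a b hab
      apply PNat.eq
      have := a.pos
      have := b.pos
      simp only at hab
      omega
    exact h2.comp_injective h3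
  have h4 := h1.mul_of_nonneg hgeo (fun q => Real.rpow_nonneg (Nat.cast_nonneg _) _)
    (fun n => pow_nonneg (by norm_num) _)
  refine Summable.of_norm_bounded (h4.mul_left C) fun x => ?_
  obtain ⟨q, n⟩ := x
  have hN : (2 : ℝ) ≤ (absNorm q.asIdeal : ℕ) := by exact_mod_cast two_le_absNorm q
  have hN0 : (0 : ℝ) < (absNorm q.asIdeal : ℕ) := by linarith
  rw [logTerm, norm_div, norm_mul, Complex.norm_natCast]
  have h5 : ‖(absNorm q.asIdeal : ℂ) ^ (((n : ℕ) : ℂ) * s)‖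
      = ((absNorm q.asIdeal : ℕ) : ℝ) ^ ((n : ℕ) * s.re) := by
    have h6 := Complex.norm_cpow_eq_rpow_re_of_pos hN0 (((n : ℕ) : ℂ) * s)
    have h7 : (((n : ℕ) : ℂ) * s).re = (n : ℕ) * s.re := by
      rw [Complex.mul_re, Complex.natCast_re, Complex.natCast_im, zero_mul, sub_zero]
    rw [h7] at h6
    exact_mod_cast h6
  rw [h5]
  have hn1 : (1 : ℝ) ≤ (n : ℕ) := by exact_mod_cast n.pos
  have h8 : (0 : ℝ) < ((absNorm q.asIdeal : ℕ) : ℝ) ^ ((n : ℕ) * s.re) := Real.rpow_pos_of_pos hN0 _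
  have h9 : ‖frobMean K L χ q.asIdeal n‖ / ((n : ℕ) * ((absNorm q.asIdeal : ℕ) : ℝ) ^ ((n : ℕ) * s.re))
      ≤ C / ((absNorm q.asIdeal : ℕ) : ℝ) ^ ((n : ℕ) * s.re) := by
    refine div_le_div₀ hC (hb q n) h8 ?_
    exact le_mul_of_one_le_left h8.le hn1
  refine h9.trans ?_
  rw [div_eq_mul_inv, ← Real.rpow_neg hN0.le]
  refine mul_le_mul_of_nonneg_left ?_ hC
  -- `N^(-n σ) ≤ N^(-σ) (1/2)^(n-1)`
  have h10 : ((absNorm q.asIdeal : ℕ) : ℝ) ^ (-((n : ℕ) * s.re))
      = ((absNorm q.asIdeal : ℕ) : ℝ) ^ (-s.re)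
        * ((absNorm q.asIdeal : ℕ) : ℝ) ^ (-((((n : ℕ) - 1 : ℕ) : ℝ) * s.re)) := by
    rw [← Real.rpow_add hN0]
    congr 1
    have h11 : (((n : ℕ) - 1 : ℕ) : ℝ) = (n : ℕ) - 1 := by
      rw [Nat.cast_sub n.pos, Nat.cast_one]
    rw [h11]
    ring
  change ((absNorm q.asIdeal : ℕ) : ℝ) ^ (-((n : ℕ) * s.re))
    ≤ ((absNorm q.asIdeal : ℕ) : ℝ) ^ (-s.re) * (1 / 2) ^ ((n : ℕ) - 1)
  rw [h10]
  refine mul_le_mul_of_nonneg_left ?_ (Real.rpow_nonneg hN0.le _)
  calc ((absNorm q.asIdeal : ℕ) : ℝ) ^ (-((((n : ℕ) - 1 : ℕ) : ℝ) * s.re))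
      ≤ (2 : ℝ) ^ (-((((n : ℕ) - 1 : ℕ) : ℝ) * s.re)) := by
        refine Real.rpow_le_rpow_of_nonpos (by norm_num) hN ?_
        have h12 : (0 : ℝ) ≤ (((n : ℕ) - 1 : ℕ) : ℝ) := Nat.cast_nonneg _
        nlinarith
    _ ≤ (2 : ℝ) ^ (-(((n : ℕ) - 1 : ℕ) : ℝ)) := by
        refine Real.rpow_le_rpow_of_exponent_le (by norm_num) ?_
        have h12 : (0 : ℝ) ≤ (((n : ℕ) - 1 : ℕ) : ℝ) := Nat.cast_nonneg _
        nlinarith
    _ = (1 / 2) ^ ((n : ℕ) - 1) := by
        rw [Real.rpow_neg (by norm_num), Real.rpow_natCast, one_div, inv_pow]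

end terms

end Pool.Agent.K4H74.SC
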