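import Mathlib
import Pool.Agent.K4H74.SC.Core
import Pool.Agent.K4H74.SC.Inst
import Pool.Agent.K4H74.SC.Sum

/-!
# The two versions of the definitions
-/

set_option autoImplicit false
set_option linter.unusedSectionVars false

namespace Pool.Agent.K4H74.SK

open NumberField Pool.Agent.K4H74.ST
open scoped TensorProduct

section chr

lemma isChr_iff {G : Type} [Group G] {χ : G → ℂ} : IsChr χ ↔ IsChar χ := by
  classical
  constructor
  · rintro ⟨n, ρ, hρ⟩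
    let ρ' : Representation ℂ G (Fin n → ℂ) :=
      { toFun := fun g => Matrix.toLin' (ρ g)
        map_one' := by rw [map_one, Matrix.toLin'_one]; rfl
        map_mul' := fun a b => by rw [map_mul, Matrix.toLin'_mul]; rfl }
    refine ⟨Fin n → ℂ, inferInstance, inferInstance, inferInstance, ρ', funext fun g => ?_⟩
    rw [hρ g]
    exact (Matrix.trace_toLin'_eq _).symm
  · rintro ⟨V, _, _, _, ρ, rfl⟩
    let b := Module.finBasis ℂ V
    refine ⟨_, { toFun := fun g => LinearMap.toMatrix b b (ρ g)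
                 map_one' := by rw [map_one]; exact LinearMap.toMatrix_one b
                 map_mul' := fun x y => by rw [map_mul]; exact LinearMap.toMatrix_mul b _ _ },
      fun g => ?_⟩
    exact LinearMap.trace_eq_matrix_trace ℂ b _

end chr

variable {E : Ext}

section units

lemma act_eq (g : G E) (a : Y E) (w : InfinitePlace E.L) :
    act g a w = a ((show E.L ≃ₐ[E.K] E.L from g)⁻¹ • w) := rfl

lemma lam_eq (u : (𝓞 E.L)ˣ) : lam u = SC.logVec E.L (Additive.ofMul u) := rfl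

lemma act_X {g : G E} {a : Y E} (ha : IsX a) : IsX (act g a) := by
  have h := SC.XRep_mem (K := E.K) (L := E.L) (k := ℂ) g ⟨a, ha⟩
  exact h

/-- every element of `ℚ ⊗ U` is `u / m` -/
lemma tensor_form (z : ℚ ⊗[ℤ] Additive (𝓞 E.L)ˣ) :
    ∃ (m : ℕ) (u : Additive (𝓞 E.L)ˣ), 0 < m ∧ (m : ℚ) • z = (1 : ℚ) ⊗ₜ[ℤ] u := by
  have key : ∀ (m : ℕ) (u : Additive (𝓞 E.L)ˣ),
      ((1 : ℚ) ⊗ₜ[ℤ] (m • u) : ℚ ⊗[ℤ] Additive (𝓞 E.L)ˣ) = (m : ℚ) • ((1 : ℚ) ⊗ₜ[ℤ] u) := by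
    intro m u
    have h8 : ((1 : ℚ) ⊗ₜ[ℤ] (m • u) : ℚ ⊗[ℤ] Additive (𝓞 E.L)ˣ) = m • ((1 : ℚ) ⊗ₜ[ℤ] u) :=
      map_nsmul (TensorProduct.mk ℤ ℚ (Additive (𝓞 E.L)ˣ) 1) _ _
    rw [h8, Nat.cast_smul_eq_nsmul ℚ]
  have keyz : ∀ (m : ℤ) (u : Additive (𝓞 E.L)ˣ),
      ((1 : ℚ) ⊗ₜ[ℤ] (m • u) : ℚ ⊗[ℤ] Additive (𝓞 E.L)ˣ) = (m : ℚ) • ((1 : ℚ) ⊗ₜ[ℤ] u) := by
    intro m u
    have h8 : ((1 : ℚ) ⊗ₜ[ℤ] (m • u) : ℚ ⊗[ℤ] Additive (𝓞 E.L)ˣ) = m • ((1 : ℚ) ⊗ₜ[ℤ] u) :=
      map_zsmul (TensorProduct.mk ℤ ℚ (Additive (𝓞 E.L)ˣ) 1) _ _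
    rw [h8, Int.cast_smul_eq_zsmul ℚ]
  induction z using TensorProduct.induction_on with
  | zero => exact ⟨1, 0, one_pos, by simp⟩
  | tmul q u =>
    refine ⟨q.den, q.num • u, q.pos, ?_⟩
    rw [keyz, TensorProduct.smul_tmul', TensorProduct.smul_tmul', smul_eq_mul, smul_eq_mul,
      mul_one, mul_comm, Rat.mul_den_eq_num]
  | add x y hx hy =>
    obtain ⟨m, u, hm, hu⟩ := hx
    obtain ⟨m', u', hm', hu'⟩ := hy
    refine ⟨m * m', m' • u + m • u', Nat.mul_pos hm hm', ?_⟩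
    rw [smul_add, TensorProduct.tmul_add, key, key, ← hu, ← hu', smul_smul, smul_smul]
    push_cast
    congr 1
    rw [mul_comm]

/-- `λ` is injective on `ℚ ⊗ U` -/
lemma lamQ_inj : Function.Injective (SC.lamQ E.L) := by
  rw [injective_iff_map_eq_zero]
  intro z hz
  obtain ⟨m, u, hm, hu⟩ := tensor_form z
  have h1 : SC.logVec E.L u = 0 := by
    rw [← SC.lamQ_tmul, ← hu, map_smul, hz, smul_zero]
  have h2 : NumberField.Units.logEmbedding E.L u = 0 := by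
    funext w
    have h3 := congrFun h1 w.1
    rw [SC.logVec_apply] at h3
    change ((-((w.1.mult : ℝ) * Real.log (w.1 ((u.toMul : 𝓞 E.L) : E.L))) : ℝ) : ℂ) = 0 at h3
    rw [Complex.ofReal_eq_zero, neg_eq_zero] at h3
    exact h3
  have h3 := (NumberField.Units.dirichletUnitTheorem.logEmbedding_eq_zero_iff
    (x := u.toMul)).mp h2
  obtain ⟨n, hn, hz'⟩ := isOfFinOrder_iff_pow_eq_one.mp ((CommGroup.mem_torsion _).mp h3)
  have h4 : n • u = 0 := by
    apply Additive.toMul.injective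
    rw [toMul_nsmul]
    exact hz'
  have h5 : (n : ℚ) • ((1 : ℚ) ⊗ₜ[ℤ] u : ℚ ⊗[ℤ] Additive (𝓞 E.L)ˣ) = 0 := by
    rw [Nat.cast_smul_eq_nsmul ℚ]
    have h8 : ((1 : ℚ) ⊗ₜ[ℤ] (n • u) : ℚ ⊗[ℤ] Additive (𝓞 E.L)ˣ) = n • ((1 : ℚ) ⊗ₜ[ℤ] u) :=
      map_nsmul (TensorProduct.mk ℤ ℚ (Additive (𝓞 E.L)ˣ) 1) _ _
    rw [← h8, h4, TensorProduct.tmul_zero]
  have hn' : (n : ℚ) ≠ 0 := by exact_mod_cast hn.ne'
  have hm' : (m : ℚ) ≠ 0 := by exact_mod_cast hm.ne'
  have h6 := (smul_eq_zero.mp h5).resolve_left hn'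
  rw [← hu] at h6
  exact (smul_eq_zero.mp h6).resolve_left hm'

lemma isQX_iff {a : Y E} : IsQX a ↔ ∃ x : SC.XX E.L ℚ, a = (SC.toC E.L x).1 := by
  constructor
  · rintro ⟨h1, h2⟩
    choose q hq using h2
    refine ⟨⟨q, ?_⟩, funext hq⟩
    change ∑ w, q w = 0
    have h3 : ∑ w, a w = 0 := h1
    rw [Finset.sum_congr rfl (fun w _ => hq w), ← Rat.cast_sum] at h3
    exact_mod_cast h3
  · rintro ⟨x, rfl⟩
    exact ⟨(SC.toC E.L x).2, fun w => ⟨x.1 w, rfl⟩⟩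

/-- from the old to the new version -/
lemma exists_new (φ : SC.StarkMap E.K E.L) :
    ∃ Λ : Y E →ₗ[ℂ] Y E, IsStarkMap Λ ∧ ∀ a : SC.XX E.L ℂ, Λ a.1 = (φ.Lam a).1 := by
  obtain ⟨Λ, hΛ⟩ := LinearMap.exists_extend ((SC.XX E.L ℂ).subtype ∘ₗ φ.Lam)
  have h0 : ∀ a : SC.XX E.L ℂ, Λ a.1 = (φ.Lam a).1 := fun a => LinearMap.congr_fun hΛ a
  refine ⟨Λ, ⟨?_, ?_, ?_⟩, h0⟩
  · intro g a ha
    have h1 := congrArg Subtype.val (φ.comm g ⟨a, ha⟩)
    have h2 := h0 ⟨a, ha⟩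
    change Λ (SC.XRep E.K E.L ℂ g ⟨a, ha⟩).1 = (SC.XRep E.K E.L ℂ g ⟨Λ a, by
      rw [h2]; exact (φ.Lam ⟨a, ha⟩).2⟩).1
    rw [h0, h1]
    congr 2
    exact Subtype.ext h2.symm
  · intro a ha
    obtain ⟨x, rfl⟩ := isQX_iff.mp ha
    obtain ⟨m, u, hm, hu⟩ := tensor_form (φ.phi x)
    refine ⟨m, u.toMul, hm, ?_⟩
    rw [h0, φ.spec, lam_eq]
    change _ = SC.logVec E.L u
    rw [← SC.lamQ_tmul, ← hu, map_smul]
    funext w
    rw [Pi.smul_apply, Pi.smul_apply, Rat.smul_def]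
    push_cast
    rfl
  · intro u
    refine ⟨(SC.toC E.L (φ.phi.symm ((1 : ℚ) ⊗ₜ[ℤ] Additive.ofMul u))).1,
      isQX_iff.mpr ⟨_, rfl⟩, ?_⟩
    rw [h0, φ.spec, LinearEquiv.apply_symm_apply, SC.lamQ_tmul]
    rfl

/-- from the new to the old version -/
lemma exists_old {Λ : Y E →ₗ[ℂ] Y E} (h : IsStarkMap Λ) :
    ∃ φ : SC.StarkMap E.K E.L, ∀ a : SC.XX E.L ℂ, Λ a.1 = (φ.Lam a).1 := by
  classical
  obtain ⟨h1, h2, h3⟩ := h
  -- values on rational vectors
  have h4 : ∀ x : SC.XX E.L ℚ, ∃ z, SC.lamQ E.L z = Λ (SC.toC E.L x).1 := by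
    intro x
    obtain ⟨m, u, hm, hu⟩ := h2 _ (isQX_iff.mpr ⟨x, rfl⟩)
    refine ⟨(m : ℚ)⁻¹ • ((1 : ℚ) ⊗ₜ[ℤ] Additive.ofMul u), ?_⟩
    rw [map_smul, SC.lamQ_tmul]
    rw [lam_eq] at hu
    rw [← hu]
    have hm' : (m : ℂ) ≠ 0 := by exact_mod_cast hm.ne'
    funext w
    rw [Pi.smul_apply, Pi.smul_apply, Rat.smul_def, smul_eq_mul]
    push_cast
    rw [inv_mul_cancel_left₀ hm']
  have hX : ∀ a : SC.XX E.L ℂ, Λ a.1 ∈ SC.XX E.L ℂ := by
    intro a
    rw [SC.eq_sum_ew a, AddSubmonoidClass.coe_finsetSum, map_sum]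
    refine Submodule.sum_mem _ fun w _ => ?_
    rw [Submodule.coe_smul, map_smul]
    refine Submodule.smul_mem _ _ ?_
    rw [← SC.ew_toC]
    obtain ⟨z, hz⟩ := h4 (SC.ew ℚ w)
    rw [← hz]
    exact SC.lamQ_mem z
  let Lam : SC.XX E.L ℂ →ₗ[ℂ] SC.XX E.L ℂ :=
    { toFun := fun a => ⟨Λ a.1, hX a⟩
      map_add' := fun a b => Subtype.ext (map_add Λ _ _)
      map_smul' := fun c a => Subtype.ext (map_smul Λ _ _) }
  let f : SC.XX E.L ℚ →ₗ[ℚ] (InfinitePlace E.L → ℂ) :=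
    { toFun := fun x => Λ (SC.toC E.L x).1
      map_add' := fun x y => by rw [SC.toC_add]; exact map_add Λ _ _
      map_smul' := fun c x => by
        have e1 : (SC.toC E.L (c • x)).1 = (c : ℂ) • (SC.toC E.L x).1 := by
          funext w
          change ((c * x.1 w : ℚ) : ℂ) = (c : ℂ) * ((x.1 w : ℚ) : ℂ)
          push_cast
          rfl
        rw [e1, map_smul, RingHom.id_apply]
        funext w
        rw [Pi.smul_apply, Pi.smul_apply, Rat.smul_def, smul_eq_mul] }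
  let e := LinearEquiv.ofInjective (SC.lamQ E.L) lamQ_inj
  let f' : SC.XX E.L ℚ →ₗ[ℚ] LinearMap.range (SC.lamQ E.L) := f.codRestrict _ (fun x => h4 x)
  have hLsurj : Function.Surjective Lam := by
    rw [← LinearMap.range_eq_top, eq_top_iff, ← SC.logX_span, Submodule.span_le]
    rintro b ⟨u, rfl⟩
    obtain ⟨a, ha, hu⟩ := h3 u.toMul
    exact ⟨⟨a, ha.1⟩, Subtype.ext hu⟩
  have hLinj : Function.Injective Lam := LinearMap.injective_iff_surjective.mpr hLsurj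
  have hbij : Function.Bijective (e.symm.toLinearMap ∘ₗ f') := by
    constructor
    · intro x y hxy
      have h5 : f' x = f' y := e.symm.injective hxy
      have h6 : Λ (SC.toC E.L x).1 = Λ (SC.toC E.L y).1 := congrArg Subtype.val h5
      have h7 : SC.toC E.L x = SC.toC E.L y := hLinj (Subtype.ext h6)
      apply Subtype.ext
      funext w
      have h8 := congrFun (congrArg Subtype.val h7) w
      change ((x.1 w : ℚ) : ℂ) = ((y.1 w : ℚ) : ℂ) at h8
      exact_mod_cast h8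
    · intro z
      obtain ⟨m, u, hm, hu⟩ := tensor_form z
      obtain ⟨a, ha, hu'⟩ := h3 u.toMul
      obtain ⟨x, rfl⟩ := isQX_iff.mp ha
      have hm' : (m : ℚ) ≠ 0 := by exact_mod_cast hm.ne'
      refine ⟨(m : ℚ)⁻¹ • x, ?_⟩
      rw [map_smul]
      have h5 : (e.symm.toLinearMap ∘ₗ f') x = (1 : ℚ) ⊗ₜ[ℤ] u := by
        apply e.injective
        change e (e.symm (f' x)) = _
        rw [LinearEquiv.apply_symm_apply]
        apply Subtype.ext
        change Λ (SC.toC E.L x).1 = SC.lamQ E.L ((1 : ℚ) ⊗ₜ[ℤ] u)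
        rw [hu', SC.lamQ_tmul]
        rfl
      rw [h5, ← hu, smul_smul, inv_mul_cancel₀ hm', one_smul]
  have hphi : ∀ x, SC.lamQ E.L ((e.symm.toLinearMap ∘ₗ f') x) = Λ (SC.toC E.L x).1 := by
    intro x
    have h5 : e (e.symm (f' x)) = f' x := e.apply_symm_apply _
    exact congrArg Subtype.val h5
  refine ⟨{ phi := LinearEquiv.ofBijective (e.symm.toLinearMap ∘ₗ f') hbij
            equi := ?_
            Lam := Lam
            spec := fun x => (hphi x).symm }, fun a => rfl⟩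
  intro g x
  apply lamQ_inj
  change SC.lamQ E.L ((e.symm.toLinearMap ∘ₗ f') (SC.XRep E.K E.L ℚ g x))
    = SC.lamQ E.L ((SC.uMap E.K E.L g).baseChange ℚ ((e.symm.toLinearMap ∘ₗ f') x))
  funext w
  rw [hphi, SC.lamQ_uMap, hphi]
  have h5 := congrFun (h1 g (SC.toC E.L x).1 (SC.toC E.L x).2) w
  exact h5

end units

section reg

lemma isX_iff {a : Y E} : IsX a ↔ a ∈ SC.XX E.L ℂ := Iff.rfl

/-- the new regulators are regulators -/
lemma reg_old {Λ : Y E →ₗ[ℂ] Y E} {φ : SC.StarkMap E.K E.L}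
    (hφ : ∀ a : SC.XX E.L ℂ, Λ a.1 = (φ.Lam a).1) {χ : G E → ℂ} {r : ℂ} (h : IsReg Λ χ r) :
    SC.IsReg φ χ r := by
  classical
  obtain ⟨n, ρ, hρ, T, hT0, rfl⟩ := h
  have hT : ∀ f i, (T f).1 i = Λ (f.1 i) := fun f i => congrFun (hT0 f) i
  let ρ' : Representation ℂ (E.L ≃ₐ[E.K] E.L) (Fin n → ℂ) :=
    { toFun := fun g => Matrix.toLin' (ρ g)
      map_one' := (congrArg Matrix.toLin' (map_one ρ)).trans Matrix.toLin'_one
      map_mul' := fun a b => (congrArg Matrix.toLin' (map_mul ρ a b)).trans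
        (Matrix.toLin'_mul _ _) }
  refine ⟨Fin n → ℂ, inferInstance, inferInstance, inferInstance, ρ', fun g => ?_, ?_⟩
  · exact (Matrix.trace_toLin'_eq _).trans (hρ g)
  · let τ := SC.XRep E.K E.L ℂ
    let b : Module.Basis (Fin n) ℂ (Fin n → ℂ) := Pi.basisFun ℂ (Fin n)
    have hb : ∀ (g : E.L ≃ₐ[E.K] E.L) (i : Fin n),
        ρ' g (b i) = ∑ j, (ρ g : Matrix (Fin n) (Fin n) ℂ) j i • b j := by
      intro g i
      change Matrix.toLin' (ρ g) (b i) = _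
      rw [Pi.basisFun_apply, Matrix.toLin'_apply, Matrix.mulVec_single_one]
      funext k
      simp [Pi.basisFun_apply, b, Matrix.col_apply, Pi.single_apply]
    let F : HomX ρ →ₗ[ℂ] ((Fin n → ℂ) →ₗ[ℂ] SC.XX E.L ℂ) :=
      { toFun := fun f => b.constr ℂ (fun i => (⟨f.1 i, f.2.1 i⟩ : SC.XX E.L ℂ))
        map_add' := by
          intro f f'
          apply b.ext
          intro i
          rw [LinearMap.add_apply, Module.Basis.constr_basis, Module.Basis.constr_basis,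
            Module.Basis.constr_basis]
          rfl
        map_smul' := by
          intro c f
          apply b.ext
          intro i
          rw [LinearMap.smul_apply, Module.Basis.constr_basis, Module.Basis.constr_basis]
          rfl }
    have hFb : ∀ (f : HomX ρ) (i : Fin n), (F f (b i)).1 = f.1 i := by
      intro f i
      change (b.constr ℂ (fun i => (⟨f.1 i, f.2.1 i⟩ : SC.XX E.L ℂ)) (b i)).1 = _
      rw [Module.Basis.constr_basis]
    refine (SC.homDet_eq ρ' τ φ.Lam φ.comm F ?_ ?_ ?_ T ?_).symm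
    · intro f f' h
      apply Subtype.ext
      funext i
      rw [← hFb f i, ← hFb f' i, h]
    · intro f g v
      have h1 : (F f) ∘ₗ ρ' g = (τ g) ∘ₗ (F f) := by
        apply b.ext
        intro i
        rw [LinearMap.comp_apply, LinearMap.comp_apply, hb, map_sum]
        apply Subtype.ext
        rw [AddSubmonoidClass.coe_finsetSum]
        have h2 := f.2.2 g i
        have h3 : ∀ j, (F f ((ρ g : Matrix (Fin n) (Fin n) ℂ) j i • b j)).1
            = (ρ g : Matrix (Fin n) (Fin n) ℂ) j i • f.1 j := by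
          intro j
          rw [map_smul, ← hFb f j]
          rfl
        rw [Finset.sum_congr rfl (fun j _ => h3 j)]
        refine h2.trans ?_
        funext w
        have h4 := congrFun (hFb f i)
        exact (h4 _).symm
      exact LinearMap.congr_fun h1 v
    · intro F' hF'
      refine ⟨⟨fun i => (F' (b i)).1, fun i => (F' (b i)).2, fun g i => ?_⟩, ?_⟩
      · have h1 := hF' g (b i)
        rw [hb, map_sum] at h1
        have h2 := congrArg Subtype.val h1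
        rw [AddSubmonoidClass.coe_finsetSum] at h2
        have h3 : ∀ j, (F' ((ρ g : Matrix (Fin n) (Fin n) ℂ) j i • b j)).1
            = (ρ g : Matrix (Fin n) (Fin n) ℂ) j i • (F' (b j)).1 := by
          intro j
          rw [map_smul]
          rfl
        rw [Finset.sum_congr rfl (fun j _ => h3 j)] at h2
        exact h2
      · apply b.ext
        intro i
        apply Subtype.ext
        rw [hFb]
    · intro f
      apply b.ext
      intro i
      apply Subtype.ext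
      rw [hFb, hT]
      have h1 := hφ (F f (b i))
      rw [hFb] at h1
      exact h1

lemma reg_exists {Λ : Y E →ₗ[ℂ] Y E} {φ : SC.StarkMap E.K E.L}
    (hφ : ∀ a : SC.XX E.L ℂ, Λ a.1 = (φ.Lam a).1) {χ : G E → ℂ} (h : IsChar χ) :
    ∃ r, IsReg Λ χ r := by
  classical
  obtain ⟨n, ρ, hρ⟩ := isChr_iff.mpr (SC.isChar_inv h)
  have h1 : ∀ f : Fin n → Y E, IsHom ρ f → IsHom ρ (fun i => Λ (f i)) := by
    rintro f ⟨h2, h3⟩
    refine ⟨fun i => ?_, fun g i => ?_⟩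
    · have := hφ ⟨f i, h2 i⟩
      change Λ (f i) = _ at this
      change IsX (Λ (f i))
      rw [this]
      exact (φ.Lam ⟨f i, h2 i⟩).2
    · have h4 : ∑ j, ρ g j i • Λ (f j) = Λ (∑ j, ρ g j i • f j) := by
        rw [map_sum]
        exact Finset.sum_congr rfl fun j _ => (map_smul Λ _ _).symm
      change ∑ j, ρ g j i • Λ (f j) = _
      rw [h4, h3 g i]
      have h5 := congrArg Subtype.val (φ.comm g ⟨f i, h2 i⟩)
      have h6 := hφ (SC.XRep E.K E.L ℂ g ⟨f i, h2 i⟩)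
      change Λ (act g (f i)) = _ at h6
      have h7 := hφ ⟨f i, h2 i⟩
      change Λ (f i) = _ at h7
      change Λ (act g (f i)) = act g (Λ (f i))
      rw [h6, h7]
      exact h5
  let T : HomX ρ →ₗ[ℂ] HomX ρ :=
    { toFun := fun f => ⟨fun i => Λ (f.1 i), h1 f.1 f.2⟩
      map_add' := fun a b => Subtype.ext (funext fun i => map_add Λ _ _)
      map_smul' := fun c a => Subtype.ext (funext fun i => map_smul Λ _ _) }
  exact ⟨_, n, ρ, fun g => (hρ g).symm, T, fun _ => rfl, rfl⟩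

end reg

section lser

lemma frobSet_eq (p : Ideal (𝓞 E.K)) (n : ℕ) : frobSet E p n = SC.frobSet E.K E.L p n := by
  ext x
  constructor
  · rintro ⟨h1, h2, h3⟩
    exact ⟨h1, ⟨h2⟩, fun y => h3 y _ rfl⟩
  · rintro ⟨h1, h2, h3⟩
    refine ⟨h1, h2.over, fun y z hz => ?_⟩
    have h4 : z = (show E.L ≃ₐ[E.K] E.L from x.2) • y := RingOfIntegers.ext hz
    rw [h4]
    exact h3 y

lemma frobMean_eq (χ : G E → ℂ) (p : Ideal (𝓞 E.K)) (n : ℕ) :
    frobMean χ p n = SC.frobMean E.K E.L χ p n := by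
  rw [frobMean, SC.frobMean, frobSet_eq]
  rfl

/-- the index sets -/
def prEquiv (E : Ext) : Pr E ≃ IsDedekindDomain.HeightOneSpectrum (𝓞 E.K) where
  toFun p := ⟨p.1, p.2.1, p.2.2⟩
  invFun v := ⟨v.asIdeal, v.isPrime, v.ne_bot⟩
  left_inv _ := rfl
  right_inv _ := rfl

lemma hasSum_iff {χ : G E → ℂ} {s l : ℂ} :
    HasSum (logTerm χ s) l ↔ HasSum (SC.logTerm E.K E.L χ s) l := by
  have h1 : logTerm χ s = SC.logTerm E.K E.L χ s ∘ ((prEquiv E).prodCongr (Equiv.refl ℕ+)) := by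
    funext x
    rw [logTerm, frobMean_eq]
    rfl
  rw [h1, Equiv.hasSum_iff]

lemma logTerm_summable (χ : G E → ℂ) {s : ℂ} (hs : 1 < s.re) : Summable (logTerm χ s) := by
  obtain ⟨l, hl⟩ := SC.logTerm_summable (K := E.K) (L := E.L) χ hs
  exact ⟨l, hasSum_iff.mpr hl⟩

end lser

section lead

/-- relations between L-functions -/
lemma IsLeading.rel {c : Pair → ℂ} (hc : IsLeading c) {m : ℕ} (x : Fin m → Pair) (k : Fin m → ℤ)
    (hx : ∀ i, IsChr (x i).2)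
    (h : ∀ s : ℂ, 1 < s.re → ∀ l : Fin m → ℂ, (∀ i, HasSum (logTerm (x i).2 s) (l i)) →
      ∑ i, (k i : ℂ) * l i = 0) : ∏ i, c (x i) ^ k i = 1 := by
  rw [hc m x k (fun _ => 1) hx (fun z => analyticAt_const.meromorphicAt) ?_]
  · exact meromorphicTrailingCoeffAt_const
  · intro s hs
    have h1 := fun i => (logTerm_summable (x i).2 hs).hasSum
    refine ⟨_, h1, ?_⟩
    rw [h s hs _ h1, Complex.exp_zero]

lemma IsLeading.ne {c : Pair → ℂ} (hc : IsLeading c) {χ : G E → ℂ} (hχ : IsChr χ) :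
    c ⟨E, χ⟩ ≠ 0 := by
  have h := hc.rel ![⟨E, χ⟩, ⟨E, χ⟩] ![1, -1] (fun i => by fin_cases i <;> exact hχ)
    (fun s hs l hl => by
      have h0 := hl 0
      have h1 := hl 1
      simp only [Fin.sum_univ_two, Matrix.cons_val_zero, Matrix.cons_val_one] at *
      rw [h0.unique h1]
      push_cast
      ring)
  rw [Fin.prod_univ_two] at h
  intro h0
  simp only [Matrix.cons_val_zero, Matrix.cons_val_one, h0, zpow_one] at h
  simp at h

lemma IsLeading.eq {c : Pair → ℂ} (hc : IsLeading c) {E E' : Ext} {χ : G E → ℂ} {χ' : G E' → ℂ}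
    (hχ : IsChr χ) (hχ' : IsChr χ')
    (h : ∀ s l : ℂ, 1 < s.re → HasSum (logTerm χ' s) l → HasSum (logTerm χ s) l) :
    c ⟨E, χ⟩ = c ⟨E', χ'⟩ := by
  have h := hc.rel ![⟨E, χ⟩, ⟨E', χ'⟩] ![1, -1] (fun i => by
      fin_cases i
      · exact hχ
      · exact hχ')
    (fun s hs l hl => by
      have h0 : HasSum (logTerm χ s) (l 0) := hl 0
      have h1 : HasSum (logTerm χ' s) (l 1) := hl 1
      rw [Fin.sum_univ_two, h0.unique (h s _ hs h1)]
      simp)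
  rw [Fin.prod_univ_two] at h
  have h2 : c ⟨E, χ⟩ * (c ⟨E', χ'⟩)⁻¹ = 1 := by simpa using h
  exact (mul_inv_eq_one₀ (hc.ne hχ')).mp h2

lemma IsLeading.add {c : Pair → ℂ} (hc : IsLeading c) {E : Ext} {χ χ' : G E → ℂ}
    (hχ : IsChr χ) (hχ' : IsChr χ') (hs : IsChr (χ + χ')) :
    c ⟨E, χ + χ'⟩ = c ⟨E, χ⟩ * c ⟨E, χ'⟩ := by
  have h := hc.rel ![⟨E, χ + χ'⟩, ⟨E, χ⟩, ⟨E, χ'⟩] ![1, -1, -1] (fun i => by
      fin_cases i
      · exact hs
      · exact hχ
      · exact hχ')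
    (fun s hs l hl => by
      have h0 : HasSum (logTerm (χ + χ') s) (l 0) := hl 0
      have h1 : HasSum (logTerm χ s) (l 1) := hl 1
      have h2 : HasSum (logTerm χ' s) (l 2) := hl 2
      have h3 := hasSum_iff.mpr (SC.hasSum_add (hasSum_iff.mp h1) (hasSum_iff.mp h2))
      rw [Fin.sum_univ_three, h0.unique h3]
      simp)
  rw [Fin.prod_univ_three] at h
  have h2 : c ⟨E, χ + χ'⟩ * (c ⟨E, χ⟩)⁻¹ * (c ⟨E, χ'⟩)⁻¹ = 1 := by simpa using h
  have e1 := hc.ne hχ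
  have e2 := hc.ne hχ'
  field_simp at h2
  exact h2

/-- a system of leading coefficients as an inductive invariant -/
noncomputable def leadInv {c : Pair → ℂ} (hc : IsLeading c) : ArtinInvariant ℂˣ := by
  classical
  exact
  { val := fun K L _ _ _ _ _ _ χ =>
      if h : IsChr (show G ⟨K, L⟩ → ℂ from χ) then Units.mk0 (c ⟨⟨K, L⟩, χ⟩) (hc.ne h) else 1
    val_add := fun K L _ _ _ _ _ _ χ χ' h h' => by
      have i1 : IsChr (show G ⟨K, L⟩ → ℂ from χ) := isChr_iff.mpr h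
      have i2 : IsChr (show G ⟨K, L⟩ → ℂ from χ') := isChr_iff.mpr h'
      have i3 : IsChr (show G ⟨K, L⟩ → ℂ from χ + χ') := isChr_iff.mpr (h.add h')
      rw [dif_pos i1, dif_pos i2, dif_pos i3]
      apply Units.ext
      rw [Units.val_mul, Units.val_mk0, Units.val_mk0, Units.val_mk0]
      exact hc.add i1 i2 i3
    val_infl := fun K L N _ _ _ _ _ _ _ _ _ _ _ _ χ h => by
      have i1 : IsChr (show G ⟨K, L⟩ → ℂ from χ) := isChr_iff.mpr h
      have i2 : IsChr (show G ⟨K, N⟩ → ℂ from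
          (fun g : N ≃ₐ[K] N => χ (AlgEquiv.restrictNormalHom L g))) := by
        refine isChr_iff.mpr ?_
        obtain ⟨V, _, _, _, ρ, rfl⟩ := h
        exact ⟨V, inferInstance, inferInstance, inferInstance,
          ρ.comp (AlgEquiv.restrictNormalHom L), rfl⟩
      rw [dif_pos i1, dif_pos i2]
      apply Units.ext
      rw [Units.val_mk0, Units.val_mk0]
      refine hc.eq i2 i1 fun s l _ hl => ?_
      refine hasSum_iff.mpr ?_
      have h3 := hasSum_iff.mp hl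
      have h4 := SC.logTerm_infl (K := K) (L := L) (N := N) h s
      exact (h4 ▸ h3)
    val_ind := fun K F L _ _ _ _ _ _ _ _ _ _ _ _ χ h => by
      have i1 : IsChr (show G ⟨F, L⟩ → ℂ from χ) := isChr_iff.mpr h
      have i2 : IsChr (show G ⟨K, L⟩ → ℂ from indChar K F L χ) :=
        isChr_iff.mpr (SC.isChar_indChar h)
      rw [dif_pos i1, dif_pos i2]
      apply Units.ext
      rw [Units.val_mk0, Units.val_mk0]
      refine hc.eq i2 i1 fun s l _ hl => ?_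
      refine hasSum_iff.mpr ?_
      have h3 := hasSum_iff.mp hl
      exact SC.hasSum_ind (K := K) (F := F) (L := L) h3 }

lemma leadInv_val {c : Pair → ℂ} (hc : IsLeading c) {E : Ext} {χ : G E → ℂ} (h : IsChr χ) :
    (((leadInv hc).val E.K E.L χ : ℂˣ) : ℂ) = c ⟨E, χ⟩ := by
  have h1 : (leadInv hc).val E.K E.L χ = Units.mk0 (c ⟨E, χ⟩) (hc.ne h) := dif_pos h
  rw [h1]
  rfl

end lead

section stark

lemma isA_old {c : Pair → ℂ} (hc : IsLeading c) {Λ : Y E →ₗ[ℂ] Y E} {φ : SC.StarkMap E.K E.L}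
    (hφ : ∀ a : SC.XX E.L ℂ, Λ a.1 = (φ.Lam a).1) {χ : G E → ℂ} (hχ : IsChar χ) {a : ℂ}
    (h : IsA c Λ χ a) : SC.IsA (leadInv hc) φ χ a := by
  obtain ⟨r, hr, rfl⟩ := h
  exact ⟨r, reg_old hφ hr, by rw [leadInv_val hc (isChr_iff.mpr hχ)]⟩

lemma isA_new {c : Pair → ℂ} (hc : IsLeading c) {Λ : Y E →ₗ[ℂ] Y E} {φ : SC.StarkMap E.K E.L}
    (hφ : ∀ a : SC.XX E.L ℂ, Λ a.1 = (φ.Lam a).1) {χ : G E → ℂ} (hχ : IsChar χ) {a : ℂ}
    (h : SC.IsA (leadInv hc) φ χ a) : IsA c Λ χ a := by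
  obtain ⟨r, hr⟩ := reg_exists hφ hχ
  obtain ⟨r', hr', rfl⟩ := h
  have h1 : r = r' := hr'.unique (reg_old hφ hr)
  subst h1
  exact ⟨r, hr, by rw [leadInv_val hc (isChr_iff.mpr hχ)]⟩

/-- the two versions of Stark's conjecture -/
theorem stark_iff {c : Pair → ℂ} (hc : IsLeading c) {σ : ℂ ≃+* ℂ} {χ : G E → ℂ}
    (hχ : IsChar χ) : Stark c σ χ ↔ SC.Stark (leadInv hc) σ E.K E.L χ := by
  have hG : Finite (G E) := inferInstanceAs (Finite (E.L ≃ₐ[E.K] E.L))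
  have hχ' := SC.isChar_sigma hχ σ.toRingHom
  constructor
  · intro h φ a a' ha ha'
    obtain ⟨Λ, hΛ, hφ⟩ := exists_new φ
    exact h Λ hΛ a a' (isA_new hc hφ hχ ha) (isA_new hc hφ hχ' ha')
  · intro h Λ hΛ a a' ha ha'
    obtain ⟨φ, hφ⟩ := exists_old hΛ
    exact h φ a a' (isA_old hc hφ hχ ha) (isA_old hc hφ hχ' ha')

theorem starkSign_of {c : Pair → ℂ} (hc : IsLeading c) {σ : ℂ ≃+* ℂ} {χ : G E → ℂ}
    (hχ : IsChar χ) (h : SC.StarkSign (leadInv hc) σ E.K E.L χ) : StarkSign c σ χ := by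
  have hG : Finite (G E) := inferInstanceAs (Finite (E.L ≃ₐ[E.K] E.L))
  have hχ' := SC.isChar_sigma hχ σ.toRingHom
  intro Λ hΛ a a' ha ha'
  obtain ⟨φ, hφ⟩ := exists_old hΛ
  exact h φ a a' (isA_old hc hφ hχ ha) (isA_old hc hφ hχ' ha')

end stark

end Pool.Agent.K4H74.SK
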