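import Mathlib
import Pool.Agent.K4H74.SC.Link

/-!
# Systems of leading coefficients exist
-/

set_option autoImplicit false
set_option linter.unusedSectionVars false

namespace Pool.Agent.K4H74.SK

open NumberField Pool.Agent.K4H74.ST
open scoped Topology

lemma re_nhds {z : ℂ} (hz : 1 < z.re) : ∀ᶠ s in 𝓝 z, 1 < s.re :=
  (isOpen_lt continuous_const Complex.continuous_re).mem_nhds hz

lemma order_ne {f : ℂ → ℂ} (hf : ∀ z, MeromorphicAt f z) (h : ∀ s : ℂ, 1 < s.re → f s ≠ 0) :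
    meromorphicOrderAt f 0 ≠ ⊤ := by
  have hm : MeromorphicOn f Set.univ := fun z _ => hf z
  refine hm.meromorphicOrderAt_ne_top_of_isPreconnected isPreconnected_univ (Set.mem_univ (2 : ℂ))
    (Set.mem_univ 0) ?_
  intro h1
  rw [meromorphicOrderAt_eq_top_iff] at h1
  have h2 : ∀ᶠ s in 𝓝[≠] (2 : ℂ), 1 < s.re :=
    (re_nhds (by norm_num)).filter_mono nhdsWithin_le_nhds
  obtain ⟨s, hs1, hs2⟩ := (h1.and h2).exists
  exact h s hs2 hs1

lemma lead_unique {f f' : ℂ → ℂ} (hf : ∀ z, MeromorphicAt f z) (hf' : ∀ z, MeromorphicAt f' z)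
    (h : ∀ s : ℂ, 1 < s.re → f s = f' s) :
    meromorphicTrailingCoeffAt f 0 = meromorphicTrailingCoeffAt f' 0 := by
  apply meromorphicTrailingCoeffAt_congr_nhdsNE
  have hm : MeromorphicOn (f - f') Set.univ := fun z _ => (hf z).sub (hf' z)
  have h0 : meromorphicOrderAt (f - f') 0 = ⊤ := by
    by_contra hcon
    refine hm.meromorphicOrderAt_ne_top_of_isPreconnected isPreconnected_univ
      (Set.mem_univ (0 : ℂ)) (Set.mem_univ 2) hcon ?_
    rw [meromorphicOrderAt_eq_top_iff]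
    have h2 : ∀ᶠ s in 𝓝[≠] (2 : ℂ), 1 < s.re :=
      (re_nhds (by norm_num)).filter_mono nhdsWithin_le_nhds
    filter_upwards [h2] with s hs
    rw [Pi.sub_apply, h s hs, sub_self]
  rw [meromorphicOrderAt_eq_top_iff] at h0
  filter_upwards [h0] with s hs
  exact sub_eq_zero.mp hs

/-- the characters of the Galois groups -/
abbrev Idx : Type 1 := {x : Pair // IsChr x.2}

/-- `log L(s, χ)` -/
noncomputable def logL (s : ℂ) (i : Idx) : ℂ := ∑' x, logTerm i.1.2 s x

lemma logL_hasSum {s : ℂ} (hs : 1 < s.re) (i : Idx) : HasSum (logTerm i.1.2 s) (logL s i) :=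
  (logTerm_summable i.1.2 hs).hasSum

/-- the logarithm of a product of L-functions -/
noncomputable def logP (s : ℂ) : (Idx →₀ ℤ) →ₗ[ℤ] ℂ := Finsupp.linearCombination ℤ (logL s)

/-- a product of L-functions has the meromorphic continuation `f` -/
def Cont (y : Idx →₀ ℤ) (f : ℂ → ℂ) : Prop :=
  (∀ z, MeromorphicAt f z) ∧ ∀ s : ℂ, 1 < s.re → f s = Complex.exp (logP s y)

lemma Cont.ne {y : Idx →₀ ℤ} {f : ℂ → ℂ} (h : Cont y f) : meromorphicTrailingCoeffAt f 0 ≠ 0 :=
  (h.1 0).meromorphicTrailingCoeffAt_ne_zero (order_ne h.1 fun s hs => by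
    rw [h.2 s hs]; exact Complex.exp_ne_zero _)

lemma Cont.unique {y : Idx →₀ ℤ} {f f' : ℂ → ℂ} (h : Cont y f) (h' : Cont y f') :
    meromorphicTrailingCoeffAt f 0 = meromorphicTrailingCoeffAt f' 0 :=
  lead_unique h.1 h'.1 fun s hs => by rw [h.2 s hs, h'.2 s hs]

lemma Cont.add {y y' : Idx →₀ ℤ} {f f' : ℂ → ℂ} (h : Cont y f) (h' : Cont y' f') :
    Cont (y + y') (f * f') :=
  ⟨fun z => (h.1 z).mul (h'.1 z), fun s hs => by
    rw [Pi.mul_apply, h.2 s hs, h'.2 s hs, map_add, Complex.exp_add]⟩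

lemma Cont.neg {y : Idx →₀ ℤ} {f : ℂ → ℂ} (h : Cont y f) : Cont (-y) f⁻¹ :=
  ⟨fun z => (h.1 z).inv, fun s hs => by
    rw [Pi.inv_apply, h.2 s hs, map_neg, Complex.exp_neg]⟩

lemma Cont.zero : Cont 0 (fun _ => 1) :=
  ⟨fun z => analyticAt_const.meromorphicAt, fun s _ => by rw [map_zero, Complex.exp_zero]⟩

/-- the products of L-functions with a meromorphic continuation -/
def CC : AddSubgroup (Idx →₀ ℤ) where
  carrier := {y | ∃ f, Cont y f}
  zero_mem' := ⟨_, Cont.zero⟩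
  add_mem' := by
    rintro y y' ⟨f, h⟩ ⟨f', h'⟩
    exact ⟨_, h.add h'⟩
  neg_mem' := by
    rintro y ⟨f, h⟩
    exact ⟨_, h.neg⟩

/-- the leading coefficient -/
noncomputable def leadHom : CC →+ Additive ℂˣ :=
  AddMonoidHom.mk' (fun y => Additive.ofMul (Units.mk0 _ (Cont.ne y.2.choose_spec))) (by
    intro y y'
    apply Additive.toMul.injective
    apply Units.ext
    change meromorphicTrailingCoeffAt _ 0 = meromorphicTrailingCoeffAt _ 0
      * meromorphicTrailingCoeffAt _ 0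
    rw [← (y.2.choose_spec.1 0).meromorphicTrailingCoeffAt_mul (y'.2.choose_spec.1 0)]
    exact (y + y').2.choose_spec.unique (y.2.choose_spec.add y'.2.choose_spec))

lemma leadHom_apply (y : CC) {f : ℂ → ℂ} (h : Cont y f) :
    ((Additive.toMul (leadHom y) : ℂˣ) : ℂ) = meromorphicTrailingCoeffAt f 0 :=
  y.2.choose_spec.unique h

lemma root_surj {n : ℕ} (hn : n ≠ 0) : Function.Surjective (fun a : Additive ℂˣ => n • a) := by
  intro b
  obtain ⟨z, hz⟩ := IsAlgClosed.exists_pow_nat_eq ((b.toMul : ℂˣ) : ℂ) (Nat.pos_of_ne_zero hn)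
  have hz0 : z ≠ 0 := by
    rintro rfl
    rw [zero_pow hn] at hz
    exact (Units.ne_zero b.toMul) hz.symm
  refine ⟨Additive.ofMul (Units.mk0 z hz0), ?_⟩
  apply Additive.toMul.injective
  apply Units.ext
  exact hz

noncomputable instance divNat : DivisibleBy (Additive ℂˣ) ℕ :=
  divisibleByOfSMulRightSurj _ _ root_surj

noncomputable instance divInst : DivisibleBy (Additive ℂˣ) ℤ :=
  AddGroup.divisibleByIntOfDivisibleByNat _

/-- **Systems of leading coefficients exist.** -/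
theorem exists_isLeading : ∃ c : Pair → ℂ, IsLeading c := by
  classical
  obtain ⟨h, hh⟩ := (Module.Baer.of_divisible (Additive ℂˣ)).extension_property_addMonoidHom
    CC.subtype Subtype.val_injective leadHom
  have hsub : ∀ y : CC, h (y : Idx →₀ ℤ) = leadHom y := fun y => DFunLike.congr_fun hh y
  let c : Pair → ℂ := fun x => if hx : IsChr x.2 then
    ((Additive.toMul (h (Finsupp.single ⟨x, hx⟩ 1)) : ℂˣ) : ℂ) else 1
  have hc : ∀ (x : Pair) (hx : IsChr x.2),
      c x = ((Additive.toMul (h (Finsupp.single ⟨x, hx⟩ 1)) : ℂˣ) : ℂ) := fun x hx => dif_pos hx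
  refine ⟨c, fun m x k f hx hf hs => ?_⟩
  let y : Idx →₀ ℤ := ∑ i, k i • Finsupp.single ⟨x i, hx i⟩ 1
  have hy : Cont y f := by
    refine ⟨hf, fun s hs' => ?_⟩
    obtain ⟨l, hl, hfl⟩ := hs s hs'
    rw [hfl]
    congr 1
    rw [map_sum]
    refine Finset.sum_congr rfl fun i _ => ?_
    rw [map_smul, logP, Finsupp.linearCombination_single, one_smul,
      (logL_hasSum hs' ⟨x i, hx i⟩).unique (hl i), zsmul_eq_mul]
  have h1 := leadHom_apply ⟨y, f, hy⟩ hy
  rw [← hsub] at h1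
  rw [← h1]
  change _ = ((Additive.toMul (h y) : ℂˣ) : ℂ)
  rw [map_sum, toMul_sum, Units.coe_prod]
  refine Finset.prod_congr rfl fun i _ => ?_
  rw [map_zsmul, toMul_zsmul, Units.val_zpow_eq_zpow_val, hc (x i) (hx i)]

end Pool.Agent.K4H74.SK
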