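import Mathlib
import Pool.Agent.K4H74.SC.Link
import Pool.Agent.K4H74.ST.Exc

/-!
# Stark's conjecture and the value of the inductive invariant
-/

set_option autoImplicit false
set_option linter.unusedSectionVars false

namespace Pool.Agent.K4H74.SK

open NumberField

variable {c : Pair → ℂ} (hc : IsLeading c) (σ : ℂ ≃+* ℂ)

/-- the inductive invariant -/
noncomputable abbrev inv : ST.ArtinInvariant ℂˣ := SC.starkInv (leadInv hc) σ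

lemma isChr_lin {E : Ext} (ψ : G E →* ℂˣ) : IsChr (lin ψ) := isChr_iff.mpr (ST.IsChar.lc ψ)

lemma of_val {E : Ext} {χ : G E → ℂ} (hχ : IsChr χ) (h : (inv hc σ).val E.K E.L χ = 1) :
    Stark c σ χ := by
  have h' := isChr_iff.mp hχ
  exact (stark_iff hc h').mpr ((SC.stark_iff _ σ h').mpr h)

lemma to_val {E : Ext} {χ : G E → ℂ} (hχ : IsChr χ) (h : Stark c σ χ) :
    (inv hc σ).val E.K E.L χ = 1 := by
  have h' := isChr_iff.mp hχ
  exact (SC.stark_iff _ σ h').mp ((stark_iff hc h').mp h)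

lemma sign_of {E : Ext} {χ : G E → ℂ} (hχ : IsChr χ) (h : (inv hc σ).val E.K E.L χ ^ 2 = 1) :
    StarkSign c σ χ := by
  have h' := isChr_iff.mp hχ
  exact starkSign_of hc h' (SC.starkSign_iff _ σ h' h)

lemma trivOne_of (hone : ∀ E : Ext, Stark c σ (E := E) (fun _ => 1)) :
    ST.TrivOne (inv hc σ) := by
  intro K _ _
  have h : IsChr (fun _ : G ⟨K, K⟩ => (1 : ℂ)) := by
    have h1 := isChr_lin (E := ⟨K, K⟩) 1
    have h2 : lin (1 : G ⟨K, K⟩ →* ℂˣ) = fun _ => 1 := by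
      funext g
      simp [lin]
    rwa [h2] at h1
  exact to_val hc σ (E := ⟨K, K⟩) h (hone ⟨K, K⟩)

lemma trivComplex_of (h : ∀ E : Ext, IsTotallyComplex E.K → ∀ ψ : G E →* ℂˣ,
    Function.Injective ψ → Stark c σ (lin ψ)) : ST.TrivComplex (inv hc σ) := by
  intro K L _ _ _ _ _ _ hK ψ hψ
  exact to_val hc σ (E := ⟨K, L⟩) (isChr_lin (E := ⟨K, L⟩) ψ) (h ⟨K, L⟩ hK ψ hψ)

lemma trivOdd_of (h : ∀ E : Ext, IsTotallyReal E.K → ∀ ψ : G E →* ℂˣ,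
    (∀ t, IsCC t → ψ t = -1) → Stark c σ (lin ψ)) : ST.TrivOdd (inv hc σ) := by
  intro K L _ _ _ _ _ _ hK ψ hψ
  refine to_val hc σ (E := ⟨K, L⟩) (isChr_lin (E := ⟨K, L⟩) ψ) (h ⟨K, L⟩ hK ψ ?_)
  rintro t ⟨φ, hφ⟩
  exact hψ φ t (RingHom.ext fun x => (hφ x).symm)

lemma trivMixed_of (h : ∀ E : Ext, ¬ IsTotallyReal E.K → ¬ IsTotallyComplex E.K →
    (∃ l : ℕ, Nat.card (G E) = 2 ^ (l + 2)) → (∀ t : G E, IsCC t → t = 1) →
    ∀ ψ : G E →* ℂˣ, Function.Injective ψ → Stark c σ (lin ψ)) : ST.TrivMixed (inv hc σ) := by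
  intro K L _ _ _ _ _ _ hK hK' hl hcc ψ hψ
  refine to_val hc σ (E := ⟨K, L⟩) (isChr_lin (E := ⟨K, L⟩) ψ) (h ⟨K, L⟩ hK hK' hl ?_ ψ hψ)
  rintro t ⟨φ, hφ⟩
  exact hcc φ t (RingHom.ext fun x => (hφ x).symm)

lemma trivRational_of (h : ∀ (E : Ext) (χ : G E → ℂ), IsChr χ → (∀ g, ∃ q : ℚ, χ g = q) →
    Stark c σ χ) : ST.TrivRational (inv hc σ) := by
  intro K L _ _ _ _ _ _ χ hχ hq
  exact to_val hc σ (E := ⟨K, L⟩) (isChr_iff.mpr hχ) (h ⟨K, L⟩ χ (isChr_iff.mpr hχ) hq)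

end Pool.Agent.K4H74.SK
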